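import Mathlib

/-! # Two Hasse invariants with rational two-torsion -/

namespace MPadc574

open Polynomial

noncomputable section

variable {p : ℕ} [Fact p.Prime]

theorem sum_pow_zmod (m : ℕ) :
    ∑ x : ZMod p, x ^ m = if m ≠ 0 ∧ (p - 1) ∣ m then -1 else 0 := by
  classical
  by_cases hm : m = 0
  · subst hm
    simp
  · have h1 : ∑ x : ZMod p, x ^ m = ∑ x : (ZMod p)ˣ, (x ^ m : ZMod p) := by
      have h2 : ∑ x ∈ Finset.univ \ {(0 : ZMod p)}, x ^ m = ∑ x : (ZMod p)ˣ, (x ^ m : ZMod p) := by
        symm
        apply Finset.sum_bij (fun (x : (ZMod p)ˣ) _ => (x : ZMod p))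
        · intro x _
          simp
        · intro a _ b _ h
          exact Units.ext h
        · intro b hb
          simp only [Finset.mem_sdiff, Finset.mem_univ, Finset.mem_singleton, true_and] at hb
          exact ⟨Units.mk0 b hb, Finset.mem_univ _, rfl⟩
        · intro x _
          rfl
      rw [← h2, ← Finset.sum_sdiff ({0} : Finset (ZMod p)).subset_univ, Finset.sum_singleton,
        zero_pow hm, add_zero]
    rw [h1, FiniteField.sum_pow_units, ZMod.card]
    simp [hm]

theorem sum_eval_zmod (P : (ZMod p)[X]) (hP : P.natDegree ≤ 2 * (p - 1)) :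
    ∑ x : ZMod p, P.eval x = -(P.coeff (p - 1) + P.coeff (2 * (p - 1))) := by
  classical
  have hp : 1 < p := (Fact.out : p.Prime).one_lt
  have h1 : ∀ x : ZMod p, P.eval x =
      ∑ m ∈ Finset.range (2 * (p - 1) + 1), P.coeff m * x ^ m := by
    intro x
    rw [eval_eq_sum_range' (n := 2 * (p - 1) + 1) (by omega)]
  rw [Finset.sum_congr rfl (fun x _ => h1 x), Finset.sum_comm]
  simp_rw [← Finset.mul_sum, sum_pow_zmod]
  have h2 : ∀ m ∈ Finset.range (2 * (p - 1) + 1),
      P.coeff m * (if m ≠ 0 ∧ (p - 1) ∣ m then (-1 : ZMod p) else 0) =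
      (if m = p - 1 then -P.coeff (p - 1) else 0) +
        (if m = 2 * (p - 1) then -P.coeff (2 * (p - 1)) else 0) := by
    intro m hm
    rw [Finset.mem_range] at hm
    by_cases h : m ≠ 0 ∧ (p - 1) ∣ m
    · rw [if_pos h]
      obtain ⟨h0, k, hk⟩ := h
      have hk0 : k ≠ 0 := by
        rintro rfl
        simp at hk
        exact h0 hk
      have hk3 : k < 3 := by
        by_contra hcon
        push Not at hcon
        have : (p - 1) * 3 ≤ (p - 1) * k := Nat.mul_le_mul_left _ hcon
        omega
      have hk12 : k = 1 ∨ k = 2 := by omega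
      rcases hk12 with rfl | rfl
      · rw [mul_one] at hk
        rw [if_pos hk, if_neg (by omega), hk]
        ring
      · rw [mul_comm] at hk
        rw [if_neg (by omega), if_pos hk, hk]
        ring
    · rw [if_neg h, if_neg, if_neg]
      · ring
      · rintro rfl
        exact h ⟨by omega, Dvd.intro_left _ rfl⟩
      · rintro rfl
        exact h ⟨by omega, dvd_rfl⟩
  rw [Finset.sum_congr rfl h2, Finset.sum_add_distrib, Finset.sum_ite_eq', Finset.sum_ite_eq',
    if_pos (by rw [Finset.mem_range]; omega), if_pos (by rw [Finset.mem_range]; omega)]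
  ring

/-- The cubic values. -/
def cub (a b c x : ZMod p) : ZMod p := (x - a) * (x - b) * (x - c)

/-- The involution -/
def invo (a b c x : ZMod p) : ZMod p := by
  classical
  exact if (x - a) ^ 2 = (a - b) * (a - c) then 2 * a - x else a + (a - b) * (a - c) / (x - a)

theorem even_card {a b c : ZMod p} (hp2 : p ≠ 2) (hab : a ≠ b) (hac : a ≠ c) (hbc : b ≠ c) :
    Even ((Finset.univ.filter (fun x : ZMod p => quadraticChar (ZMod p) (cub a b c x) = 1)).card) := by
  classical
  have h2 : (2 : ZMod p) ≠ 0 := by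
    intro h
    have h3 : ((2 : ℕ) : ZMod p) = 0 := by exact_mod_cast h
    rw [CharP.cast_eq_zero_iff (ZMod p) p] at h3
    exact hp2 ((Nat.prime_dvd_prime_iff_eq (Fact.out : p.Prime) Nat.prime_two).1 h3)
  have hab' : a - b ≠ 0 := sub_ne_zero.2 hab
  have hac' : a - c ≠ 0 := sub_ne_zero.2 hac
  have hbc' : b - c ≠ 0 := sub_ne_zero.2 hbc
  have hD : (a - b) * (a - c) ≠ 0 := mul_ne_zero hab' hac'
  set S := Finset.univ.filter (fun x : ZMod p => quadraticChar (ZMod p) (cub a b c x) = 1) with hS
  have hmem : ∀ x ∈ S, quadraticChar (ZMod p) (cub a b c x) = 1 ∧ x - a ≠ 0 := by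
    intro x hx
    rw [hS, Finset.mem_filter] at hx
    refine ⟨hx.2, ?_⟩
    intro h0
    rw [cub, h0] at hx
    simp at hx
  have key : ∑ x ∈ S, (1 : ZMod 2) = 0 := by
    apply Finset.sum_involution (fun x _ => invo a b c x)
    · intro x _
      decide
    · intro x hx _ h
      obtain ⟨h1, h3⟩ := hmem x hx
      unfold invo at h
      split_ifs at h with h4
      · have : 2 * (x - a) = 0 := by linear_combination -h
        rcases mul_eq_zero.1 this with h5 | h5
        · exact h2 h5
        · exact h3 h5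
      · apply h4
        field_simp at h
        linear_combination -h
    · intro x hx
      obtain ⟨h1, h3⟩ := hmem x hx
      rw [hS, Finset.mem_filter]
      refine ⟨Finset.mem_univ _, ?_⟩
      unfold invo
      split_ifs with h4
      · have h5 : cub a b c x * cub a b c (2 * a - x) = ((x - a) ^ 2 * (b - c)) ^ 2 := by
          unfold cub
          linear_combination (-(x - a) ^ 2 * ((x - a) ^ 2 - (a - b) * (a - c))) * h4
        have h6 : quadraticChar (ZMod p) (((x - a) ^ 2 * (b - c)) ^ 2) = 1 :=
          quadraticChar_sq_one' (mul_ne_zero (pow_ne_zero _ h3) hbc')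
        rw [← h5, map_mul, h1, one_mul] at h6
        exact h6
      · have h5 : cub a b c (a + (a - b) * (a - c) / (x - a)) =
            cub a b c x * ((a - b) * (a - c) / (x - a) ^ 2) ^ 2 := by
          unfold cub
          field_simp
          ring
        rw [h5, map_mul, h1, one_mul]
        exact quadraticChar_sq_one' (div_ne_zero hD (pow_ne_zero _ h3))
    · intro x hx
      obtain ⟨h1, h3⟩ := hmem x hx
      unfold invo
      by_cases h4 : (x - a) ^ 2 = (a - b) * (a - c)
      · rw [if_pos h4, if_pos]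
        · ring
        · rw [← h4]
          ring
      · rw [if_neg h4, if_neg]
        · field_simp
          ring
        · intro h5
          apply h4
          field_simp at h5
          have h6 : (a - b) * (a - c) * ((a - b) * (a - c) - (x - a) ^ 2) = 0 := by
            linear_combination h5
          rcases mul_eq_zero.1 h6 with h7 | h7
          · exact absurd h7 hD
          · linear_combination -h7
  rw [Finset.sum_const, nsmul_eq_mul, mul_one] at key
  rw [even_iff_two_dvd]
  exact (CharP.cast_eq_zero_iff (ZMod 2) 2 _).1 key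

theorem cub_ne_zero_iff {a b c x : ZMod p} : cub a b c x ≠ 0 ↔ x ≠ a ∧ x ≠ b ∧ x ≠ c := by
  unfold cub
  rw [mul_ne_zero_iff, mul_ne_zero_iff, sub_ne_zero, sub_ne_zero, sub_ne_zero, and_assoc]

/-- The character sum of a cubic with three distinct rational roots does not vanish when
`p ≡ 1 mod 4`. -/
theorem charSum_cub_ne_zero (hp4 : p % 4 = 1) {a b c : ZMod p} (hab : a ≠ b) (hac : a ≠ c)
    (hbc : b ≠ c) :
    ∑ x : ZMod p, quadraticChar (ZMod p) (cub a b c x) ≠ 0 := by
  classical
  have hp2 : p ≠ 2 := by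
    rintro rfl
    norm_num at hp4
  intro hsum
  set S := Finset.univ.filter (fun x : ZMod p => quadraticChar (ZMod p) (cub a b c x) = 1) with hS
  have heven : Even S.card := even_card hp2 hab hac hbc
  set T := Finset.univ.filter (fun x : ZMod p => cub a b c x ≠ 0) with hT
  have hTc : T.card + 3 = p := by
    have h1 : T = Finset.univ \ {a, b, c} := by
      ext x
      rw [hT, Finset.mem_filter, cub_ne_zero_iff]
      simp
    have h2 : ({a, b, c} : Finset (ZMod p)).card = 3 := by
      rw [Finset.card_eq_three]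
      exact ⟨a, b, c, hab, hac, hbc, rfl⟩
    have h3 : ({a, b, c} : Finset (ZMod p)).card ≤ (Finset.univ : Finset (ZMod p)).card :=
      Finset.card_le_card (Finset.subset_univ _)
    rw [h1, Finset.card_sdiff_of_subset (Finset.subset_univ _), h2, Finset.card_univ, ZMod.card]
    rw [h2, Finset.card_univ, ZMod.card] at h3
    omega
  have hval : ∀ x : ZMod p, quadraticChar (ZMod p) (cub a b c x) =
      2 * (if x ∈ S then (1 : ℤ) else 0) - (if x ∈ T then (1 : ℤ) else 0) := by
    intro x
    rw [hS, hT]
    simp only [Finset.mem_filter, Finset.mem_univ, true_and]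
    by_cases h0 : cub a b c x = 0
    · rw [h0]
      simp
    · rcases quadraticChar_dichotomy h0 with h | h
      · rw [h]
        simp [h0]
      · rw [h]
        simp [h0]
  rw [Finset.sum_congr rfl (fun x _ => hval x), Finset.sum_sub_distrib, ← Finset.mul_sum,
    Finset.sum_ite_mem, Finset.sum_ite_mem, Finset.univ_inter, Finset.univ_inter,
    Finset.sum_const, Finset.sum_const] at hsum
  simp only [nsmul_eq_mul, mul_one] at hsum
  obtain ⟨k, hk⟩ := heven
  omega

theorem abs_charSum_le (F : ZMod p → ZMod p) (R : Finset (ZMod p))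
    (hR : ∀ x ∈ R, F x = 0) :
    |∑ x : ZMod p, quadraticChar (ZMod p) (F x)| ≤ p - R.card := by
  classical
  have h1 : ∀ x : ZMod p, |quadraticChar (ZMod p) (F x)| ≤ if x ∈ Finset.univ \ R then 1 else 0 := by
    intro x
    by_cases hx : x ∈ R
    · rw [hR x hx]
      simp [hx]
    · rw [if_pos (by simp [hx])]
      by_cases h0 : F x = 0
      · rw [h0]
        simp
      · rcases quadraticChar_dichotomy h0 with h | h <;> rw [h] <;> norm_num
  refine (Finset.abs_sum_le_sum_abs _ _).trans ((Finset.sum_le_sum (fun x _ => h1 x)).trans ?_)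
  rw [Finset.sum_ite_mem, Finset.univ_inter, Finset.sum_const,
    Finset.card_sdiff_of_subset (Finset.subset_univ _), Finset.card_univ, ZMod.card]
  have h3 : R.card ≤ p := by
    have := Finset.card_le_card (Finset.subset_univ R)
    rwa [Finset.card_univ, ZMod.card] at this
  simp only [nsmul_eq_mul, mul_one]
  rw [Nat.cast_sub h3]

theorem cast_charSum (hp2 : p ≠ 2) (P : (ZMod p)[X]) :
    ((∑ x : ZMod p, quadraticChar (ZMod p) (P.eval x) : ℤ) : ZMod p) =
      ∑ x : ZMod p, (P ^ ((p - 1) / 2)).eval x := by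
  have hodd : p % 2 = 1 := by
    rcases (Fact.out : p.Prime).eq_two_or_odd with h | h
    · exact absurd h hp2
    · exact h
  push_cast
  apply Finset.sum_congr rfl
  intro x _
  rw [quadraticChar_eq_pow_of_char_ne_two' (by rw [ZMod.ringChar_zmod_n]; exact hp2), ZMod.card,
    eval_pow]
  congr 1
  omega

theorem coeff_cubic_ne_zero (hp4 : p % 4 = 1) {a b c : ZMod p} (hab : a ≠ b) (hac : a ≠ c)
    (hbc : b ≠ c) :
    (((X - C a) * (X - C b) * (X - C c) : (ZMod p)[X]) ^ ((p - 1) / 2)).coeff (p - 1) ≠ 0 := by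
  classical
  have hp2 : p ≠ 2 := by
    rintro rfl
    norm_num at hp4
  have hp1 : 1 < p := (Fact.out : p.Prime).one_lt
  set P : (ZMod p)[X] := (X - C a) * (X - C b) * (X - C c) with hP
  intro h0
  have hdeg : P.natDegree = 3 := by
    rw [hP]
    compute_degree!
  have hdeg2 : (P ^ ((p - 1) / 2)).natDegree < 2 * (p - 1) := by
    rw [natDegree_pow, hdeg]
    omega
  have h1 := sum_eval_zmod (P ^ ((p - 1) / 2)) hdeg2.le
  rw [h0, coeff_eq_zero_of_natDegree_lt hdeg2, ← cast_charSum hp2, add_zero, neg_zero,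
    ZMod.intCast_zmod_eq_zero_iff_dvd] at h1
  have heval : ∀ x, P.eval x = cub a b c x := by
    intro x
    rw [hP]
    simp [cub]
  simp_rw [heval] at h1
  have h2 := abs_charSum_le (cub a b c) {a, b, c} (by
    intro x hx
    by_contra h3
    rw [← ne_eq, cub_ne_zero_iff] at h3
    simp only [Finset.mem_insert, Finset.mem_singleton] at hx
    tauto)
  have h3 : ({a, b, c} : Finset (ZMod p)).card = 3 := by
    rw [Finset.card_eq_three]
    exact ⟨a, b, c, hab, hac, hbc, rfl⟩
  rw [h3] at h2
  apply charSum_cub_ne_zero hp4 hab hac hbc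
  apply Int.eq_zero_of_abs_lt_dvd h1
  push_cast at h2
  linarith

theorem coeff_quartic_ne_zero (hp4 : p % 4 = 1) {a b c d : ZMod p} (hab : a ≠ b) (hac : a ≠ c)
    (had : a ≠ d) (hbc : b ≠ c) (hbd : b ≠ d) (hcd : c ≠ d) :
    (((X - C a) * (X - C b) * (X - C c) * (X - C d) : (ZMod p)[X]) ^ ((p - 1) / 2)).coeff
      (p - 1) ≠ 0 := by
  classical
  have hp2 : p ≠ 2 := by
    rintro rfl
    norm_num at hp4
  have hp1 : 1 < p := (Fact.out : p.Prime).one_lt
  have hab' : a - b ≠ 0 := sub_ne_zero.2 hab
  have hac' : a - c ≠ 0 := sub_ne_zero.2 hac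
  have had' : a - d ≠ 0 := sub_ne_zero.2 had
  set P : (ZMod p)[X] := (X - C a) * (X - C b) * (X - C c) * (X - C d) with hP
  intro h0
  have hdeg : P.natDegree = 4 := by
    rw [hP]
    compute_degree!
  have hmonic : P.Monic := by
    rw [hP]
    exact (((monic_X_sub_C a).mul (monic_X_sub_C b)).mul (monic_X_sub_C c)).mul (monic_X_sub_C d)
  have hdeg2 : (P ^ ((p - 1) / 2)).natDegree = 2 * (p - 1) := by
    rw [natDegree_pow, hdeg]
    omega
  have h1 := sum_eval_zmod (P ^ ((p - 1) / 2)) hdeg2.le
  have hlead : (P ^ ((p - 1) / 2)).coeff (2 * (p - 1)) = 1 := by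
    rw [← hdeg2]
    exact (hmonic.pow _).coeff_natDegree
  rw [h0, hlead, ← cast_charSum hp2, zero_add] at h1
  have h1' : ((∑ x : ZMod p, quadraticChar (ZMod p) (P.eval x) + 1 : ℤ) : ZMod p) = 0 := by
    rw [Int.cast_add, h1]
    simp
  rw [ZMod.intCast_zmod_eq_zero_iff_dvd] at h1'
  have heval : ∀ x, P.eval x = (x - a) * (x - b) * (x - c) * (x - d) := by
    intro x
    rw [hP]
    simp
  simp_rw [heval] at h1'
  have h3 : ({a, b, c, d} : Finset (ZMod p)).card = 4 := by
    rw [Finset.card_insert_of_notMem (by simp [hab, hac, had]),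
      Finset.card_insert_of_notMem (by simp [hbc, hbd]), Finset.card_insert_of_notMem (by simp [hcd]),
      Finset.card_singleton]
  have h2 := abs_charSum_le (fun x => (x - a) * (x - b) * (x - c) * (x - d)) {a, b, c, d} (by
    intro x hx
    simp only [Finset.mem_insert, Finset.mem_singleton] at hx
    rcases hx with rfl | rfl | rfl | rfl <;> simp)
  rw [h3] at h2
  have h4 : ∑ x : ZMod p, quadraticChar (ZMod p) ((x - a) * (x - b) * (x - c) * (x - d)) + 1 = 0 := by
    apply Int.eq_zero_of_abs_lt_dvd h1'
    push_cast at h2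
    rw [abs_le] at h2
    rw [abs_lt]
    constructor <;> linarith [h2.1, h2.2]
  -- relate to a cubic
  set D : ZMod p := (a - b) * (a - c) * (a - d) with hDdef
  have hD : D ≠ 0 := mul_ne_zero (mul_ne_zero hab' hac') had'
  have h5 : ∑ x : ZMod p, quadraticChar (ZMod p) ((x - a) * (x - b) * (x - c) * (x - d)) =
      ∑ y : ZMod p, (quadraticChar (ZMod p) D *
        quadraticChar (ZMod p) (cub (-(a - b)⁻¹) (-(a - c)⁻¹) (-(a - d)⁻¹) y) -
          if y = 0 then 1 else 0) := by
    rw [← Equiv.sum_comp (Equiv.inv (ZMod p))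
      (fun y => (quadraticChar (ZMod p) D *
        quadraticChar (ZMod p) (cub (-(a - b)⁻¹) (-(a - c)⁻¹) (-(a - d)⁻¹) y) -
          if y = 0 then 1 else 0)),
      ← Equiv.sum_comp (Equiv.addLeft a)
      (fun x => quadraticChar (ZMod p) ((x - a) * (x - b) * (x - c) * (x - d)))]
    apply Finset.sum_congr rfl
    intro y _
    simp only [Equiv.coe_addLeft, Equiv.inv_apply]
    rw [← map_mul]
    by_cases hy : y = 0
    · subst hy
      simp only [add_zero, sub_self, zero_mul, MulChar.map_zero, inv_zero, if_true]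
      have h6 : D * cub (-(a - b)⁻¹) (-(a - c)⁻¹) (-(a - d)⁻¹) 0 = 1 := by
        rw [hDdef]
        unfold cub
        field_simp
        ring
      rw [h6]
      simp
    · rw [if_neg (inv_ne_zero hy), sub_zero]
      have h6 : (a + y - a) * (a + y - b) * (a + y - c) * (a + y - d) =
          D * cub (-(a - b)⁻¹) (-(a - c)⁻¹) (-(a - d)⁻¹) y⁻¹ * (y ^ 2) ^ 2 := by
        rw [hDdef]
        unfold cub
        field_simp
        ring
      rw [h6, map_mul, quadraticChar_sq_one' (pow_ne_zero _ hy), mul_one]
  rw [h5, Finset.sum_sub_distrib, ← Finset.mul_sum, Finset.sum_ite_eq', if_pos (Finset.mem_univ _),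
    sub_add_cancel] at h4
  rcases mul_eq_zero.1 h4 with h6 | h6
  · rw [quadraticChar_eq_zero_iff] at h6
    exact hD h6
  · refine charSum_cub_ne_zero hp4 ?_ ?_ ?_ h6
    · intro h
      rw [neg_inj, inv_inj] at h
      exact hbc (by linear_combination -h)
    · intro h
      rw [neg_inj, inv_inj] at h
      exact hbd (by linear_combination -h)
    · intro h
      rw [neg_inj, inv_inj] at h
      exact hcd (by linear_combination -h)

end

end MPadc574
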