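import Mathlib

/-! # The Cartier-type operator on polynomials in characteristic `p` -/

namespace MPadc574

open Polynomial

noncomputable section

/-- The operator `Σ v_m X^m ↦ Σ v_{p(i+1)-1} X^i` on polynomials. -/
def cop (p : ℕ) {R : Type*} [CommRing R] (v : R[X]) : R[X] :=
  ∑ i ∈ Finset.range (v.natDegree + 1), C (v.coeff (p * (i + 1) - 1)) * X ^ i

variable {p : ℕ}

theorem coeff_cop (hp : 0 < p) {R : Type*} [CommRing R] (v : R[X]) (i : ℕ) :
    (cop p v).coeff i = v.coeff (p * (i + 1) - 1) := by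
  unfold cop
  rw [finsetSum_coeff]
  simp only [coeff_C_mul, coeff_X_pow, mul_ite, mul_one, mul_zero]
  rw [Finset.sum_ite_eq]
  split_ifs with h
  · rfl
  · rw [Finset.mem_range, not_lt] at h
    symm
    apply coeff_eq_zero_of_natDegree_lt
    have h1 : 1 * (i + 1) ≤ p * (i + 1) := Nat.mul_le_mul_right _ hp
    omega

theorem cop_eq_zero_iff (hp : 0 < p) {R : Type*} [CommRing R] (v : R[X]) :
    cop p v = 0 ↔ ∀ i, v.coeff (p * (i + 1) - 1) = 0 := by
  constructor
  · intro h i
    rw [← coeff_cop hp, h, coeff_zero]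
  · intro h
    ext i
    rw [coeff_cop hp, h, coeff_zero]

theorem cop_map (hp : 0 < p) {R S : Type*} [CommRing R] [CommRing S] (φ : R →+* S) (v : R[X]) :
    cop p (v.map φ) = (cop p v).map φ := by
  ext i
  rw [coeff_cop hp, coeff_map, coeff_map, coeff_cop hp]

theorem cop_C_mul (hp : 0 < p) {R : Type*} [CommRing R] (c : R) (v : R[X]) :
    cop p (C c * v) = C c * cop p v := by
  ext i
  rw [coeff_cop hp, coeff_C_mul, coeff_C_mul, coeff_cop hp]

theorem cop_add (hp : 0 < p) {R : Type*} [CommRing R] (u v : R[X]) :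
    cop p (u + v) = cop p u + cop p v := by
  ext i
  rw [coeff_cop hp, coeff_add, coeff_add, coeff_cop hp, coeff_cop hp]

theorem cop_expand_mul (hp : 0 < p) {R : Type*} [CommRing R] (w v : R[X]) :
    cop p (expand R p w * v) = w * cop p v := by
  induction w using Polynomial.induction_on' with
  | add a b ha hb => rw [map_add, add_mul, add_mul, cop_add hp, ha, hb]
  | monomial k a =>
    rw [expand_monomial, ← C_mul_X_pow_eq_monomial, ← C_mul_X_pow_eq_monomial, mul_assoc,
      mul_assoc, cop_C_mul hp]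
    congr 1
    ext i
    rw [coeff_cop hp, coeff_X_pow_mul', coeff_X_pow_mul']
    by_cases h : k ≤ i
    · have h1 : k * p ≤ p * (i + 1) - 1 := by
        have : k * p ≤ i * p := Nat.mul_le_mul_right _ h
        have h3 : p * (i + 1) = i * p + p := by ring
        omega
      rw [if_pos h1, if_pos h, coeff_cop hp]
      congr 1
      obtain ⟨d, rfl⟩ := Nat.exists_eq_add_of_le h
      have : p * (k + d + 1) = k * p + p * (d + 1) := by ring
      rw [this, Nat.add_sub_cancel_left]
      have : 0 < p * (d + 1) := by positivity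
      omega
    · rw [if_neg h, if_neg]
      push Not at h ⊢
      have h3 : p * (i + 1) ≤ k * p := by
        rw [mul_comm]
        exact Nat.mul_le_mul_right _ h
      have : 0 < p * (i + 1) := by positivity
      omega

theorem cop_pow_mul [Fact p.Prime] {R : Type*} [CommRing R] [CharP R p] (u v : R[X]) :
    cop p (u ^ p * v) = u.map (frobenius R p) * cop p v := by
  have hp : 0 < p := (Fact.out : p.Prime).pos
  rw [← cop_expand_mul hp, ← map_frobenius_expand, map_expand]

section field

variable [Fact p.Prime] {κ : Type*} [Field κ] [CharP κ p]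

theorem cop_derivative (w : κ[X]) : cop p (derivative w) = 0 := by
  have hp : 0 < p := (Fact.out : p.Prime).pos
  rw [cop_eq_zero_iff hp]
  intro i
  rw [coeff_derivative]
  have h1 : 0 < p * (i + 1) := by positivity
  have h2 : ((p * (i + 1) - 1 : ℕ) : κ) + 1 = ((p * (i + 1) : ℕ) : κ) := by
    rw [← Nat.cast_add_one]
    congr 1
    omega
  rw [h2, Nat.cast_mul, CharP.cast_eq_zero, zero_mul, mul_zero]

theorem exists_derivative_of_cop_eq_zero {v : κ[X]} (h : cop p v = 0) :
    ∃ w : κ[X], v = derivative w := by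
  have hp : 0 < p := (Fact.out : p.Prime).pos
  rw [cop_eq_zero_iff hp] at h
  refine ⟨∑ m ∈ Finset.range (v.natDegree + 1), C (v.coeff m / ((m : κ) + 1)) * X ^ (m + 1), ?_⟩
  rw [derivative_sum]
  conv_lhs => rw [v.as_sum_range_C_mul_X_pow]
  apply Finset.sum_congr rfl
  intro m _
  rw [derivative_C_mul_X_pow]
  simp only [Nat.add_sub_cancel, Nat.cast_add, Nat.cast_one]
  by_cases h0 : ((m : κ) + 1) = 0
  · have h1 : ((m + 1 : ℕ) : κ) = 0 := by push_cast; exact h0
    rw [CharP.cast_eq_zero_iff κ p] at h1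
    obtain ⟨k, hk⟩ := h1
    have hk0 : k ≠ 0 := by
      rintro rfl
      simp at hk
    obtain ⟨i, rfl⟩ := Nat.exists_eq_succ_of_ne_zero hk0
    have h2 : v.coeff m = 0 := by
      have := h i
      rw [Nat.succ_eq_add_one] at hk
      rw [← hk, Nat.add_sub_cancel] at this
      exact this
    rw [h2]
    simp
  · rw [div_mul_cancel₀ _ h0]

theorem cop_comp_eq_zero {v : κ[X]} (h : cop p v = 0) (c ρ : κ) (hρ : ρ ≠ 0) :
    cop p (v.comp (C c + C ρ * X)) = 0 := by
  obtain ⟨w, rfl⟩ := exists_derivative_of_cop_eq_zero h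
  have h1 : (derivative w).comp (C c + C ρ * X) =
      derivative (C ρ⁻¹ * w.comp (C c + C ρ * X)) := by
    rw [derivative_C_mul, derivative_comp]
    simp only [derivative_add, derivative_C, derivative_mul, derivative_X, zero_mul, zero_add,
      mul_one]
    rw [← mul_assoc, ← C_mul, inv_mul_cancel₀ hρ, C_1, one_mul]
  rw [h1, cop_derivative]

theorem eval_eq_zero_of_cop {B : κ[X]} {α : κ} (h : cop p ((X - C α) ^ (p - 1) * B) = 0) :
    B.eval α = 0 := by
  have hp : 0 < p := (Fact.out : p.Prime).pos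
  have h1 := cop_comp_eq_zero h α 1 one_ne_zero
  rw [cop_eq_zero_iff hp] at h1
  have h2 := h1 0
  simp only [C_1, one_mul, mul_comp, pow_comp, sub_comp, X_comp, C_comp, add_sub_cancel_left,
    zero_add, mul_one] at h2
  rw [coeff_X_pow_mul', if_pos le_rfl, Nat.sub_self, coeff_zero_eq_eval_zero,
    eval_comp] at h2
  simpa using h2

theorem cop_of_mul_pow {B : κ[X]} {α : κ} (h : cop p ((X - C α) ^ p * B) = 0) :
    cop p B = 0 := by
  rw [cop_pow_mul] at h
  rcases mul_eq_zero.1 h with h1 | h1
  · exfalso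
    rw [Polynomial.map_eq_zero_iff (RingHom.injective _)] at h1
    exact X_sub_C_ne_zero _ h1
  · exact h1

end field

/-- The Cartier–Manin matrix of the curve `y² = f(x)`, of size `g`. -/
def cmMatrix (p g : ℕ) {R : Type*} [CommRing R] (f : R[X]) : Matrix (Fin g) (Fin g) R :=
  fun i j => (f ^ ((p - 1) / 2)).coeff ((i.1 + 1) * p - (j.1 + 1))

theorem cmMatrix_map {g : ℕ} {R S : Type*} [CommRing R] [CommRing S] (φ : R →+* S) (f : R[X]) :
    cmMatrix p g (f.map φ) = (cmMatrix p g f).map φ := by
  ext i j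
  simp only [cmMatrix, Matrix.map_apply]
  rw [← Polynomial.map_pow, coeff_map]

theorem det_cmMatrix_map {g : ℕ} {R S : Type*} [CommRing R] [CommRing S] (φ : R →+* S)
    (f : R[X]) : (cmMatrix p g (f.map φ)).det = φ (cmMatrix p g f).det := by
  rw [cmMatrix_map, RingHom.map_det]
  rfl

/-- If the determinant of the Cartier–Manin matrix vanishes, there is a nonzero polynomial of
degree `< g` killed by `q ↦ cop (f^((p-1)/2) q)`. -/
theorem exists_cop_of_det_eq_zero (hodd : Odd p) {g n : ℕ} (hgp : g ≤ p)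
    {R : Type*} [CommRing R] [IsDomain R]
    (f : R[X]) (hf : f.natDegree ≤ n) (hg : n ≤ 2 * g + 2)
    (h : (cmMatrix p g f).det = 0) :
    ∃ q : R[X], q ≠ 0 ∧ q.natDegree < g ∧ cop p (f ^ ((p - 1) / 2) * q) = 0 := by
  have hp : 0 < p := hodd.pos
  rw [← Matrix.exists_mulVec_eq_zero_iff] at h
  obtain ⟨v, hv, hv0⟩ := h
  set q : R[X] := ∑ j : Fin g, C (v j) * X ^ (j : ℕ) with hq
  have hgpos : 0 < g := by
    rcases Nat.eq_zero_or_pos g with h | h
    · subst h
      exact absurd (Subsingleton.elim v 0) hv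
    · exact h
  have hcoeff : ∀ j : Fin g, q.coeff j = v j := by
    intro j
    rw [hq, finsetSum_coeff]
    simp only [coeff_C_mul, coeff_X_pow, mul_ite, mul_one, mul_zero]
    rw [Finset.sum_eq_single j]
    · simp
    · intro b _ hb
      rw [if_neg]
      intro h
      exact hb (Fin.ext h.symm)
    · simp
  have hqdeg : q.natDegree < g := by
    rw [hq]
    apply lt_of_le_of_lt (natDegree_sum_le_of_forall_le (n := g - 1) _ _ _)
    · omega
    · intro j _
      refine (natDegree_C_mul_X_pow_le _ _).trans ?_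
      have := j.2
      omega
  refine ⟨q, ?_, hqdeg, ?_⟩
  · intro h0
    apply hv
    ext j
    rw [← hcoeff, h0, coeff_zero, Pi.zero_apply]
  · rw [cop_eq_zero_iff hp]
    intro i
    obtain ⟨e, he⟩ := hodd
    have he2 : (p - 1) / 2 = e := by omega
    by_cases hi : i < g
    · have h1 := congrFun hv0 ⟨i, hi⟩
      rw [Matrix.mulVec, dotProduct] at h1
      simp only [cmMatrix, Pi.zero_apply] at h1
      rw [← h1, hq, Finset.mul_sum, finsetSum_coeff]
      apply Finset.sum_congr rfl
      intro j _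
      rw [mul_left_comm, coeff_C_mul, coeff_mul_X_pow', mul_comm]
      have hj2 := j.2
      have h3 : p * (i + 1) = p * i + p := by ring
      rw [if_pos (by omega)]
      congr 2
      rw [mul_comm]
      omega
    · apply coeff_eq_zero_of_natDegree_lt
      have h1 : (f ^ ((p - 1) / 2) * q).natDegree ≤ e * n + (g - 1) := by
        refine natDegree_mul_le.trans ?_
        rw [he2]
        have := (natDegree_pow_le (p := f) (n := e)).trans (Nat.mul_le_mul_left e hf)
        omega
      have h2 : e * n ≤ e * (2 * g + 2) := Nat.mul_le_mul_left _ hg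
      have h3 : p * (g + 1) ≤ p * (i + 1) := Nat.mul_le_mul_left _ (by omega)
      have h4 : p * (g + 1) = e * (2 * g + 2) + (g + 1) := by rw [he]; ring
      omega

/-- Conversely, if the determinant does not vanish then `q ↦ cop (f^((p-1)/2) q)` is injective
on polynomials of degree `< g`. -/
theorem eq_zero_of_cop_of_det_ne_zero {g : ℕ} (hp : 0 < p) (hgp : g ≤ p)
    {R : Type*} [CommRing R] [IsDomain R] (f : R[X])
    (h : (cmMatrix p g f).det ≠ 0) {q : R[X]} (hq : q.degree < g)
    (hcop : cop p (f ^ ((p - 1) / 2) * q) = 0) : q = 0 := by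
  by_contra hq0
  apply h
  rw [← Matrix.exists_mulVec_eq_zero_iff]
  refine ⟨fun j => q.coeff j, ?_, ?_⟩
  · intro h0
    apply hq0
    ext m
    rw [coeff_zero]
    by_cases hm : m < g
    · exact congrFun h0 ⟨m, hm⟩
    · apply coeff_eq_zero_of_degree_lt
      exact lt_of_lt_of_le hq (by exact_mod_cast not_lt.1 hm)
  · ext i
    rw [cop_eq_zero_iff hp] at hcop
    rw [Pi.zero_apply, ← hcop i]
    have hqsum : q = ∑ j : Fin g, C (q.coeff j) * X ^ (j : ℕ) := by
      have h1 : q.natDegree < g := by
        rwa [natDegree_lt_iff_degree_lt hq0]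
      conv_lhs => rw [q.as_sum_range' g h1]
      rw [Finset.sum_range]
      apply Finset.sum_congr rfl
      intro j _
      rw [C_mul_X_pow_eq_monomial]
    conv_rhs => rw [hqsum]
    rw [Matrix.mulVec, dotProduct, Finset.mul_sum, finsetSum_coeff]
    apply Finset.sum_congr rfl
    intro j _
    rw [mul_left_comm, coeff_C_mul, coeff_mul_X_pow', mul_comm, cmMatrix]
    have hj2 := j.2
    have h3 : p * (i + 1) = p * i + p := by ring
    rw [if_pos (by omega)]
    congr 2
    rw [mul_comm]
    omega

/-- An exact differential `q dx / y` on `y² = f`, `p` odd, is killed by the operator. -/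
theorem cop_of_exact [Fact p.Prime] {κ : Type*} [Field κ] [CharP κ p] (hp2 : p ≠ 2)
    {f q N D : κ[X]} (hD : D ≠ 0)
    (h : 2 * D ^ 2 * q = 2 * f * (derivative N * D - N * derivative D) + derivative f * N * D) :
    cop p (f ^ ((p - 1) / 2) * q) = 0 := by
  have hprime : p.Prime := Fact.out
  have hp3 : 3 ≤ p := by
    have := hprime.two_le
    omega
  obtain ⟨e, he⟩ : ∃ e, p = 2 * e + 1 := by
    rcases hprime.eq_two_or_odd' with h | h
    · exact absurd h hp2
    · exact h
  have he1 : 1 ≤ e := by omega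
  have h2 : (2 : κ) ≠ 0 := by
    intro h0
    have h3 : ((2 : ℕ) : κ) = 0 := by exact_mod_cast h0
    rw [CharP.cast_eq_zero_iff κ p] at h3
    exact hp2 ((Nat.prime_dvd_prime_iff_eq hprime Nat.prime_two).1 h3)
  have hpe : (p - 1) / 2 = e := by omega
  rw [hpe]
  have hpk : ((p : ℕ) : κ[X]) = 0 := CharP.cast_eq_zero _ p
  have hee : (2 : κ[X]) * ((e : ℕ) : κ[X]) + 1 = 0 := by
    rw [← hpk, he]
    push_cast
    ring
  obtain ⟨d, hd⟩ : ∃ d, p = d + 2 := ⟨p - 2, by omega⟩
  have hdk : ((d : ℕ) : κ[X]) + 2 = 0 := by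
    rw [← hpk, hd]
    push_cast
    ring
  have key : C (2 : κ) * (D ^ p * (f ^ e * q)) = derivative (2 * (N * D ^ (d + 1) * f ^ (e + 1))) := by
    have h2C : (C (2 : κ) : κ[X]) = 2 := map_ofNat (C : κ →+* κ[X]) 2
    have hder2 : derivative (2 : κ[X]) = 0 := by
      rw [← h2C, derivative_C]
    simp only [derivative_mul, hder2, derivative_pow, Nat.add_sub_cancel, zero_mul, zero_add]
    rw [h2C, hd, pow_add D d 2, pow_succ D d, pow_succ f e]
    push_cast
    simp only [C_add, C_1, map_natCast]
    linear_combination (D ^ d * f ^ e) * h - (2 * N * D ^ d * derivative D * f ^ e * f) * hdk -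
      (N * D ^ d * D * f ^ e * derivative f) * hee
  have h3 : cop p (C (2 : κ) * (D ^ p * (f ^ e * q))) = 0 := by
    rw [key, cop_derivative]
  rw [cop_C_mul hprime.pos, cop_pow_mul] at h3
  rcases mul_eq_zero.1 h3 with h4 | h4
  · exact absurd (C_eq_zero.1 h4) h2
  · rcases mul_eq_zero.1 h4 with h5 | h5
    · exfalso
      rw [Polynomial.map_eq_zero_iff (RingHom.injective _)] at h5
      exact hD h5
    · exact h5

end

end MPadc574
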