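import Mathlib
import Pool.Agent.Lib.MP_adc574_ag.CharSum
import Pool.Agent.Lib.MP_adc574_ag.PieceW

/-! # The base cases for exponent three -/

namespace MPadc574

open Polynomial

noncomputable section

variable {p : ℕ} [Fact p.Prime]

theorem choose_cast_ne_zero {κ : Type*} [Field κ] [CharP κ p] {N k : ℕ} (hN : N < p)
    (hk : k ≤ N) : ((N.choose k : ℕ) : κ) ≠ 0 := by
  intro h
  rw [CharP.cast_eq_zero_iff κ p] at h
  have h1 : p ∣ N.factorial := by
    rw [← Nat.choose_mul_factorial_mul_factorial hk, mul_assoc]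
    exact h.mul_right _
  have h2 := ((Fact.out : p.Prime).dvd_factorial).1 h1
  omega

/-- Two distinct points. -/
theorem two_points {κ : Type*} [Field κ] [CharP κ p] {m e W1 W2 : ℕ} (hme : m * e + 1 = p)
    (h1 : W1 < m) (h2 : W2 < m) (h12 : m ≤ W1 + W2) {c1 c2 : κ} (hc : c1 ≠ c2) (α : κ)
    (hα : α ≠ 0) :
    cop p ((X - C c1) ^ (W1 * e) * (X - C c2) ^ (W2 * e) * C α) ≠ 0 := by
  have hp : 0 < p := (Fact.out : p.Prime).pos
  intro h
  have h3 := cop_comp_eq_zero h c1 1 one_ne_zero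
  have h4 : ((X - C c1) ^ (W1 * e) * (X - C c2) ^ (W2 * e) * C α).comp (C c1 + C 1 * X) =
      C α * (X ^ (W1 * e) * (X + C (c1 - c2)) ^ (W2 * e)) := by
    simp only [mul_comp, pow_comp, sub_comp, X_comp, C_comp, C_1, one_mul, C_sub]
    ring
  rw [h4, cop_C_mul hp, mul_eq_zero] at h3
  rcases h3 with h3 | h3
  · exact hα (C_eq_zero.1 h3)
  · rw [cop_eq_zero_iff hp] at h3
    have h5 := h3 0
    have hW1 : W1 * e ≤ m * e := Nat.mul_le_mul_right _ h1.le
    have hW2 : W2 * e ≤ m * e := Nat.mul_le_mul_right _ h2.le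
    have hW12 : m * e ≤ W1 * e + W2 * e := by
      rw [← add_mul]
      exact Nat.mul_le_mul_right _ h12
    rw [zero_add, mul_one, coeff_X_pow_mul', if_pos (by omega), coeff_X_add_C_pow, mul_eq_zero]
      at h5
    rcases h5 with h5 | h5
    · exact pow_ne_zero _ (sub_ne_zero.2 hc) h5
    · exact choose_cast_ne_zero (by omega) (by omega) h5

/-- The counting argument. -/
theorem three_sum (hp3 : p ≠ 3) (T : Finset (ZMod p)) (hT : T.card + 3 = p)
    (ω σ : ZMod p → ZMod p) (hω : ∀ x ∈ T, ω x ^ 3 = 1) (hσ : ∀ x ∈ T, σ x ∈ T)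
    (hσσ : ∀ x ∈ T, σ (σ x) = x) (c : ZMod p) (hc0 : c ≠ 0)
    (hc : ∀ x ∈ T, ω (σ x) = c * ω x ^ 2) : ∑ x ∈ T, ω x ≠ 0 := by
  classical
  intro h0
  have h1 : ∑ x ∈ T, ω (σ x) = ∑ x ∈ T, ω x := by
    apply Finset.sum_nbij' σ σ hσ hσ hσσ hσσ
    intro x _
    rfl
  have h2 : ∑ x ∈ T, ω x ^ 2 = 0 := by
    rw [h0, Finset.sum_congr rfl hc, ← Finset.mul_sum] at h1
    rcases mul_eq_zero.1 h1 with h | h
    · exact absurd h hc0
    · exact h
  have h3 : ∀ x ∈ T, 1 + ω x + ω x ^ 2 = if ω x = 1 then 3 else 0 := by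
    intro x hx
    split_ifs with h
    · rw [h]
      norm_num
    · have h4 : (ω x - 1) * (1 + ω x + ω x ^ 2) = 0 := by
        linear_combination hω x hx
      rcases mul_eq_zero.1 h4 with h5 | h5
      · exact absurd (sub_eq_zero.1 h5) h
      · exact h5
  have h4 : ∑ x ∈ T, (1 + ω x + ω x ^ 2) = (T.card : ZMod p) := by
    rw [Finset.sum_add_distrib, Finset.sum_add_distrib, h0, h2, Finset.sum_const]
    simp
  rw [Finset.sum_congr rfl h3, ← Finset.sum_filter, Finset.sum_const, nsmul_eq_mul] at h4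
  set n0 := (T.filter (fun x => ω x = 1)).card with hn0
  have h5 : ((T.card : ℕ) : ZMod p) = -3 := by
    have : ((T.card + 3 : ℕ) : ZMod p) = 0 := by
      rw [hT]
      exact CharP.cast_eq_zero (ZMod p) p
    push_cast at this
    linear_combination this
  rw [h5] at h4
  have h33 : (3 : ZMod p) ≠ 0 := by
    intro h
    have h6 : ((3 : ℕ) : ZMod p) = 0 := by exact_mod_cast h
    rw [CharP.cast_eq_zero_iff (ZMod p) p] at h6
    exact hp3 ((Nat.prime_dvd_prime_iff_eq (Fact.out : p.Prime) Nat.prime_three).1 h6)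
  have h6 : ((n0 + 1 : ℕ) : ZMod p) = 0 := by
    push_cast
    have h7 : (3 : ZMod p) * ((n0 : ZMod p) + 1) = 0 := by linear_combination h4
    rcases mul_eq_zero.1 h7 with h8 | h8
    · exact absurd h8 h33
    · exact h8
  rw [CharP.cast_eq_zero_iff (ZMod p) p] at h6
  have h7 := Nat.le_of_dvd (by omega) h6
  have h8 : n0 ≤ T.card := Finset.card_filter_le _ _
  omega

/-- The general involution. -/
theorem invol_facts {a b c : ZMod p} (hab : a ≠ b) (hbc : b ≠ c) {x : ZMod p}
    (hxa : x ≠ a) (hxb : x ≠ b) (hxc : x ≠ c) :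
    (b + (a - b) * (c - b) / (x - b) ≠ a) ∧ (b + (a - b) * (c - b) / (x - b) ≠ b) ∧
    (b + (a - b) * (c - b) / (x - b) ≠ c) ∧
    b + (a - b) * (c - b) / (b + (a - b) * (c - b) / (x - b) - b) = x := by
  have h1 : a - b ≠ 0 := sub_ne_zero.2 hab
  have h2 : c - b ≠ 0 := sub_ne_zero.2 hbc.symm
  have h3 : x - b ≠ 0 := sub_ne_zero.2 hxb
  refine ⟨?_, ?_, ?_, ?_⟩
  · intro h
    have h4 : (a - b) * (c - x) = 0 := by
      field_simp at h
      linear_combination h
    rcases mul_eq_zero.1 h4 with h5 | h5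
    · exact h1 h5
    · exact hxc (sub_eq_zero.1 h5).symm
  · intro h
    have h4 : (a - b) * (c - b) / (x - b) = 0 := by linear_combination h
    exact div_ne_zero (mul_ne_zero h1 h2) h3 h4
  · intro h
    have h4 : (c - b) * (a - x) = 0 := by
      field_simp at h
      linear_combination h
    rcases mul_eq_zero.1 h4 with h5 | h5
    · exact h2 h5
    · exact hxa (sub_eq_zero.1 h5).symm
  · field_simp
    ring

theorem pow_three_e {e : ℕ} (he : 3 * e + 1 = p) {y : ZMod p} (hy : y ≠ 0) : y ^ (3 * e) = 1 := by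
  have h : 3 * e = p - 1 := by omega
  rw [h]
  exact ZMod.pow_card_sub_one_eq_one hy

theorem card_compl_three {a b c : ZMod p} (hab : a ≠ b) (hac : a ≠ c) (hbc : b ≠ c) :
    (Finset.univ \ {a, b, c} : Finset (ZMod p)).card + 3 = p := by
  classical
  have h2 : ({a, b, c} : Finset (ZMod p)).card = 3 := by
    rw [Finset.card_eq_three]
    exact ⟨a, b, c, hab, hac, hbc, rfl⟩
  have h3 : ({a, b, c} : Finset (ZMod p)).card ≤ (Finset.univ : Finset (ZMod p)).card :=
    Finset.card_le_card (Finset.subset_univ _)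
  rw [Finset.card_sdiff_of_subset (Finset.subset_univ _), h2, Finset.card_univ, ZMod.card]
  rw [h2, Finset.card_univ, ZMod.card] at h3
  omega

/-- weights `(1, 1, 2)` -/
theorem sum_112_ne_zero {e : ℕ} (he : 3 * e + 1 = p) (he0 : 0 < e) {a b c : ZMod p} (hab : a ≠ b)
    (hac : a ≠ c) (hbc : b ≠ c) :
    ∑ x : ZMod p, ((x - a) * (x - b) * (x - c) ^ 2) ^ e ≠ 0 := by
  classical
  set T : Finset (ZMod p) := Finset.univ \ {a, b, c} with hT
  have hmem : ∀ x, x ∈ T ↔ x ≠ a ∧ x ≠ b ∧ x ≠ c := by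
    intro x
    rw [hT]
    simp
  have hsum : ∑ x : ZMod p, ((x - a) * (x - b) * (x - c) ^ 2) ^ e =
      ∑ x ∈ T, ((x - a) * (x - b) * (x - c) ^ 2) ^ e := by
    symm
    apply Finset.sum_subset (Finset.subset_univ _)
    intro x _ hx
    rw [hmem] at hx
    have h1 : x = a ∨ x = b ∨ x = c := by tauto
    rcases h1 with rfl | rfl | rfl <;> simp [he0.ne']
  rw [hsum]
  have h1 : a - b ≠ 0 := sub_ne_zero.2 hab
  have h2 : c - b ≠ 0 := sub_ne_zero.2 hbc.symm
  have h1' : b - a ≠ 0 := sub_ne_zero.2 hab.symm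
  have h2' : b - c ≠ 0 := sub_ne_zero.2 hbc
  apply three_sum (by omega) T (card_compl_three hab hac hbc)
    (fun x => ((x - a) * (x - b) * (x - c) ^ 2) ^ e)
    (fun x => b + (a - b) * (c - b) / (x - b))
    ?_ ?_ ?_ (((b - a) * ((a - b) * (c - b)) * (b - c) ^ 2) ^ e) ?_ ?_
  · intro x hx
    rw [hmem] at hx
    rw [← pow_mul, mul_comm e 3]
    apply pow_three_e he
    exact mul_ne_zero (mul_ne_zero (sub_ne_zero.2 hx.1) (sub_ne_zero.2 hx.2.1))
      (pow_ne_zero _ (sub_ne_zero.2 hx.2.2))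
  · intro x hx
    rw [hmem] at hx ⊢
    obtain ⟨h3, h4, h5, -⟩ := invol_facts hab hbc hx.1 hx.2.1 hx.2.2
    exact ⟨h3, h4, h5⟩
  · intro x hx
    rw [hmem] at hx
    exact (invol_facts hab hbc hx.1 hx.2.1 hx.2.2).2.2.2
  · exact pow_ne_zero _ (mul_ne_zero (mul_ne_zero h1' (mul_ne_zero h1 h2)) (pow_ne_zero _ h2'))
  · intro x hx
    rw [hmem] at hx
    have h3 : x - b ≠ 0 := sub_ne_zero.2 hx.2.1
    have h4 : x - c ≠ 0 := sub_ne_zero.2 hx.2.2
    have key : ((b + (a - b) * (c - b) / (x - b) - a) * (b + (a - b) * (c - b) / (x - b) - b) *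
        (b + (a - b) * (c - b) / (x - b) - c) ^ 2) * ((x - b) ^ 6 * (x - c) ^ 3) =
        ((b - a) * ((a - b) * (c - b)) * (b - c) ^ 2) *
          ((x - a) * (x - b) * (x - c) ^ 2) ^ 2 := by
      field_simp
      ring
    have key2 := congrArg (fun z => z ^ e) key
    have h5 : ((x - b) ^ 6 * (x - c) ^ 3) ^ e = 1 := by
      have e1 : ((x - b) ^ 6 * (x - c) ^ 3) ^ e = ((x - b) ^ (3 * e)) ^ 2 * (x - c) ^ (3 * e) := by
        rw [mul_pow, ← pow_mul, ← pow_mul, ← pow_mul, show 6 * e = 3 * e * 2 by ring]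
      rw [e1, pow_three_e he h3, pow_three_e he h4]
      ring
    rw [mul_pow _ ((x - b) ^ 6 * (x - c) ^ 3) e, h5, mul_one] at key2
    rw [key2, mul_pow, ← pow_mul, mul_comm 2 e, pow_mul]

/-- weights `(1, 2, 2)` -/
theorem sum_122_ne_zero {e : ℕ} (he : 3 * e + 1 = p) (he0 : 0 < e) {a b c : ZMod p} (hab : a ≠ b)
    (hac : a ≠ c) (hbc : b ≠ c) :
    ∑ x : ZMod p, ((x - a) * (x - b) ^ 2 * (x - c) ^ 2) ^ e ≠ 0 := by
  classical
  set T : Finset (ZMod p) := Finset.univ \ {a, c, b} with hT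
  have hmem : ∀ x, x ∈ T ↔ x ≠ a ∧ x ≠ c ∧ x ≠ b := by
    intro x
    rw [hT]
    simp
  have hsum : ∑ x : ZMod p, ((x - a) * (x - b) ^ 2 * (x - c) ^ 2) ^ e =
      ∑ x ∈ T, ((x - a) * (x - b) ^ 2 * (x - c) ^ 2) ^ e := by
    symm
    apply Finset.sum_subset (Finset.subset_univ _)
    intro x _ hx
    rw [hmem] at hx
    have h1 : x = a ∨ x = b ∨ x = c := by tauto
    rcases h1 with rfl | rfl | rfl <;> simp [he0.ne']
  rw [hsum]
  have h1 : a - c ≠ 0 := sub_ne_zero.2 hac
  have h2 : b - c ≠ 0 := sub_ne_zero.2 hbc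
  have h1' : c - a ≠ 0 := sub_ne_zero.2 hac.symm
  have h2' : c - b ≠ 0 := sub_ne_zero.2 hbc.symm
  apply three_sum (by omega) T (card_compl_three hac hab hbc.symm)
    (fun x => ((x - a) * (x - b) ^ 2 * (x - c) ^ 2) ^ e)
    (fun x => c + (a - c) * (b - c) / (x - c))
    ?_ ?_ ?_ (((c - a) * (c - b) ^ 2 * ((a - c) * (b - c)) ^ 2) ^ e) ?_ ?_
  · intro x hx
    rw [hmem] at hx
    rw [← pow_mul, mul_comm e 3]
    apply pow_three_e he
    exact mul_ne_zero (mul_ne_zero (sub_ne_zero.2 hx.1) (pow_ne_zero _ (sub_ne_zero.2 hx.2.2)))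
      (pow_ne_zero _ (sub_ne_zero.2 hx.2.1))
  · intro x hx
    rw [hmem] at hx ⊢
    obtain ⟨h3, h4, h5, -⟩ := invol_facts hac hbc.symm hx.1 hx.2.1 hx.2.2
    exact ⟨h3, h4, h5⟩
  · intro x hx
    rw [hmem] at hx
    exact (invol_facts hac hbc.symm hx.1 hx.2.1 hx.2.2).2.2.2
  · exact pow_ne_zero _ (mul_ne_zero (mul_ne_zero h1' (pow_ne_zero _ h2'))
      (pow_ne_zero _ (mul_ne_zero h1 h2)))
  · intro x hx
    rw [hmem] at hx
    have h3 : x - b ≠ 0 := sub_ne_zero.2 hx.2.2
    have h4 : x - c ≠ 0 := sub_ne_zero.2 hx.2.1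
    have key : ((c + (a - c) * (b - c) / (x - c) - a) * (c + (a - c) * (b - c) / (x - c) - b) ^ 2 *
        (c + (a - c) * (b - c) / (x - c) - c) ^ 2) * ((x - c) ^ 9 * (x - b) ^ 3) =
        ((c - a) * (c - b) ^ 2 * ((a - c) * (b - c)) ^ 2) *
          ((x - a) * (x - b) ^ 2 * (x - c) ^ 2) ^ 2 := by
      field_simp
      ring
    have key2 := congrArg (fun z => z ^ e) key
    have h5 : ((x - c) ^ 9 * (x - b) ^ 3) ^ e = 1 := by
      have e1 : ((x - c) ^ 9 * (x - b) ^ 3) ^ e = ((x - c) ^ (3 * e)) ^ 3 * (x - b) ^ (3 * e) := by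
        rw [mul_pow, ← pow_mul, ← pow_mul, ← pow_mul, show 9 * e = 3 * e * 3 by ring]
      rw [e1, pow_three_e he h3, pow_three_e he h4]
      ring
    rw [mul_pow _ ((x - c) ^ 9 * (x - b) ^ 3) e, h5, mul_one] at key2
    rw [key2, mul_pow, ← pow_mul, mul_comm 2 e, pow_mul]

theorem coeff_112_ne_zero {e : ℕ} (he : 3 * e + 1 = p) (he0 : 0 < e) {a b c : ZMod p}
    (hab : a ≠ b) (hac : a ≠ c) (hbc : b ≠ c) :
    ((X - C a) ^ (1 * e) * (X - C b) ^ (1 * e) * (X - C c) ^ (2 * e) : (ZMod p)[X]).coeff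
      (p - 1) ≠ 0 := by
  intro h0
  set P : (ZMod p)[X] := (X - C a) ^ (1 * e) * (X - C b) ^ (1 * e) * (X - C c) ^ (2 * e) with hP
  have hdeg : P.natDegree < 2 * (p - 1) := by
    have h1 : P.natDegree ≤ 1 * e + 1 * e + 2 * e := by
      rw [hP]
      refine natDegree_mul_le.trans ?_
      refine add_le_add (natDegree_mul_le.trans (add_le_add ?_ ?_)) ?_ <;>
      · refine natDegree_pow_le.trans ?_
        rw [natDegree_X_sub_C, mul_one]
    omega
  have h1 := sum_eval_zmod P hdeg.le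
  rw [h0, coeff_eq_zero_of_natDegree_lt hdeg, add_zero, neg_zero] at h1
  apply sum_112_ne_zero he he0 hab hac hbc
  rw [← h1]
  apply Finset.sum_congr rfl
  intro x _
  rw [hP]
  simp only [eval_mul, eval_pow, eval_sub, eval_X, eval_C]
  simp only [mul_pow, ← pow_mul, one_mul]

theorem coeff_122_ne_zero {e : ℕ} (he : 3 * e + 1 = p) (he0 : 0 < e) {a b c : ZMod p}
    (hab : a ≠ b) (hac : a ≠ c) (hbc : b ≠ c) :
    ((X - C a) ^ (1 * e) * (X - C b) ^ (2 * e) * (X - C c) ^ (2 * e) : (ZMod p)[X]).coeff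
      (p - 1) ≠ 0 := by
  intro h0
  set P : (ZMod p)[X] := (X - C a) ^ (1 * e) * (X - C b) ^ (2 * e) * (X - C c) ^ (2 * e) with hP
  have hdeg : P.natDegree < 2 * (p - 1) := by
    have h1 : P.natDegree ≤ 1 * e + 2 * e + 2 * e := by
      rw [hP]
      refine natDegree_mul_le.trans ?_
      refine add_le_add (natDegree_mul_le.trans (add_le_add ?_ ?_)) ?_ <;>
      · refine natDegree_pow_le.trans ?_
        rw [natDegree_X_sub_C, mul_one]
    omega
  have h1 := sum_eval_zmod P hdeg.le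
  rw [h0, coeff_eq_zero_of_natDegree_lt hdeg, add_zero, neg_zero] at h1
  apply sum_122_ne_zero he he0 hab hac hbc
  rw [← h1]
  apply Finset.sum_congr rfl
  intro x _
  rw [hP]
  simp only [eval_mul, eval_pow, eval_sub, eval_X, eval_C]
  simp only [mul_pow, ← pow_mul, one_mul]

theorem coeff_222_ne_zero {e : ℕ} (he : 3 * e + 1 = p) (he0 : 0 < e) {a b c : ZMod p}
    (hab : a ≠ b) (hac : a ≠ c) (hbc : b ≠ c) :
    ((X - C a) ^ (2 * e) * (X - C b) ^ (2 * e) * (X - C c) ^ (2 * e) : (ZMod p)[X]).coeff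
      (p - 1) ≠ 0 := by
  classical
  intro h0
  have hp : 0 < p := (Fact.out : p.Prime).pos
  have h1' : a - b ≠ 0 := sub_ne_zero.2 hab
  have h2' : a - c ≠ 0 := sub_ne_zero.2 hac
  set P : (ZMod p)[X] := (X - C a) ^ (2 * e) * (X - C b) ^ (2 * e) * (X - C c) ^ (2 * e) with hP
  have hmonic : P.Monic := by
    rw [hP]
    exact (((monic_X_sub_C a).pow _).mul ((monic_X_sub_C b).pow _)).mul ((monic_X_sub_C c).pow _)
  have hdeg : P.natDegree = 2 * (p - 1) := by
    rw [hP, natDegree_mul (by simp [X_sub_C_ne_zero]) (by simp [X_sub_C_ne_zero]),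
      natDegree_mul (by simp [X_sub_C_ne_zero]) (by simp [X_sub_C_ne_zero]), natDegree_pow,
      natDegree_pow, natDegree_pow, natDegree_X_sub_C, natDegree_X_sub_C, natDegree_X_sub_C]
    omega
  have hlead : P.coeff (2 * (p - 1)) = 1 := by
    rw [← hdeg]
    exact hmonic.coeff_natDegree
  have h1 := sum_eval_zmod P hdeg.le
  rw [h0, hlead, zero_add] at h1
  -- the other side
  set R : (ZMod p)[X] := (1 + C (a - b) * X) ^ (2 * e) * (1 + C (a - c) * X) ^ (2 * e) with hR
  have hRdeg : R.natDegree < 2 * (p - 1) := by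
    have h2 : R.natDegree ≤ 2 * e * 1 + 2 * e * 1 := by
      rw [hR]
      refine natDegree_mul_le.trans (add_le_add ?_ ?_)
      · refine natDegree_pow_le.trans (Nat.mul_le_mul_left _ ?_)
        compute_degree
      · refine natDegree_pow_le.trans (Nat.mul_le_mul_left _ ?_)
        compute_degree
    omega
  have h2 := sum_eval_zmod R hRdeg.le
  rw [coeff_eq_zero_of_natDegree_lt hRdeg, add_zero] at h2
  have h3 : ∑ x : ZMod p, P.eval x = ∑ y : ZMod p, (R.eval y - if y = 0 then 1 else 0) := by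
    rw [← Equiv.sum_comp (Equiv.inv (ZMod p)) (fun y => (R.eval y - if y = 0 then 1 else 0)),
      ← Equiv.sum_comp (Equiv.addLeft a) (fun x => P.eval x)]
    apply Finset.sum_congr rfl
    intro y _
    simp only [Equiv.coe_addLeft, Equiv.inv_apply]
    by_cases hy : y = 0
    · subst hy
      rw [hP, hR]
      simp [he0.ne']
    · rw [if_neg (inv_ne_zero hy), sub_zero, hP, hR]
      simp only [eval_mul, eval_pow, eval_sub, eval_X, eval_C, eval_add, eval_one]
      have e1 : (a + y - a) ^ (2 * e) * (a + y - b) ^ (2 * e) * (a + y - c) ^ (2 * e) =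
          ((1 + (a - b) * y⁻¹) * (1 + (a - c) * y⁻¹) * y ^ 3) ^ (2 * e) := by
        rw [← mul_pow, ← mul_pow]
        congr 1
        field_simp
        ring
      have e2 : (y ^ 3) ^ (2 * e) = 1 := by
        have : (y ^ 3) ^ (2 * e) = (y ^ (3 * e)) ^ 2 := by ring
        rw [this, pow_three_e he hy, one_pow]
      rw [e1, mul_pow, mul_pow, e2, mul_one]
  rw [h3, Finset.sum_sub_distrib, h2, Finset.sum_ite_eq', if_pos (Finset.mem_univ _)] at h1
  have h4 : R.coeff (p - 1) = 0 := by linear_combination -h1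
  have hne : -(a - b)⁻¹ ≠ -(a - c)⁻¹ := by
    intro h
    rw [neg_inj, inv_inj] at h
    exact hbc (by linear_combination -h)
  have h5 := two_points (κ := ZMod p) (m := 3) (e := e) (W1 := 2) (W2 := 2) he (by norm_num)
    (by norm_num) (by norm_num) hne (((a - b) * (a - c)) ^ (2 * e))
    (pow_ne_zero _ (mul_ne_zero h1' h2'))
  apply h5
  rw [cop_eq_zero_iff hp]
  have hReq : (X - C (-(a - b)⁻¹)) ^ (2 * e) * (X - C (-(a - c)⁻¹)) ^ (2 * e) *
      C (((a - b) * (a - c)) ^ (2 * e)) = R := by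
    rw [hR, C_pow, C_mul, ← mul_pow, ← mul_pow, ← mul_pow]
    congr 1
    have e3 : C (a - b) * C (-(a - b)⁻¹) = (-1 : (ZMod p)[X]) := by
      rw [← C_mul, mul_neg, mul_inv_cancel₀ h1', C_neg, C_1]
    have e4 : C (a - c) * C (-(a - c)⁻¹) = (-1 : (ZMod p)[X]) := by
      rw [← C_mul, mul_neg, mul_inv_cancel₀ h2', C_neg, C_1]
    linear_combination (-C (a - c) * X) * e3 - (C (a - b) * X) * e4 +
      (C (a - c) * C (-(a - c)⁻¹)) * e3 - e4
  rw [hReq]
  intro i
  rcases Nat.eq_zero_or_pos i with rfl | hi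
  · rw [zero_add, mul_one]
    exact h4
  · apply coeff_eq_zero_of_natDegree_lt
    have h6 : p * 2 ≤ p * (i + 1) := Nat.mul_le_mul_left _ (by omega)
    omega

section kappa

variable {κ : Type*} [Field κ] [CharP κ p]

theorem cop_const_ne_zero {P : (ZMod p)[X]} (h : P.coeff (p - 1) ≠ 0) {α : κ} (hα : α ≠ 0) :
    cop p (P.map (ZMod.castHom dvd_rfl κ) * C α) ≠ 0 := by
  have hp : 0 < p := (Fact.out : p.Prime).pos
  intro h0
  rw [mul_comm, cop_C_mul hp, mul_eq_zero] at h0
  rcases h0 with h0 | h0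
  · exact hα (C_eq_zero.1 h0)
  · rw [cop_eq_zero_iff hp] at h0
    have h1 := h0 0
    rw [zero_add, mul_one, coeff_map] at h1
    apply h
    apply (ZMod.castHom dvd_rfl κ).injective
    rw [h1, map_zero]

theorem base3 {e : ℕ} (he : 3 * e + 1 = p) (he0 : 0 < e) : BasePiece p 3 e 3 κ := by
  classical
  have hp : 0 < p := (Fact.out : p.Prime).pos
  intro s W q hcard hs hW hq hdeg hcop
  have hz : ∀ c ∈ s, ∃ z : ZMod p, ZMod.castHom dvd_rfl κ z = c := by
    intro c hc
    obtain ⟨n, rfl⟩ := hs c hc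
    exact ⟨(n : ZMod p), map_natCast _ n⟩
  have hconst : q.natDegree = 0 → ∃ α : κ, α ≠ 0 ∧ q = C α := by
    intro h
    refine ⟨q.coeff 0, ?_, eq_C_of_natDegree_eq_zero h⟩
    intro h0
    apply hq
    rw [eq_C_of_natDegree_eq_zero h, h0, C_0]
  have hcases : s.card = 0 ∨ s.card = 1 ∨ s.card = 2 ∨ s.card = 3 := by omega
  rcases hcases with h | h | h | h
  · rw [Finset.card_eq_zero] at h
    subst h
    simp at hdeg
  · obtain ⟨x, rfl⟩ := Finset.card_eq_one.1 h
    have h1 := hW x (by simp)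
    rw [Finset.sum_singleton] at hdeg
    omega
  · obtain ⟨x, y, hxy, rfl⟩ := Finset.card_eq_two.1 h
    have h1 := hW x (by simp)
    have h2 := hW y (by simp)
    rw [Finset.sum_pair hxy] at hdeg
    obtain ⟨α, hα, rfl⟩ := hconst (by omega)
    unfold wpoly at hcop
    rw [Finset.prod_pair hxy] at hcop
    exact two_points he h1.2 h2.2 (by omega) hxy α hα hcop
  · obtain ⟨x, y, z, hxy, hxz, hyz, rfl⟩ := Finset.card_eq_three.1 h
    have h1 := hW x (by simp)
    have h2 := hW y (by simp)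
    have h3 := hW z (by simp)
    obtain ⟨x, rfl⟩ := hz x (by simp)
    obtain ⟨y, rfl⟩ := hz y (by simp)
    obtain ⟨z, rfl⟩ := hz z (by simp)
    have hsum : ∀ f : κ → ℕ, ∑ c ∈ ({ZMod.castHom dvd_rfl κ x, ZMod.castHom dvd_rfl κ y,
        ZMod.castHom dvd_rfl κ z} : Finset κ), f c = f (ZMod.castHom dvd_rfl κ x) +
          f (ZMod.castHom dvd_rfl κ y) + f (ZMod.castHom dvd_rfl κ z) := by
      intro f
      rw [Finset.sum_insert (by simp only [Finset.mem_insert, Finset.mem_singleton, not_or]; exact ⟨hxy, hxz⟩),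
        Finset.sum_pair hyz, add_assoc]
    have hprod : ∀ f : κ → κ[X], ∏ c ∈ ({ZMod.castHom dvd_rfl κ x, ZMod.castHom dvd_rfl κ y,
        ZMod.castHom dvd_rfl κ z} : Finset κ), f c = f (ZMod.castHom dvd_rfl κ x) *
          f (ZMod.castHom dvd_rfl κ y) * f (ZMod.castHom dvd_rfl κ z) := by
      intro f
      rw [Finset.prod_insert (by simp only [Finset.mem_insert, Finset.mem_singleton, not_or]; exact ⟨hxy, hxz⟩),
        Finset.prod_pair hyz, mul_assoc]
    rw [hsum] at hdeg
    unfold wpoly at hcop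
    rw [hprod] at hcop
    simp only [id] at hcop
    have hxy' : x ≠ y := fun h => hxy (by rw [h])
    have hxz' : x ≠ z := fun h => hxz (by rw [h])
    have hyz' : y ≠ z := fun h => hyz (by rw [h])
    have a1 : W (ZMod.castHom dvd_rfl κ x) = 1 ∨ W (ZMod.castHom dvd_rfl κ x) = 2 := by omega
    have a2 : W (ZMod.castHom dvd_rfl κ y) = 1 ∨ W (ZMod.castHom dvd_rfl κ y) = 2 := by omega
    have a3 : W (ZMod.castHom dvd_rfl κ z) = 1 ∨ W (ZMod.castHom dvd_rfl κ z) = 2 := by omega
    by_cases h222 : W (ZMod.castHom dvd_rfl κ x) = 2 ∧ W (ZMod.castHom dvd_rfl κ y) = 2 ∧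
        W (ZMod.castHom dvd_rfl κ z) = 2
    · obtain ⟨b1, b2, b3⟩ := h222
      rw [b1, b2, b3] at hcop hdeg
      set P : (ZMod p)[X] := (X - C x) ^ (2 * e) * (X - C y) ^ (2 * e) * (X - C z) ^ (2 * e)
        with hP
      have hPmap : P.map (ZMod.castHom dvd_rfl κ) =
          (X - C (ZMod.castHom dvd_rfl κ x)) ^ (2 * e) *
          (X - C (ZMod.castHom dvd_rfl κ y)) ^ (2 * e) *
          (X - C (ZMod.castHom dvd_rfl κ z)) ^ (2 * e) := by
        rw [hP]
        simp only [Polynomial.map_pow, Polynomial.map_mul, Polynomial.map_sub, map_X, map_C]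
      have hq0 : q.natDegree = 0 := by
        by_contra hcon
        have hq1 : q.natDegree = 1 := by omega
        set F : κ[X] := (X - C (ZMod.castHom dvd_rfl κ x)) ^ (2 * e) *
          (X - C (ZMod.castHom dvd_rfl κ y)) ^ (2 * e) *
          (X - C (ZMod.castHom dvd_rfl κ z)) ^ (2 * e) with hF
        have hm : F.Monic := (((monic_X_sub_C _).pow _).mul ((monic_X_sub_C _).pow _)).mul
          ((monic_X_sub_C _).pow _)
        have hd : F.natDegree = 2 * (p - 1) := by
          rw [hF, natDegree_mul (by simp [X_sub_C_ne_zero]) (by simp [X_sub_C_ne_zero]),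
            natDegree_mul (by simp [X_sub_C_ne_zero]) (by simp [X_sub_C_ne_zero]), natDegree_pow,
            natDegree_pow, natDegree_pow, natDegree_X_sub_C, natDegree_X_sub_C, natDegree_X_sub_C]
          omega
        rw [cop_eq_zero_iff hp] at hcop
        have h1 := hcop 1
        have h2 : p * (1 + 1) - 1 = F.natDegree + q.natDegree := by
          rw [hd, hq1]
          omega
        rw [h2, coeff_mul_degree_add_degree, hm.leadingCoeff, one_mul, leadingCoeff_eq_zero] at h1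
        exact hq h1
      obtain ⟨α, hα, rfl⟩ := hconst hq0
      rw [← hPmap] at hcop
      exact cop_const_ne_zero (coeff_222_ne_zero he he0 hxy' hxz' hyz') hα hcop
    · obtain ⟨α, hα, rfl⟩ := hconst (by omega)
      have go : ∀ P : (ZMod p)[X], P.coeff (p - 1) ≠ 0 →
          P.map (ZMod.castHom dvd_rfl κ) =
            (X - C (ZMod.castHom dvd_rfl κ x)) ^ (W (ZMod.castHom dvd_rfl κ x) * e) *
            (X - C (ZMod.castHom dvd_rfl κ y)) ^ (W (ZMod.castHom dvd_rfl κ y) * e) *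
            (X - C (ZMod.castHom dvd_rfl κ z)) ^ (W (ZMod.castHom dvd_rfl κ z) * e) → False := by
        intro P hP hPmap
        rw [← hPmap] at hcop
        exact cop_const_ne_zero hP hα hcop
      rcases a1 with b1 | b1 <;> rcases a2 with b2 | b2 <;> rcases a3 with b3 | b3
      · -- 111
        refine go ((X - C x) ^ (1 * e) * (X - C y) ^ (1 * e) * (X - C z) ^ (1 * e)) ?_ ?_
        · have hm : ((X - C x) ^ (1 * e) * (X - C y) ^ (1 * e) * (X - C z) ^ (1 * e) :
              (ZMod p)[X]).Monic := (((monic_X_sub_C _).pow _).mul ((monic_X_sub_C _).pow _)).mul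
            ((monic_X_sub_C _).pow _)
          have hd : ((X - C x) ^ (1 * e) * (X - C y) ^ (1 * e) * (X - C z) ^ (1 * e) :
              (ZMod p)[X]).natDegree = p - 1 := by
            rw [natDegree_mul (by simp [X_sub_C_ne_zero]) (by simp [X_sub_C_ne_zero]),
              natDegree_mul (by simp [X_sub_C_ne_zero]) (by simp [X_sub_C_ne_zero]), natDegree_pow,
              natDegree_pow, natDegree_pow, natDegree_X_sub_C, natDegree_X_sub_C,
              natDegree_X_sub_C]
            omega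
          have h4 := hm.coeff_natDegree
          rw [hd] at h4
          rw [h4]
          exact one_ne_zero
        · rw [b1, b2, b3]
          simp only [Polynomial.map_pow, Polynomial.map_mul, Polynomial.map_sub, map_X, map_C]
      · -- 112
        refine go _ (coeff_112_ne_zero he he0 hxy' hxz' hyz') ?_
        rw [b1, b2, b3]
        simp only [Polynomial.map_pow, Polynomial.map_mul, Polynomial.map_sub, map_X, map_C]
      · -- 121
        refine go _ (coeff_112_ne_zero he he0 hxz' hxy' hyz'.symm) ?_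
        rw [b1, b2, b3]
        simp only [Polynomial.map_pow, Polynomial.map_mul, Polynomial.map_sub, map_X, map_C]
        ring
      · -- 122
        refine go _ (coeff_122_ne_zero he he0 hxy' hxz' hyz') ?_
        rw [b1, b2, b3]
        simp only [Polynomial.map_pow, Polynomial.map_mul, Polynomial.map_sub, map_X, map_C]
      · -- 211
        refine go _ (coeff_112_ne_zero he he0 hyz' hxy'.symm hxz'.symm) ?_
        rw [b1, b2, b3]
        simp only [Polynomial.map_pow, Polynomial.map_mul, Polynomial.map_sub, map_X, map_C]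
        ring
      · -- 212
        refine go _ (coeff_122_ne_zero he he0 hxy'.symm hyz' hxz') ?_
        rw [b1, b2, b3]
        simp only [Polynomial.map_pow, Polynomial.map_mul, Polynomial.map_sub, map_X, map_C]
        ring
      · -- 221
        refine go _ (coeff_122_ne_zero he he0 hxz'.symm hyz'.symm hxy') ?_
        rw [b1, b2, b3]
        simp only [Polynomial.map_pow, Polynomial.map_mul, Polynomial.map_sub, map_X, map_C]
        ring
      · exact absurd ⟨b1, b2, b3⟩ h222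

end kappa

end

end MPadc574
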