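import Mathlib
import Pool.Agent.Lib.MP_adc574_ag.Cartier
import Pool.Agent.Lib.MP_adc574_ag.PieceW

/-! # Cartier matrices of superelliptic curves -/

namespace MPadc574

open Polynomial Cardinal

noncomputable section

variable {p : ℕ}

/-- The matrix of `q ↦ cop (P q)` on polynomials of degree `< g`. -/
def cmMat (p g : ℕ) {R : Type*} [CommRing R] (P : R[X]) : Matrix (Fin g) (Fin g) R :=
  fun i j => P.coeff ((i.1 + 1) * p - (j.1 + 1))

theorem det_cmMat_map {g : ℕ} {R S : Type*} [CommRing R] [CommRing S] (φ : R →+* S)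
    (P : R[X]) : (cmMat p g (P.map φ)).det = φ (cmMat p g P).det := by
  have h : cmMat p g (P.map φ) = (cmMat p g P).map φ := by
    ext i j
    simp only [cmMat, Matrix.map_apply]
    rw [coeff_map]
  rw [h, RingHom.map_det]
  rfl

theorem exists_cop_of_det_cmMat (hp : 0 < p) {g : ℕ} (hgp : g ≤ p)
    {R : Type*} [CommRing R] [IsDomain R]
    (P : R[X]) (hP : P.natDegree + g < p * (g + 1))
    (h : (cmMat p g P).det = 0) :
    ∃ q : R[X], q ≠ 0 ∧ q.natDegree < g ∧ cop p (P * q) = 0 := by
  rw [← Matrix.exists_mulVec_eq_zero_iff] at h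
  obtain ⟨v, hv, hv0⟩ := h
  set q : R[X] := ∑ j : Fin g, C (v j) * X ^ (j : ℕ) with hq
  have hgpos : 0 < g := by
    rcases Nat.eq_zero_or_pos g with h | h
    · subst h
      exact absurd (Subsingleton.elim v 0) hv
    · exact h
  have hcoeff : ∀ j : Fin g, q.coeff j = v j := by
    intro j
    rw [hq, finsetSum_coeff]
    simp only [coeff_C_mul, coeff_X_pow, mul_ite, mul_one, mul_zero]
    rw [Finset.sum_eq_single j]
    · simp
    · intro b _ hb
      rw [if_neg]
      intro h
      exact hb (Fin.ext h.symm)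
    · simp
  have hqdeg : q.natDegree < g := by
    rw [hq]
    apply lt_of_le_of_lt (natDegree_sum_le_of_forall_le (n := g - 1) _ _ _)
    · omega
    · intro j _
      refine (natDegree_C_mul_X_pow_le _ _).trans ?_
      have := j.2
      omega
  refine ⟨q, ?_, hqdeg, ?_⟩
  · intro h0
    apply hv
    ext j
    rw [← hcoeff, h0, coeff_zero, Pi.zero_apply]
  · rw [cop_eq_zero_iff hp]
    intro i
    by_cases hi : i < g
    · have h1 := congrFun hv0 ⟨i, hi⟩
      rw [Matrix.mulVec, dotProduct] at h1
      simp only [cmMat, Pi.zero_apply] at h1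
      rw [← h1, hq, Finset.mul_sum, finsetSum_coeff]
      apply Finset.sum_congr rfl
      intro j _
      rw [mul_left_comm, coeff_C_mul, coeff_mul_X_pow', mul_comm]
      have hj2 := j.2
      have h3 : p * (i + 1) = p * i + p := by ring
      rw [if_pos (by omega)]
      congr 2
      rw [mul_comm]
      omega
    · apply coeff_eq_zero_of_natDegree_lt
      have h1 : (P * q).natDegree ≤ P.natDegree + (g - 1) := by
        refine natDegree_mul_le.trans ?_
        omega
      have h3 : p * (g + 1) ≤ p * (i + 1) := Nat.mul_le_mul_left _ (by omega)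
      omega

theorem eq_zero_of_cop_cmMat {g : ℕ} (hp : 0 < p) (hgp : g ≤ p)
    {R : Type*} [CommRing R] [IsDomain R] (P : R[X])
    (h : (cmMat p g P).det ≠ 0) {q : R[X]} (hq : q.degree < g)
    (hcop : cop p (P * q) = 0) : q = 0 := by
  by_contra hq0
  apply h
  rw [← Matrix.exists_mulVec_eq_zero_iff]
  refine ⟨fun j => q.coeff j, ?_, ?_⟩
  · intro h0
    apply hq0
    ext m
    rw [coeff_zero]
    by_cases hm : m < g
    · exact congrFun h0 ⟨m, hm⟩
    · apply coeff_eq_zero_of_degree_lt
      exact lt_of_lt_of_le hq (by exact_mod_cast not_lt.1 hm)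
  · ext i
    rw [cop_eq_zero_iff hp] at hcop
    rw [Pi.zero_apply, ← hcop i]
    have hqsum : q = ∑ j : Fin g, C (q.coeff j) * X ^ (j : ℕ) := by
      have h1 : q.natDegree < g := by
        rwa [natDegree_lt_iff_degree_lt hq0]
      conv_lhs => rw [q.as_sum_range' g h1]
      rw [Finset.sum_range]
      apply Finset.sum_congr rfl
      intro j _
      rw [C_mul_X_pow_eq_monomial]
    conv_rhs => rw [hqsum]
    rw [Matrix.mulVec, dotProduct, Finset.mul_sum, finsetSum_coeff]
    apply Finset.sum_congr rfl
    intro j _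
    rw [mul_left_comm, coeff_C_mul, coeff_mul_X_pow', mul_comm, cmMat]
    have hj2 := j.2
    have h3 : p * (i + 1) = p * i + p := by ring
    rw [if_pos (by omega)]
    congr 2
    rw [mul_comm]
    omega

/-- An exact differential `q dx / y` on `y^m = F`, `p = 1 (mod m)`, is killed by the operator. -/
theorem cop_of_exactW [Fact p.Prime] {κ : Type*} [Field κ] [CharP κ p] {m e : ℕ}
    (hme : m * e + 1 = p) (he0 : 0 < e)
    {F q N D : κ[X]} (hD : D ≠ 0)
    (h : m * D ^ 2 * F * q = m * F * (derivative N * D - N * derivative D) - derivative F * N * D) :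
    cop p (F ^ e * q) = 0 := by
  have hprime : p.Prime := Fact.out
  have h2 := hprime.two_le
  have hm0 : (m : κ) ≠ 0 := by
    intro h0
    have h3 : ((m * e + 1 : ℕ) : κ) = 1 := by
      rw [Nat.cast_add, Nat.cast_mul, h0, zero_mul, zero_add, Nat.cast_one]
    rw [hme, CharP.cast_eq_zero] at h3
    exact zero_ne_one h3
  obtain ⟨e', rfl⟩ : ∃ e', e = e' + 1 := ⟨e - 1, by omega⟩
  have hpk : ((p : ℕ) : κ[X]) = 0 := CharP.cast_eq_zero _ p
  have hee : (m : κ[X]) * ((e' : ℕ) + 1 : κ[X]) + 1 = 0 := by
    rw [← hpk, ← hme]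
    push_cast
    ring
  obtain ⟨d, hd⟩ : ∃ d, p = d + 2 := ⟨p - 2, by omega⟩
  have hdk : ((d : ℕ) : κ[X]) + 2 = 0 := by
    rw [← hpk, hd]
    push_cast
    ring
  have key : C (m : κ) * (D ^ p * (F ^ (e' + 1) * q)) =
      derivative (C (m : κ) * (N * D ^ (d + 1) * F ^ (e' + 1))) := by
    rw [derivative_C_mul]
    simp only [derivative_mul, derivative_pow, Nat.add_sub_cancel]
    rw [hd, pow_add D d 2, pow_succ D d, pow_succ F e']
    push_cast
    simp only [C_add, C_1, map_natCast]
    linear_combination (D ^ d * F ^ e') * h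
      - (m * N * D ^ d * derivative D * F ^ e' * F) * hdk
      - (N * D ^ d * D * F ^ e' * derivative F) * hee
  have h3 : cop p (C (m : κ) * (D ^ p * (F ^ (e' + 1) * q))) = 0 := by
    rw [key, cop_derivative]
  rw [cop_C_mul hprime.pos, cop_pow_mul] at h3
  rcases mul_eq_zero.1 h3 with h4 | h4
  · exact absurd (C_eq_zero.1 h4) hm0
  · rcases mul_eq_zero.1 h4 with h5 | h5
    · exfalso
      rw [Polynomial.map_eq_zero_iff (RingHom.injective _)] at h5
      exact hD h5
    · exact h5

end

theorem exists_independent_auxW {F k : Type*} [Field F] [Field k] [Algebra F k] (S : Set k)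
    (hS : S.Finite) (n b : ℕ)
    (h : (n : Cardinal) ≤ Algebra.trdeg F (IntermediateField.adjoin F S) + b) :
    ∃ r, n ≤ r + b ∧ ∃ x : Fin r → k, AlgebraicIndependent F x ∧ ∀ t, x t ∈ S := by
  classical
  set E := IntermediateField.adjoin F S with hE
  set S' : Set E := (fun e : E => (e : k)) ⁻¹' S with hS'
  have htop : IntermediateField.adjoin F S' = ⊤ := by
    apply IntermediateField.map_injective (IntermediateField.val E)
    rw [IntermediateField.adjoin_map]
    have : (E.val : E → k) '' S' = S := by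
      ext y
      constructor
      · rintro ⟨z, hz, rfl⟩
        exact hz
      · intro hy
        exact ⟨⟨y, IntermediateField.subset_adjoin F S hy⟩, hy, rfl⟩
    rw [this, ← AlgHom.fieldRange_eq_map, IntermediateField.fieldRange_val]
  have h1 : Algebra.IsAlgebraic (IntermediateField.adjoin F S') E := by
    rw [htop]
    constructor
    intro y
    exact isAlgebraic_algebraMap (⟨y, trivial⟩ : (⊤ : IntermediateField F E))
  have h2 : Algebra.IsAlgebraic (Algebra.adjoin F S') E :=
    IntermediateField.isAlgebraic_adjoin_iff_top.1 h1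
  obtain ⟨u, huS, hu⟩ := exists_isTranscendenceBasis_subset (R := F) S'
  have hS'fin : S'.Finite := hS.preimage (Subtype.val_injective.injOn)
  have hufin : u.Finite := hS'fin.subset huS
  have := hufin.fintype
  have hcard := hu.cardinalMk_eq_trdeg
  rw [← hcard, Cardinal.mk_fintype] at h
  have h3 : n ≤ Fintype.card u + b := by exact_mod_cast h
  refine ⟨Fintype.card u, h3, fun t => ((Fintype.equivFin u).symm t : E), ?_, ?_⟩
  · have h4 : AlgebraicIndependent F (fun z : u => ((z : E) : k)) :=
      hu.1.map' (f := E.val) E.val.injective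
    exact h4.comp _ (Fintype.equivFin u).symm.injective
  · intro t
    exact huS ((Fintype.equivFin u).symm t).2

theorem exists_independentW {k : Type*} [Field k] [CharZero k] (S : Set k) (hS : S.Finite)
    (n b : ℕ)
    (h : (n : Cardinal) ≤ Algebra.trdeg ℚ (IntermediateField.adjoin ℚ S) + b) :
    ∃ r, n ≤ r + b ∧ ∃ x : Fin r → k, AlgebraicIndependent ℚ x ∧ ∀ t, x t ∈ S := by
  apply exists_independent_auxW S hS n b
  convert h
  · rfl
  · exact Subsingleton.elim _ _

end MPadc574
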