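import Mathlib

/-! # Infinitely many primes with homomorphisms to prime fields -/

namespace MPadc574

open Polynomial

theorem exists_prime_root (h : ℤ[X]) (hd : 0 < h.natDegree) (M : ℕ) (hM : M ≠ 0) :
    ∃ p : ℕ, p.Prime ∧ ¬ p ∣ M ∧ ∃ m : ℤ, (p : ℤ) ∣ h.eval m := by
  have hlarge : ∃ p : ℕ, p.Prime ∧ ¬ p ∣ M := by
    obtain ⟨p, hp, hp2⟩ := Nat.exists_infinite_primes (M + 1)
    exact ⟨p, hp2, fun h => by
      have := Nat.le_of_dvd (Nat.pos_of_ne_zero hM) h
      omega⟩
  by_cases hc : h.eval 0 = 0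
  · obtain ⟨p, hp, hpM⟩ := hlarge
    exact ⟨p, hp, hpM, 0, by rw [hc]; exact dvd_zero _⟩
  · set c := h.eval 0 with hcdef
    have hM' : (M : ℤ) ≠ 0 := by exact_mod_cast hM
    have hcM : c * M ≠ 0 := mul_ne_zero hc hM'
    have hdeg : ∀ e : ℤ, h.comp (C (c * M) * X) ≠ C e := by
      intro e he
      have h1 : (h.comp (C (c * M) * X)).natDegree = h.natDegree * 1 := by
        rw [natDegree_comp, natDegree_C_mul_X _ hcM]
      rw [he, natDegree_C] at h1
      omega
    have hex : ∃ t : ℤ, h.eval (c * M * t) ≠ c ∧ h.eval (c * M * t) ≠ -c := by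
      by_contra hcon
      push Not at hcon
      have h1 : (h.comp (C (c * M) * X) - C c) * (h.comp (C (c * M) * X) - C (-c)) = 0 := by
        apply Polynomial.funext
        intro t
        simp only [eval_mul, eval_sub, eval_comp, eval_C, eval_X, eval_zero]
        by_cases h2 : h.eval (c * M * t) = c
        · rw [h2]
          ring
        · rw [hcon t h2]
          ring
      rcases mul_eq_zero.1 h1 with h2 | h2
      · exact hdeg c (sub_eq_zero.1 h2)
      · exact hdeg (-c) (sub_eq_zero.1 h2)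
    obtain ⟨t, ht1, ht2⟩ := hex
    have hdvd : c * M * t ∣ h.eval (c * M * t) - c := by
      have := h.sub_dvd_eval_sub (c * M * t) 0
      rwa [sub_zero] at this
    obtain ⟨k, hk⟩ := hdvd
    set w : ℤ := 1 + M * (t * k) with hw
    have hcw : h.eval (c * M * t) = c * w := by
      rw [hw]
      linear_combination hk
    have hw1 : w.natAbs ≠ 1 := by
      intro h1
      rcases Int.natAbs_eq w with h2 | h2
      · rw [h1] at h2
        rw [hcw, h2] at ht1
        simp at ht1
      · rw [h1] at h2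
        rw [hcw, h2] at ht2
        simp at ht2
    obtain ⟨p, hp, hpw⟩ := Nat.exists_prime_and_dvd hw1
    have hpw' : (p : ℤ) ∣ w := Int.natCast_dvd.2 hpw
    refine ⟨p, hp, ?_, c * M * t, ?_⟩
    · intro hpM
      have h3 : (p : ℤ) ∣ M := by exact_mod_cast hpM
      have h4 : (p : ℤ) ∣ 1 := by
        have h5 : (p : ℤ) ∣ w - M * (t * k) := dvd_sub hpw' (h3.mul_right _)
        rwa [hw, add_sub_cancel_right] at h5
      have h6 := Int.natAbs_dvd_natAbs.2 h4
      simp at h6
      exact hp.one_lt.ne' h6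
    · rw [hcw]
      exact hpw'.mul_left c

/-- Extension of a homomorphism to a field along the localization at its kernel. -/
theorem exists_extension {L : Type*} [Field L] (R : Subring L) {k : Type*} [Field k]
    (f : R →+* k) : ∃ (T : Subring L) (F : T →+* k), (∀ r (hr : r ∈ R), ∃ h : r ∈ T,
      F ⟨r, h⟩ = f ⟨r, hr⟩) ∧ (∀ y : L, (∃ u w : R, f w ≠ 0 ∧ y * w = u) → y ∈ T) := by
  have hP : (RingHom.ker f).IsPrime := RingHom.ker_isPrime f
  let T := (LocalSubring.ofPrime R (RingHom.ker f)).toSubring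
  let F : T →+* k := IsLocalization.lift (M := (RingHom.ker f).primeCompl) (S := T) (g := f) (by
    intro y
    rw [isUnit_iff_ne_zero]
    intro h
    exact y.2 ((RingHom.mem_ker).2 h))
  refine ⟨T, F, ?_, ?_⟩
  · intro r hr
    refine ⟨LocalSubring.le_ofPrime R (RingHom.ker f) hr, ?_⟩
    exact IsLocalization.lift_eq _ (⟨r, hr⟩ : R)
  · rintro y ⟨u, w, hw, hy⟩
    have hwu : IsUnit (algebraMap R T w) :=
      IsLocalization.map_units T (⟨w, fun h => hw ((RingHom.mem_ker).1 h)⟩ :
        (RingHom.ker f).primeCompl)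
    obtain ⟨b, hb⟩ := hwu.exists_right_inv
    have hb' : (w : L) * (b : L) = 1 := congrArg Subtype.val hb
    have hy2 : y = (u : L) * (b : L) := by
      rw [← hy, mul_assoc, hb', mul_one]
    rw [hy2]
    exact T.mul_mem (LocalSubring.le_ofPrime R (RingHom.ker f) u.2) b.2

theorem exists_hom_closure {L : Type*} [Field L] [CharZero L] [FiniteDimensional ℚ L]
    (S : Finset L) (N : ℕ) :
    ∃ p : ℕ, p.Prime ∧ N < p ∧ Nonempty (Subring.closure (S : Set L) →+* ZMod p) := by
  classical
  obtain ⟨θ0, hθ0⟩ := Field.exists_primitive_element ℚ L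
  have halg : IsAlgebraic ℤ θ0 := by
    have h1 : IsAlgebraic ℚ θ0 := Algebra.IsAlgebraic.isAlgebraic θ0
    exact (IsFractionRing.isAlgebraic_iff ℤ ℚ L).2 h1
  obtain ⟨d, hd0, hdint⟩ := halg.exists_integral_multiple
  set θ : L := d • θ0 with hθ
  set R : Subring L := (Algebra.adjoin ℤ {θ}).toSubring with hR
  have hθR : θ ∈ R := Algebra.subset_adjoin (Set.mem_singleton θ)
  have hintR : ∀ n : ℤ, (n : L) ∈ R := fun n => intCast_mem R n
  have hmult : ∀ s : L, ∃ n : ℤ, n ≠ 0 ∧ (n : L) * s ∈ R := by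
    intro s
    have hs : s ∈ Algebra.adjoin ℚ {θ0} := by
      have h1 : (IntermediateField.adjoin ℚ {θ0}).toSubalgebra = Algebra.adjoin ℚ {θ0} :=
        IntermediateField.adjoin_simple_toSubalgebra_of_isAlgebraic
          (Algebra.IsAlgebraic.isAlgebraic θ0)
      rw [← h1, hθ0]
      trivial
    induction hs using Algebra.adjoin_induction with
    | mem x hx =>
      rw [Set.mem_singleton_iff] at hx
      subst hx
      refine ⟨d, hd0, ?_⟩
      rw [← zsmul_eq_mul]
      exact hθR
    | algebraMap q =>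
      refine ⟨q.den, by exact_mod_cast q.den_ne_zero, ?_⟩
      have h2 : ((q.den : ℤ) : L) * algebraMap ℚ L q = (q.num : L) := by
        rw [eq_ratCast]
        have h3 : ((q.den : ℚ) * q : ℚ) = q.num := by
          rw [mul_comm]
          exact Rat.mul_den_eq_num q
        have h4 := congrArg (fun z : ℚ => (z : L)) h3
        push_cast at h4 ⊢
        exact h4
      rw [h2]
      exact hintR _
    | add x y _ _ hx hy =>
      obtain ⟨n, hn, hnx⟩ := hx
      obtain ⟨m, hm, hmy⟩ := hy
      refine ⟨n * m, mul_ne_zero hn hm, ?_⟩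
      have : ((n * m : ℤ) : L) * (x + y) = (m : L) * ((n : L) * x) + (n : L) * ((m : L) * y) := by
        push_cast
        ring
      rw [this]
      exact R.add_mem (R.mul_mem (hintR _) hnx) (R.mul_mem (hintR _) hmy)
    | mul x y _ _ hx hy =>
      obtain ⟨n, hn, hnx⟩ := hx
      obtain ⟨m, hm, hmy⟩ := hy
      refine ⟨n * m, mul_ne_zero hn hm, ?_⟩
      have : ((n * m : ℤ) : L) * (x * y) = ((n : L) * x) * ((m : L) * y) := by
        push_cast
        ring
      rw [this]
      exact R.mul_mem hnx hmy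
  choose n hn hnR using hmult
  have hpd : 0 < (minpoly ℤ θ).natDegree := minpoly.natDegree_pos hdint
  obtain ⟨p, hp, hpM, m, hm⟩ := exists_prime_root (minpoly ℤ θ) hpd
    (N.factorial * ∏ s ∈ S, (n s).natAbs) (mul_ne_zero (Nat.factorial_ne_zero _)
      (Finset.prod_ne_zero_iff.2 (fun s _ => Int.natAbs_ne_zero.2 (hn s))))
  have hpN : N < p := by
    by_contra h
    push Not at h
    exact hpM (((hp.dvd_factorial).2 h).mul_right _)
  have hpS : ∀ s ∈ S, ((n s : ℤ) : ZMod p) ≠ 0 := by
    intro s hs h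
    rw [ZMod.intCast_zmod_eq_zero_iff_dvd] at h
    apply hpM
    have h1 : p ∣ (n s).natAbs := Int.natCast_dvd.1 h
    exact (h1.trans (Finset.dvd_prod_of_mem (fun s => (n s).natAbs) hs)).mul_left _
  have : Fact p.Prime := ⟨hp⟩
  refine ⟨p, hp, hpN, ?_⟩
  have hroot : (minpoly ℤ θ).eval₂ (Int.castRingHom (ZMod p)) (m : ZMod p) = 0 := by
    have h1 := Polynomial.eval₂_at_apply (p := minpoly ℤ θ) (Int.castRingHom (ZMod p)) m
    rw [eq_intCast] at h1
    rw [h1, eq_intCast, ZMod.intCast_zmod_eq_zero_iff_dvd]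
    exact hm
  let f0 : AdjoinRoot (minpoly ℤ θ) →+* ZMod p :=
    AdjoinRoot.lift (Int.castRingHom (ZMod p)) (m : ZMod p) hroot
  let f : R →+* ZMod p := f0.comp ((minpoly.equivAdjoin hdint).symm : _ →+* _)
  obtain ⟨T, F, hF, hT⟩ := exists_extension R f
  have hle : Subring.closure (S : Set L) ≤ T := by
    rw [Subring.closure_le]
    intro s hs
    apply hT
    refine ⟨⟨_, hnR s⟩, ⟨_, hintR (n s)⟩, ?_, ?_⟩
    · have h1 : (⟨_, hintR (n s)⟩ : R) = ((n s : ℤ) : R) := rfl
      rw [h1, map_intCast]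
      exact hpS s hs
    · simp only
      ring
  exact ⟨F.comp (Subring.inclusion hle)⟩

theorem nontrivial_tensor {C E : Type*} [CommRing C] [Field E] [CharZero E] (g : C →+* E) :
    Nontrivial (TensorProduct ℤ ℚ C) := by
  let g' : TensorProduct ℤ ℚ C →+* E :=
    (Algebra.TensorProduct.lift (algebraMap ℚ E).toIntAlgHom
      g.toIntAlgHom (fun _ _ => mul_comm _ _) : TensorProduct ℤ ℚ C →ₐ[ℤ] E)
  exact g'.domain_nontrivial

theorem exists_hom (C : Type*) [CommRing C] [IsDomain C] [CharZero C] [Algebra.FiniteType ℤ C]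
    (N : ℕ) : ∃ p : ℕ, p.Prime ∧ N < p ∧ p % 4 = 1 ∧ Nonempty (C →+* ZMod p) := by
  classical
  have : CharZero (FractionRing C) :=
    charZero_of_injective_algebraMap (IsFractionRing.injective C (FractionRing C))
  have : Nontrivial (TensorProduct ℤ ℚ C) :=
    nontrivial_tensor (algebraMap C (FractionRing C))
  obtain ⟨M, hM⟩ := Ideal.exists_maximal (TensorProduct ℤ ℚ C)
  let L0 := TensorProduct ℤ ℚ C ⧸ M
  let : Field L0 := Ideal.Quotient.field M
  have : Algebra.FiniteType ℚ L0 :=
    Algebra.FiniteType.of_surjective (Ideal.Quotient.mkₐ ℚ M) (Ideal.Quotient.mkₐ_surjective ℚ M)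
  have : Module.Finite ℚ L0 := finite_of_finite_type_of_isJacobsonRing _ _
  have : CharZero L0 := algebraRat.charZero L0
  let L := (X ^ 2 + 1 : L0[X]).SplittingField
  have : CharZero L := charZero_of_injective_algebraMap (algebraMap L0 L).injective
  have : Module.Finite L0 L := inferInstance
  have : FiniteDimensional ℚ L := Module.Finite.trans L0 L
  obtain ⟨i, hi⟩ : ∃ i : L, i ^ 2 + 1 = 0 := by
    have h1 := SplittingField.splits (X ^ 2 + 1 : L0[X])
    have h2 : ((X ^ 2 + 1 : L0[X]).map (algebraMap L0 L)).degree ≠ 0 := by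
      rw [degree_map]
      have : (X ^ 2 + 1 : L0[X]).degree = 2 := by compute_degree!
      rw [this]
      decide
    obtain ⟨i, hi⟩ := h1.exists_eval_eq_zero h2
    refine ⟨i, ?_⟩
    simpa using hi
  let g : C →+* L := ((algebraMap L0 L).comp (Ideal.Quotient.mk M)).comp
    (Algebra.TensorProduct.includeRight (R := ℤ) (A := ℚ) (B := C) : C →+* TensorProduct ℤ ℚ C)
  obtain ⟨s, hs⟩ := (inferInstance : Algebra.FiniteType ℤ C).out
  obtain ⟨p, hp, hpN, ⟨φ⟩⟩ := exists_hom_closure (insert i (s.image g)) (max N 2)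
  have hgmem : ∀ c : C, g c ∈ Subring.closure ((insert i (s.image g) : Finset L) : Set L) := by
    intro c
    have hc : c ∈ Algebra.adjoin ℤ (s : Set C) := by rw [hs]; trivial
    induction hc using Algebra.adjoin_induction with
    | mem x hx =>
      apply Subring.subset_closure
      rw [Finset.coe_insert, Finset.coe_image]
      exact Or.inr ⟨x, hx, rfl⟩
    | algebraMap n =>
      rw [eq_intCast, map_intCast]
      exact intCast_mem _ n
    | add x y _ _ hx hy => rw [map_add]; exact Subring.add_mem _ hx hy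
    | mul x y _ _ hx hy => rw [map_mul]; exact Subring.mul_mem _ hx hy
  have himem : i ∈ Subring.closure ((insert i (s.image g) : Finset L) : Set L) := by
    apply Subring.subset_closure
    rw [Finset.coe_insert]
    exact Or.inl rfl
  have : Fact p.Prime := ⟨hp⟩
  refine ⟨p, hp, lt_of_le_of_lt (le_max_left _ _) hpN, ?_,
    ⟨φ.comp (g.codRestrict (Subring.closure ((insert i (s.image g) : Finset L) : Set L)) hgmem)⟩⟩
  have hsq : IsSquare (-1 : ZMod p) := by
    refine ⟨φ ⟨i, himem⟩, ?_⟩
    rw [← map_mul]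
    have h3 : (⟨i, himem⟩ : Subring.closure ((insert i (s.image g) : Finset L) : Set L)) *
        ⟨i, himem⟩ = -1 := by
      apply Subtype.ext
      push_cast
      linear_combination hi
    rw [h3, map_neg, map_one]
  rw [ZMod.exists_sq_eq_neg_one_iff] at hsq
  have h4 : 2 < p := lt_of_le_of_lt (le_max_right _ _) hpN
  rcases hp.eq_two_or_odd with h | h <;> omega

end MPadc574
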