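import Mathlib

/-! # Distances in a finite ultrametric configuration -/

namespace MPadc574

noncomputable section

variable {K : Type*} [Field K] {Γ₀ : Type*} [LinearOrderedCommGroupWithZero Γ₀]
  (v : Valuation K Γ₀)

/-- The set of all distances (including `0`). -/
def dists {ι : Type*} [DecidableEq ι] [DecidableEq Γ₀] (a : ι → K) (T : Finset ι) : Finset Γ₀ :=
  (T ×ˢ T).image (fun x => v (a x.1 - a x.2))

variable [DecidableEq Γ₀]

theorem mem_dists {ι : Type*} [DecidableEq ι] {a : ι → K} {T : Finset ι} {i j : ι} (hi : i ∈ T)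
    (hj : j ∈ T) : v (a i - a j) ∈ dists v a T :=
  Finset.mem_image.2 ⟨(i, j), Finset.mem_product.2 ⟨hi, hj⟩, rfl⟩

theorem dists_insert {ι : Type*} [DecidableEq ι] (a : ι → K) (T : Finset ι) (hT : T.Nonempty)
    (z : ι) : ∃ δ, dists v a (insert z T) ⊆ insert δ (dists v a T) := by
  obtain ⟨t0, ht0, hmin⟩ := Finset.exists_min_image T (fun t => v (a z - a t)) hT
  refine ⟨v (a z - a t0), ?_⟩
  have key : ∀ t ∈ T, v (a z - a t) ∈ insert (v (a z - a t0)) (dists v a T) := by
    intro t ht
    rcases lt_or_ge (v (a z - a t0)) (v (a t - a t0)) with h | h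
    · have h1 : v (a z - a t) = v (a t - a t0) := by
        have : a z - a t = (a z - a t0) - (a t - a t0) := by ring
        rw [this, Valuation.map_sub_swap]
        exact Valuation.map_sub_eq_of_lt_left v h
      rw [h1]
      exact Finset.mem_insert_of_mem (mem_dists v ht ht0)
    · have h1 : v (a z - a t) ≤ v (a z - a t0) := by
        have : a z - a t = (a z - a t0) - (a t - a t0) := by ring
        rw [this]
        exact (v.map_sub _ _).trans (max_le le_rfl h)
      rw [le_antisymm h1 (hmin t ht)]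
      exact Finset.mem_insert_self _ _
  intro d hd
  obtain ⟨⟨i, j⟩, hij, rfl⟩ := Finset.mem_image.1 hd
  rw [Finset.mem_product, Finset.mem_insert, Finset.mem_insert] at hij
  simp only at hij ⊢
  rcases hij with ⟨rfl | hi, rfl | hj⟩
  · rw [sub_self, map_zero]
    have : v (a t0 - a t0) ∈ dists v a T := mem_dists v ht0 ht0
    rw [sub_self, map_zero] at this
    exact Finset.mem_insert_of_mem this
  · exact key j hj
  · rw [v.map_sub_swap (a i) (a j)]
    exact key i hi
  · exact Finset.mem_insert_of_mem (mem_dists v hi hj)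

theorem card_dists_union {ι : Type*} [DecidableEq ι] (a : ι → K) (T : Finset ι) (hT : T.Nonempty)
    (U : Finset ι) : (dists v a (U ∪ T)).card ≤ (dists v a T).card + U.card := by
  induction U using Finset.induction_on with
  | empty => simp
  | insert z U hz ih =>
    rw [Finset.insert_union, Finset.card_insert_of_notMem hz]
    obtain ⟨δ, hδ⟩ := dists_insert v a (U ∪ T) (hT.mono Finset.subset_union_right) z
    have h1 := Finset.card_le_card hδ
    have h2 := Finset.card_insert_le δ (dists v a (U ∪ T))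
    omega

theorem rank_lemma {n : ℕ} (a : Fin n → K) (ha : Function.Injective a) (T0 : Finset (Fin n))
    (h5 : 5 ≤ T0.card) (γ : Γ₀) (heq : ∀ i ∈ T0, ∀ j ∈ T0, i ≠ j → v (a i - a j) = γ)
    {r : ℕ} (hr : n ≤ r + 4) (x : Fin r → K)
    (hx : ∀ t, ∃ i j k l, i ≠ j ∧ k ≠ l ∧ x t = (a k - a l) / (a i - a j)) :
    ∃ c : Fin r → ℤ, c ≠ 0 ∧ v (∏ t, x t ^ c t) = 1 := by
  classical
  obtain ⟨T1, hT1, hT1c⟩ := Finset.exists_subset_card_eq h5
  have hT1ne : T1.Nonempty := by
    rw [← Finset.card_pos]
    omega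
  have hd1 : (dists v a T1).card ≤ 2 := by
    have : dists v a T1 ⊆ {0, γ} := by
      intro d hd
      obtain ⟨⟨i, j⟩, hij, rfl⟩ := Finset.mem_image.1 hd
      rw [Finset.mem_product] at hij
      simp only at hij ⊢
      by_cases h : i = j
      · rw [h, sub_self, map_zero]
        simp
      · rw [heq i (hT1 hij.1) j (hT1 hij.2) h]
        simp
    exact (Finset.card_le_card this).trans Finset.card_le_two
  set S := (dists v a (Finset.univ : Finset (Fin n))).erase 0 with hS
  have h0mem : (0 : Γ₀) ∈ dists v a (Finset.univ : Finset (Fin n)) := by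
    obtain ⟨t, -⟩ := hT1ne
    have := mem_dists v (a := a) (Finset.mem_univ t) (Finset.mem_univ t)
    rwa [sub_self, map_zero] at this
  have hScard : S.card + 4 ≤ n := by
    have h1 := card_dists_union v a T1 hT1ne (Finset.univ \ T1)
    rw [Finset.sdiff_union_of_subset (Finset.subset_univ _),
      Finset.card_sdiff_of_subset (Finset.subset_univ _), Finset.card_univ, Fintype.card_fin,
      hT1c] at h1
    have h2 : T1.card ≤ n := by
      have := Finset.card_le_card (Finset.subset_univ T1)
      rwa [Finset.card_univ, Fintype.card_fin] at this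
    rw [hS, Finset.card_erase_of_mem h0mem]
    omega
  have hSne : ∀ i j, i ≠ j → v (a i - a j) ∈ S := by
    intro i j hij
    rw [hS, Finset.mem_erase]
    refine ⟨?_, mem_dists v (Finset.mem_univ i) (Finset.mem_univ j)⟩
    exact (v.ne_zero_iff).2 (sub_ne_zero.2 (fun h => hij (ha h)))
  obtain ⟨i0, hi0, j0, hj0, hij0⟩ := Finset.one_lt_card.1 (by omega : 1 < T1.card)
  set w0 := v (a i0 - a j0) with hw0
  have hw0S : w0 ∈ S := hSne i0 j0 hij0
  have hSnz : ∀ s ∈ S, s ≠ 0 := fun s hs => Finset.ne_of_mem_erase hs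
  -- the additive group of values
  let f : Γ₀ → Additive Γ₀ˣ := fun s => if h : s = 0 then 0 else Additive.ofMul (Units.mk0 s h)
  have hxne : ∀ t, x t ≠ 0 := by
    intro t
    obtain ⟨i, j, k, l, hij, hkl, hxt⟩ := hx t
    rw [hxt]
    exact div_ne_zero (sub_ne_zero.2 (fun h => hkl (ha h))) (sub_ne_zero.2 (fun h => hij (ha h)))
  let g : Fin r → Additive Γ₀ˣ := fun t => Additive.ofMul (Units.mk0 (v (x t))
    ((v.ne_zero_iff).2 (hxne t)))
  have hgspan : ∀ t, g t ∈ Submodule.span ℤ (((S.erase w0).image (fun s => f s - f w0) :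
      Finset (Additive Γ₀ˣ)) : Set (Additive Γ₀ˣ)) := by
    intro t
    have hmem : ∀ s ∈ S, f s - f w0 ∈ Submodule.span ℤ (((S.erase w0).image
        (fun s => f s - f w0) : Finset (Additive Γ₀ˣ)) : Set (Additive Γ₀ˣ)) := by
      intro s hs
      by_cases h : s = w0
      · rw [h, sub_self]
        exact Submodule.zero_mem _
      · apply Submodule.subset_span
        rw [Finset.coe_image]
        exact ⟨s, Finset.mem_coe.2 (Finset.mem_erase.2 ⟨h, hs⟩), rfl⟩
    obtain ⟨i, j, k, l, hij, hkl, hxt⟩ := hx t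
    have h1 : g t = (f (v (a k - a l)) - f w0) - (f (v (a i - a j)) - f w0) := by
      rw [sub_sub_sub_cancel_right]
      simp only [g, f]
      rw [dif_neg (hSnz _ (hSne k l hkl)), dif_neg (hSnz _ (hSne i j hij)), ← ofMul_div]
      congr 1
      apply Units.ext
      rw [Units.val_mk0, Units.val_div_eq_div_val, Units.val_mk0, Units.val_mk0, hxt, map_div₀]
    rw [h1]
    exact Submodule.sub_mem _ (hmem _ (hSne k l hkl)) (hmem _ (hSne i j hij))
  have hnli : ¬ LinearIndependent ℤ g := by
    intro hli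
    have h1 := linearIndependent_le_span' g hli
      (((S.erase w0).image (fun s => f s - f w0) : Finset _) : Set (Additive Γ₀ˣ)) (by
      rintro _ ⟨t, rfl⟩
      exact hgspan t)
    rw [Cardinal.mk_fin, Nat.cast_le] at h1
    simp only [Finset.coe_sort_coe, Fintype.card_coe] at h1
    have h2 := h1.trans Finset.card_image_le
    rw [Finset.card_erase_of_mem hw0S] at h2
    have h3 : 0 < S.card := Finset.card_pos.2 ⟨w0, hw0S⟩
    omega
  rw [Fintype.not_linearIndependent_iff] at hnli
  obtain ⟨c, hc, t, hct⟩ := hnli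
  refine ⟨c, fun h => hct (by rw [h]; rfl), ?_⟩
  rw [map_prod]
  have h1 := congrArg (fun y : Additive Γ₀ˣ => ((Additive.toMul y : Γ₀ˣ) : Γ₀)) hc
  simp only [toMul_sum, toMul_zsmul, toMul_zero, Units.val_one, g, toMul_ofMul] at h1
  rw [Units.coe_prod] at h1
  rw [← h1]
  apply Finset.prod_congr rfl
  intro s _
  rw [map_zpow₀, Units.val_zpow_eq_zpow_val, Units.val_mk0]

end

end MPadc574
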