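import Mathlib
import Pool.Agent.Lib.MP_adc574_ag.Ultra
import Pool.Agent.Lib.MP_adc574_ag.Primes

/-! # General versions of the rank lemma and of the existence of primes -/

namespace MPadc574

noncomputable section

variable {K : Type*} [Field K] {Γ₀ : Type*} [LinearOrderedCommGroupWithZero Γ₀]
  (v : Valuation K Γ₀) [DecidableEq Γ₀]

theorem rank_lemmaW {n b : ℕ} (hb : 1 ≤ b) (a : Fin n → K) (ha : Function.Injective a) (T0 : Finset (Fin n))
    (h5 : b + 1 ≤ T0.card) (γ : Γ₀) (heq : ∀ i ∈ T0, ∀ j ∈ T0, i ≠ j → v (a i - a j) = γ)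
    {r : ℕ} (hr : n ≤ r + b) (x : Fin r → K)
    (hx : ∀ t, ∃ i j k l, i ≠ j ∧ k ≠ l ∧ x t = (a k - a l) / (a i - a j)) :
    ∃ c : Fin r → ℤ, c ≠ 0 ∧ v (∏ t, x t ^ c t) = 1 := by
  classical
  obtain ⟨T1, hT1, hT1c⟩ := Finset.exists_subset_card_eq h5
  have hT1ne : T1.Nonempty := by
    rw [← Finset.card_pos]
    omega
  have hd1 : (dists v a T1).card ≤ 2 := by
    have : dists v a T1 ⊆ {0, γ} := by
      intro d hd
      obtain ⟨⟨i, j⟩, hij, rfl⟩ := Finset.mem_image.1 hd
      rw [Finset.mem_product] at hij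
      simp only at hij ⊢
      by_cases h : i = j
      · rw [h, sub_self, map_zero]
        simp
      · rw [heq i (hT1 hij.1) j (hT1 hij.2) h]
        simp
    exact (Finset.card_le_card this).trans Finset.card_le_two
  set S := (dists v a (Finset.univ : Finset (Fin n))).erase 0 with hS
  have h0mem : (0 : Γ₀) ∈ dists v a (Finset.univ : Finset (Fin n)) := by
    obtain ⟨t, -⟩ := hT1ne
    have := mem_dists v (a := a) (Finset.mem_univ t) (Finset.mem_univ t)
    rwa [sub_self, map_zero] at this
  have hScard : S.card + b ≤ n := by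
    have h1 := card_dists_union v a T1 hT1ne (Finset.univ \ T1)
    rw [Finset.sdiff_union_of_subset (Finset.subset_univ _),
      Finset.card_sdiff_of_subset (Finset.subset_univ _), Finset.card_univ, Fintype.card_fin,
      hT1c] at h1
    have h2 : T1.card ≤ n := by
      have := Finset.card_le_card (Finset.subset_univ T1)
      rwa [Finset.card_univ, Fintype.card_fin] at this
    rw [hS, Finset.card_erase_of_mem h0mem]
    omega
  have hSne : ∀ i j, i ≠ j → v (a i - a j) ∈ S := by
    intro i j hij
    rw [hS, Finset.mem_erase]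
    refine ⟨?_, mem_dists v (Finset.mem_univ i) (Finset.mem_univ j)⟩
    exact (v.ne_zero_iff).2 (sub_ne_zero.2 (fun h => hij (ha h)))
  obtain ⟨i0, hi0, j0, hj0, hij0⟩ := Finset.one_lt_card.1 (by omega : 1 < T1.card)
  set w0 := v (a i0 - a j0) with hw0
  have hw0S : w0 ∈ S := hSne i0 j0 hij0
  have hSnz : ∀ s ∈ S, s ≠ 0 := fun s hs => Finset.ne_of_mem_erase hs
  -- the additive group of values
  let f : Γ₀ → Additive Γ₀ˣ := fun s => if h : s = 0 then 0 else Additive.ofMul (Units.mk0 s h)
  have hxne : ∀ t, x t ≠ 0 := by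
    intro t
    obtain ⟨i, j, k, l, hij, hkl, hxt⟩ := hx t
    rw [hxt]
    exact div_ne_zero (sub_ne_zero.2 (fun h => hkl (ha h))) (sub_ne_zero.2 (fun h => hij (ha h)))
  let g : Fin r → Additive Γ₀ˣ := fun t => Additive.ofMul (Units.mk0 (v (x t))
    ((v.ne_zero_iff).2 (hxne t)))
  have hgspan : ∀ t, g t ∈ Submodule.span ℤ (((S.erase w0).image (fun s => f s - f w0) :
      Finset (Additive Γ₀ˣ)) : Set (Additive Γ₀ˣ)) := by
    intro t
    have hmem : ∀ s ∈ S, f s - f w0 ∈ Submodule.span ℤ (((S.erase w0).image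
        (fun s => f s - f w0) : Finset (Additive Γ₀ˣ)) : Set (Additive Γ₀ˣ)) := by
      intro s hs
      by_cases h : s = w0
      · rw [h, sub_self]
        exact Submodule.zero_mem _
      · apply Submodule.subset_span
        rw [Finset.coe_image]
        exact ⟨s, Finset.mem_coe.2 (Finset.mem_erase.2 ⟨h, hs⟩), rfl⟩
    obtain ⟨i, j, k, l, hij, hkl, hxt⟩ := hx t
    have h1 : g t = (f (v (a k - a l)) - f w0) - (f (v (a i - a j)) - f w0) := by
      rw [sub_sub_sub_cancel_right]
      simp only [g, f]
      rw [dif_neg (hSnz _ (hSne k l hkl)), dif_neg (hSnz _ (hSne i j hij)), ← ofMul_div]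
      congr 1
      apply Units.ext
      rw [Units.val_mk0, Units.val_div_eq_div_val, Units.val_mk0, Units.val_mk0, hxt, map_div₀]
    rw [h1]
    exact Submodule.sub_mem _ (hmem _ (hSne k l hkl)) (hmem _ (hSne i j hij))
  have hnli : ¬ LinearIndependent ℤ g := by
    intro hli
    have h1 := linearIndependent_le_span' g hli
      (((S.erase w0).image (fun s => f s - f w0) : Finset _) : Set (Additive Γ₀ˣ)) (by
      rintro _ ⟨t, rfl⟩
      exact hgspan t)
    rw [Cardinal.mk_fin, Nat.cast_le] at h1
    simp only [Finset.coe_sort_coe, Fintype.card_coe] at h1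
    have h2 := h1.trans Finset.card_image_le
    rw [Finset.card_erase_of_mem hw0S] at h2
    have h3 : 0 < S.card := Finset.card_pos.2 ⟨w0, hw0S⟩
    omega
  rw [Fintype.not_linearIndependent_iff] at hnli
  obtain ⟨c, hc, t, hct⟩ := hnli
  refine ⟨c, fun h => hct (by rw [h]; rfl), ?_⟩
  rw [map_prod]
  have h1 := congrArg (fun y : Additive Γ₀ˣ => ((Additive.toMul y : Γ₀ˣ) : Γ₀)) hc
  simp only [toMul_sum, toMul_zsmul, toMul_zero, Units.val_one, g, toMul_ofMul] at h1
  rw [Units.coe_prod] at h1
  rw [← h1]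
  apply Finset.prod_congr rfl
  intro s _
  rw [map_zpow₀, Units.val_zpow_eq_zpow_val, Units.val_mk0]

end

open Polynomial

theorem exists_hom_cyclotomic (C : Type*) [CommRing C] [IsDomain C] [CharZero C]
    [Algebra.FiniteType ℤ C] (m : ℕ) (hm : 0 < m) (N : ℕ) :
    ∃ p : ℕ, p.Prime ∧ N < p ∧ m ∣ p - 1 ∧ Nonempty (C →+* ZMod p) := by
  classical
  have : CharZero (FractionRing C) :=
    charZero_of_injective_algebraMap (IsFractionRing.injective C (FractionRing C))
  have : Nontrivial (TensorProduct ℤ ℚ C) :=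
    nontrivial_tensor (algebraMap C (FractionRing C))
  obtain ⟨M, hM⟩ := Ideal.exists_maximal (TensorProduct ℤ ℚ C)
  let L0 := TensorProduct ℤ ℚ C ⧸ M
  let : Field L0 := Ideal.Quotient.field M
  have : Algebra.FiniteType ℚ L0 :=
    Algebra.FiniteType.of_surjective (Ideal.Quotient.mkₐ ℚ M) (Ideal.Quotient.mkₐ_surjective ℚ M)
  have : Module.Finite ℚ L0 := finite_of_finite_type_of_isJacobsonRing _ _
  have : CharZero L0 := algebraRat.charZero L0
  let L := (cyclotomic m L0).SplittingField
  have : CharZero L := charZero_of_injective_algebraMap (algebraMap L0 L).injective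
  have : Module.Finite L0 L := inferInstance
  have : FiniteDimensional ℚ L := Module.Finite.trans L0 L
  obtain ⟨i, hi⟩ : ∃ i : L, (cyclotomic m L).eval i = 0 := by
    have h1 := SplittingField.splits (cyclotomic m L0)
    have h2 : ((cyclotomic m L0).map (algebraMap L0 L)).degree ≠ 0 := by
      rw [degree_map]
      exact (degree_cyclotomic_pos m L0 hm).ne'
    obtain ⟨i, hi⟩ := h1.exists_eval_eq_zero h2
    refine ⟨i, ?_⟩
    rw [map_cyclotomic] at hi
    exact hi
  let g : C →+* L := ((algebraMap L0 L).comp (Ideal.Quotient.mk M)).comp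
    (Algebra.TensorProduct.includeRight (R := ℤ) (A := ℚ) (B := C) : C →+* TensorProduct ℤ ℚ C)
  obtain ⟨s, hs⟩ := (inferInstance : Algebra.FiniteType ℤ C).out
  obtain ⟨p, hp, hpN, ⟨φ⟩⟩ := exists_hom_closure (insert i (s.image g)) (max N m)
  have hgmem : ∀ c : C, g c ∈ Subring.closure ((insert i (s.image g) : Finset L) : Set L) := by
    intro c
    have hc : c ∈ Algebra.adjoin ℤ (s : Set C) := by rw [hs]; trivial
    induction hc using Algebra.adjoin_induction with
    | mem x hx =>
      apply Subring.subset_closure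
      rw [Finset.coe_insert, Finset.coe_image]
      exact Or.inr ⟨x, hx, rfl⟩
    | algebraMap n =>
      rw [eq_intCast, map_intCast]
      exact intCast_mem _ n
    | add x y _ _ hx hy => rw [map_add]; exact Subring.add_mem _ hx hy
    | mul x y _ _ hx hy => rw [map_mul]; exact Subring.mul_mem _ hx hy
  have himem : i ∈ Subring.closure ((insert i (s.image g) : Finset L) : Set L) := by
    apply Subring.subset_closure
    rw [Finset.coe_insert]
    exact Or.inl rfl
  have : Fact p.Prime := ⟨hp⟩
  refine ⟨p, hp, lt_of_le_of_lt (le_max_left _ _) hpN, ?_,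
    ⟨φ.comp (g.codRestrict (Subring.closure ((insert i (s.image g) : Finset L) : Set L)) hgmem)⟩⟩
  have hroot : (cyclotomic m (ZMod p)).IsRoot (φ ⟨i, himem⟩) := by
    have h3 : (cyclotomic m (Subring.closure ((insert i (s.image g) : Finset L) : Set L))).eval
        ⟨i, himem⟩ = 0 := by
      apply Subtype.val_injective
      have h4 := Polynomial.eval₂_at_apply
        (p := cyclotomic m (Subring.closure ((insert i (s.image g) : Finset L) : Set L)))
        (Subring.subtype _) ⟨i, himem⟩
      rw [eval₂_eq_eval_map, map_cyclotomic] at h4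
      have h5 : (Subring.subtype (Subring.closure ((insert i (s.image g) : Finset L) : Set L)))
        ⟨i, himem⟩ = i := rfl
      rw [h5, hi] at h4
      exact h4.symm
    have h6 := Polynomial.eval₂_at_apply
      (p := cyclotomic m (Subring.closure ((insert i (s.image g) : Finset L) : Set L)))
      φ ⟨i, himem⟩
    rw [eval₂_eq_eval_map, map_cyclotomic, h3, map_zero] at h6
    exact h6
  have h4 : m < p := lt_of_le_of_lt (le_max_right _ _) hpN
  have hne : NeZero ((m : ℕ) : ZMod p) := by
    constructor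
    intro h
    rw [CharP.cast_eq_zero_iff (ZMod p) p] at h
    have := Nat.le_of_dvd hm h
    omega
  rw [isRoot_cyclotomic_iff] at hroot
  apply hroot.dvd_of_pow_eq_one
  apply ZMod.pow_card_sub_one_eq_one
  exact hroot.ne_zero hm.ne'

end MPadc574
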