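import Mathlib

/-! # Avoiding a divisor in the fibres over large primes -/

namespace MPadc574

theorem exists_prime_avoiding {B : Type*} [CommRing B] [IsDomain B] [IsNoetherianRing B] (β : B)
    (hβ : β ≠ 0) : ∃ N : ℕ, ∀ p : ℕ, p.Prime → N < p → ∀ Q' : Ideal B, Q'.IsPrime →
      (p : B) ∈ Q' → ∃ Q : Ideal B, Q.IsPrime ∧ (p : B) ∈ Q ∧ β ∉ Q ∧ Q ≤ Q' := by
  classical
  have hfin := (Ideal.span {β}).finite_minimalPrimes_of_isNoetherianRing
  set P : Set ℕ := {p | p.Prime ∧ ∃ M ∈ (Ideal.span {β}).minimalPrimes, (p : B) ∈ M} with hP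
  have hPfin : P.Finite := by
    have h1 : ∀ p ∈ P, ∃ M ∈ (Ideal.span {β}).minimalPrimes, (p : B) ∈ M := fun p hp => hp.2
    choose! g hg using h1
    apply Set.Finite.of_finite_image (f := g)
    · apply hfin.subset
      rintro _ ⟨p, hp, rfl⟩
      exact (hg p hp).1
    · intro p hp q hq hpq
      by_contra hne
      have h2 := (hg p hp).2
      have h3 := (hg q hq).2
      rw [← hpq] at h3
      have hcop : IsCoprime (p : ℤ) (q : ℤ) :=
        Nat.isCoprime_iff_coprime.2 ((Nat.coprime_primes hp.1 hq.1).2 hne)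
      obtain ⟨u, v, huv⟩ := hcop
      have h4 : (1 : B) ∈ g p := by
        have h5 : (u : B) * (p : B) + (v : B) * (q : B) = 1 := by exact_mod_cast congrArg (Int.cast : ℤ → B) huv
        rw [← h5]
        exact (g p).add_mem ((g p).mul_mem_left _ h2) ((g p).mul_mem_left _ h3)
      exact ((hg p hp).1.1.1).ne_top ((Ideal.eq_top_iff_one _).2 h4)
  obtain ⟨N, hN⟩ := hPfin.bddAbove
  refine ⟨N, ?_⟩
  intro p hp hNp Q' hQ' hpQ'
  obtain ⟨Q, hQmin, hQQ'⟩ := Ideal.exists_minimalPrimes_le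
    ((Ideal.span_singleton_le_iff_mem (I := Q')).2 hpQ')
  have hQprime : Q.IsPrime := hQmin.1.1
  have hpQ : (p : B) ∈ Q := (Ideal.span_singleton_le_iff_mem (I := Q)).1 hQmin.1.2
  refine ⟨Q, hQprime, hpQ, ?_, hQQ'⟩
  intro hβQ
  have hh : Q.height ≤ 1 :=
    Ideal.height_le_one_of_isPrincipal_of_mem_minimalPrimes (Ideal.span {(p : B)}) Q hQmin
  obtain ⟨Q0, hQ0min, hQ0Q⟩ := Ideal.exists_minimalPrimes_le
    ((Ideal.span_singleton_le_iff_mem (I := Q)).2 hβQ)
  have hQ0prime : Q0.IsPrime := hQ0min.1.1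
  have hβQ0 : β ∈ Q0 := (Ideal.span_singleton_le_iff_mem (I := Q0)).1 hQ0min.1.2
  by_cases heq : Q0 = Q
  · subst heq
    have : p ∈ P := ⟨hp, Q0, hQ0min, hpQ⟩
    have := hN this
    omega
  · have hlt : Q0 < Q := lt_of_le_of_ne hQ0Q heq
    have hbot : (⊥ : Ideal B) < Q0 := by
      rw [bot_lt_iff_ne_bot]
      rintro rfl
      exact hβ ((Ideal.mem_bot).1 hβQ0)
    have h1 := Ideal.height_add_one_le_of_lt_of_isPrime hbot
    have h2 := Ideal.height_add_one_le_of_lt_of_isPrime hlt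
    rw [Ideal.height_bot] at h1
    have h3 : (1 : ℕ∞) + 1 ≤ 1 := by
      calc (1 : ℕ∞) + 1 = (0 + 1) + 1 := by rw [zero_add]
        _ ≤ Q0.height + 1 := by gcongr
        _ ≤ Q.height := h2
        _ ≤ 1 := hh
    exact absurd h3 (by decide)

end MPadc574
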