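import Mathlib

/-! # Existence of a valuation of maximal rational rank -/

namespace MPadc574

noncomputable section

variable {K : Type*} [Field K] [CharZero K] {r : ℕ} (x : Fin r → K)

/-- Laurent monomials. -/
def mon (m : Lex (Fin r → ℤ)) : K := ∏ t, x t ^ (ofLex m t)

omit [CharZero K] in
theorem mon_zero : mon x 0 = 1 := by
  unfold mon
  apply Finset.prod_eq_one
  intro t _
  exact zpow_zero _

omit [CharZero K] in
theorem mon_add (hx0 : ∀ t, x t ≠ 0) (m m' : Lex (Fin r → ℤ)) :
    mon x (m + m') = mon x m * mon x m' := by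
  unfold mon
  rw [← Finset.prod_mul_distrib]
  apply Finset.prod_congr rfl
  intro t _
  rw [ofLex_add, Pi.add_apply, zpow_add₀ (hx0 t)]

theorem linearIndependent_mon (hx : AlgebraicIndependent ℚ x) (hx0 : ∀ t, x t ≠ 0) :
    LinearIndependent ℚ (mon x) := by
  classical
  rw [linearIndependent_iff']
  intro s c hsum m0 hm0
  set N : ℕ := ∑ m ∈ s, ∑ t, (ofLex m t).natAbs with hN
  have hNb : ∀ m ∈ s, ∀ t, 0 ≤ ofLex m t + N := by
    intro m hm t
    have h1 : (ofLex m t).natAbs ≤ N := by
      calc (ofLex m t).natAbs ≤ ∑ t, (ofLex m t).natAbs :=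
            Finset.single_le_sum (f := fun t => (ofLex m t).natAbs) (fun _ _ => Nat.zero_le _)
              (Finset.mem_univ t)
        _ ≤ N := Finset.single_le_sum (f := fun m => ∑ t, (ofLex m t).natAbs)
              (fun _ _ => Nat.zero_le _) hm
    omega
  let E : Lex (Fin r → ℤ) → (Fin r →₀ ℕ) := fun m =>
    Finsupp.equivFunOnFinite.symm (fun t => (ofLex m t + N).toNat)
  have hE : ∀ m t, E m t = (ofLex m t + N).toNat := fun m t => rfl
  have hEinj : ∀ m ∈ s, ∀ m' ∈ s, E m = E m' → m = m' := by
    intro m hm m' hm' h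
    apply ofLex.injective
    funext t
    have h1 : E m t = E m' t := by rw [h]
    rw [hE, hE] at h1
    have h2 := hNb m hm t
    have h3 := hNb m' hm' t
    omega
  set F : MvPolynomial (Fin r) ℚ := ∑ m ∈ s, MvPolynomial.monomial (E m) (c m) with hF
  have haev : MvPolynomial.aeval x F = 0 := by
    rw [hF, map_sum]
    have h1 : ∀ m ∈ s, MvPolynomial.aeval x (MvPolynomial.monomial (E m) (c m)) =
        (∏ t, x t ^ N) * (c m • mon x m) := by
      intro m hm
      rw [MvPolynomial.aeval_monomial, Finsupp.prod_fintype _ _ (fun t => pow_zero _),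
        Algebra.smul_def, mul_left_comm, mon, ← Finset.prod_mul_distrib]
      congr 1
      apply Finset.prod_congr rfl
      intro t _
      rw [hE, ← zpow_natCast, ← zpow_natCast, ← zpow_add₀ (hx0 t)]
      congr 1
      have h2 := hNb m hm t
      omega
    rw [Finset.sum_congr rfl h1, ← Finset.mul_sum, hsum, mul_zero]
  have hF0 : F = 0 := by
    rw [algebraicIndependent_iff] at hx
    exact hx F haev
  have h3 := congrArg (MvPolynomial.coeff (E m0)) hF0
  rw [hF, MvPolynomial.coeff_sum, MvPolynomial.coeff_zero] at h3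
  rw [Finset.sum_eq_single m0] at h3
  · rwa [MvPolynomial.coeff_monomial, if_pos rfl] at h3
  · intro m hm hne
    rw [MvPolynomial.coeff_monomial, if_neg]
    intro h
    exact hne (hEinj m hm m0 hm0 h)
  · intro h
    exact absurd hm0 h

/-- The nonnegative cone. -/
def cone (r : ℕ) : AddSubmonoid (Lex (Fin r → ℤ)) where
  carrier := {m | 0 ≤ m}
  zero_mem' := by
    rw [Set.mem_ofPred_eq]
  add_mem' := by
    intro a b ha hb
    rw [Set.mem_ofPred_eq] at ha hb ⊢
    exact add_nonneg ha hb

theorem mem_cone {r : ℕ} {m : Lex (Fin r → ℤ)} : m ∈ cone r ↔ 0 ≤ m := Iff.rfl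

theorem exists_valuation (hx : AlgebraicIndependent ℚ x) :
    ∃ V : ValuationSubring K, (∀ q : ℚ, (q : K) ∈ V) ∧
      ∀ c : Fin r → ℤ, c ≠ 0 → V.valuation (∏ t, x t ^ c t) ≠ 1 := by
  classical
  have hx0 : ∀ t, x t ≠ 0 := fun t => hx.ne_zero t
  let φm : Multiplicative (cone r) →* K :=
    { toFun := fun m => mon x (Multiplicative.toAdd m : cone r).1
      map_one' := mon_zero x
      map_mul' := fun a b => mon_add x hx0 _ _ }
  let φ : AddMonoidAlgebra ℚ (cone r) →ₐ[ℚ] K := AddMonoidAlgebra.lift ℚ K (cone r) φm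
  have hφs : ∀ (m : cone r) (q : ℚ), φ (AddMonoidAlgebra.single m q) = q • mon x m.1 := by
    intro m q
    simp only [φ, AddMonoidAlgebra.lift_single]
    rfl
  have hφinj : Function.Injective φ := by
    rw [injective_iff_map_eq_zero]
    intro f hf
    have hli : LinearIndependent ℚ (fun m : cone r => mon x m.1) :=
      (linearIndependent_mon x hx hx0).comp _ Subtype.val_injective
    rw [linearIndependent_iff] at hli
    have h1 : f.coeff = 0 := by
      apply hli
      rw [Finsupp.linearCombination_apply]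
      rw [← hf]
      simp only [φ, AddMonoidAlgebra.lift_apply]
      rfl
    exact AddMonoidAlgebra.coeff_eq_zero.1 h1
  -- the constant term
  let εm : Multiplicative (cone r) →* ℚ :=
    { toFun := fun m => if (Multiplicative.toAdd m : cone r).1 = 0 then 1 else 0
      map_one' := by simp
      map_mul' := by
        intro a b
        have ha : (0 : Lex (Fin r → ℤ)) ≤ (Multiplicative.toAdd a : cone r).1 :=
          mem_cone.1 (Multiplicative.toAdd a : cone r).2
        have hb : (0 : Lex (Fin r → ℤ)) ≤ (Multiplicative.toAdd b : cone r).1 :=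
          mem_cone.1 (Multiplicative.toAdd b : cone r).2
        have h1 : (Multiplicative.toAdd (a * b) : cone r).1 =
          (Multiplicative.toAdd a : cone r).1 + (Multiplicative.toAdd b : cone r).1 := rfl
        rw [h1]
        by_cases h2 : (Multiplicative.toAdd a : cone r).1 = 0
        · by_cases h3 : (Multiplicative.toAdd b : cone r).1 = 0
          · simp [h2, h3]
          · simp [h2, h3]
        · rw [if_neg h2, if_neg, zero_mul]
          intro h3
          apply h2
          exact ((add_eq_zero_iff_of_nonneg ha hb).1 h3).1 }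
  let ε : AddMonoidAlgebra ℚ (cone r) →ₐ[ℚ] ℚ := AddMonoidAlgebra.lift ℚ ℚ (cone r) εm
  have hεs : ∀ (m : cone r) (q : ℚ), ε (AddMonoidAlgebra.single m q) =
      q • (if m.1 = 0 then (1 : ℚ) else 0) := by
    intro m q
    simp only [ε, AddMonoidAlgebra.lift_single]
    rfl
  set J : Ideal (AddMonoidAlgebra ℚ (cone r)) := RingHom.ker (ε : AddMonoidAlgebra ℚ (cone r) →+* ℚ)
    with hJ
  have hJne : J ≠ ⊤ := RingHom.ker_ne_top _
  have hφinj' : Function.Injective (φ : AddMonoidAlgebra ℚ (cone r) →+* K) := hφinj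
  let e : AddMonoidAlgebra ℚ (cone r) ≃+* (φ : AddMonoidAlgebra ℚ (cone r) →+* K).range :=
    RingEquiv.ofBijective (φ : AddMonoidAlgebra ℚ (cone r) →+* K).rangeRestrict
      ⟨fun a b h => hφinj' (congrArg Subtype.val h), RingHom.rangeRestrict_surjective _⟩
  set I : Ideal (φ : AddMonoidAlgebra ℚ (cone r) →+* K).range :=
    Ideal.comap (e.symm : (φ : AddMonoidAlgebra ℚ (cone r) →+* K).range →+* _) J with hI
  have hIne : I ≠ ⊤ := Ideal.comap_ne_top _ hJne
  obtain ⟨V, hV1, hV2⟩ := Ideal.image_subset_nonunits_valuationSubring I hIne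
  have hpos : ∀ m : Lex (Fin r → ℤ), 0 < m → V.valuation (mon x m) < 1 := by
    intro m hm
    have h1 : mon x m ∈ V.nonunits := by
      apply hV2
      refine ⟨e (AddMonoidAlgebra.single (⟨m, mem_cone.2 hm.le⟩ : cone r) 1), ?_, ?_⟩
      · rw [hI]
        change e.symm (e _) ∈ J
        rw [RingEquiv.symm_apply_apply, hJ, RingHom.mem_ker]
        change ε _ = 0
        rw [hεs, if_neg hm.ne', smul_zero]
      · change φ _ = _
        rw [hφs, one_smul]
    exact (ValuationSubring.mem_nonunits_iff V).1 h1
  refine ⟨V, ?_, ?_⟩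
  · intro q
    apply hV1
    refine ⟨algebraMap ℚ _ q, ?_⟩
    change φ _ = _
    rw [AlgHom.commutes]
    simp
  · intro c hc h1
    have hm : (toLex c : Lex (Fin r → ℤ)) ≠ 0 := by
      intro h
      apply hc
      exact toLex.injective h
    have hmc : mon x (toLex c) = ∏ t, x t ^ c t := rfl
    rw [← hmc] at h1
    rcases lt_or_gt_of_ne hm with h | h
    · have h2 := hpos (-(toLex c)) (neg_pos.2 h)
      have h3 : mon x (toLex c + -(toLex c)) = mon x (toLex c) * mon x (-(toLex c)) :=
        mon_add x hx0 _ _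
      rw [add_neg_cancel, mon_zero] at h3
      have h4 := congrArg V.valuation h3
      rw [map_one, map_mul, h1, one_mul] at h4
      rw [← h4] at h2
      exact lt_irrefl _ h2
    · have h2 := hpos _ h
      rw [h1] at h2
      exact lt_irrefl _ h2

end

end MPadc574
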