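import Mathlib
import Pool.Agent.Lib.MP_adc574_ag.Cartier
import Pool.Agent.Lib.MP_adc574_ag.CharSum

/-! # The key lemma over the residue field -/

namespace MPadc574

open Polynomial

noncomputable section

variable {p : ℕ} [Fact p.Prime] {κ : Type*} [Field κ] [CharP κ p]

omit [CharP κ p] in
theorem piece_two (hp2 : p ≠ 2) (a b : κ) (q : κ[X]) (hq : q ≠ 0) (hdeg : q.natDegree = 0) :
    cop p (((X - C a) * (X - C b)) ^ ((p - 1) / 2) * q) ≠ 0 := by
  have hp : 0 < p := (Fact.out : p.Prime).pos
  have hodd : p % 2 = 1 := by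
    rcases (Fact.out : p.Prime).eq_two_or_odd with h | h
    · exact absurd h hp2
    · exact h
  intro h
  rw [cop_eq_zero_iff hp] at h
  have h0 := h 0
  rw [eq_C_of_natDegree_eq_zero hdeg, mul_comm, coeff_C_mul] at h0
  rcases mul_eq_zero.1 h0 with h1 | h1
  · apply hq
    rw [eq_C_of_natDegree_eq_zero hdeg, h1, C_0]
  · have hm : (((X - C a) * (X - C b)) ^ ((p - 1) / 2) : κ[X]).Monic :=
      ((monic_X_sub_C a).mul (monic_X_sub_C b)).pow _
    have hd : (((X - C a) * (X - C b)) ^ ((p - 1) / 2) : κ[X]).natDegree = p - 1 := by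
      rw [natDegree_pow, natDegree_mul (X_sub_C_ne_zero _) (X_sub_C_ne_zero _), natDegree_X_sub_C,
        natDegree_X_sub_C]
      omega
    have h2 := hm.coeff_natDegree
    rw [hd] at h2
    rw [zero_add, mul_one, h2] at h1
    exact one_ne_zero h1

theorem piece_three (hp4 : p % 4 = 1) {a b c : ZMod p} (hab : a ≠ b) (hac : a ≠ c) (hbc : b ≠ c)
    (q : κ[X]) (hq : q ≠ 0) (hdeg : q.natDegree = 0) :
    cop p (((X - C (ZMod.castHom dvd_rfl κ a)) * (X - C (ZMod.castHom dvd_rfl κ b)) *
      (X - C (ZMod.castHom dvd_rfl κ c))) ^ ((p - 1) / 2) * q) ≠ 0 := by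
  have hp : 0 < p := (Fact.out : p.Prime).pos
  intro h
  rw [cop_eq_zero_iff hp] at h
  have h0 := h 0
  rw [eq_C_of_natDegree_eq_zero hdeg, mul_comm, coeff_C_mul] at h0
  rcases mul_eq_zero.1 h0 with h1 | h1
  · apply hq
    rw [eq_C_of_natDegree_eq_zero hdeg, h1, C_0]
  · have h2 := coeff_cubic_ne_zero hp4 hab hac hbc
    apply h2
    apply (ZMod.castHom dvd_rfl κ).injective
    rw [map_zero, ← coeff_map]
    rw [zero_add, mul_one] at h1
    rw [← h1]
    simp only [Polynomial.map_pow, Polynomial.map_mul, Polynomial.map_sub, map_X, map_C]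

theorem piece_four (hp4 : p % 4 = 1) {a b c d : ZMod p} (hab : a ≠ b) (hac : a ≠ c)
    (had : a ≠ d) (hbc : b ≠ c) (hbd : b ≠ d) (hcd : c ≠ d)
    (q : κ[X]) (hq : q ≠ 0) (hdeg : q.natDegree ≤ 1) :
    cop p (((X - C (ZMod.castHom dvd_rfl κ a)) * (X - C (ZMod.castHom dvd_rfl κ b)) *
      (X - C (ZMod.castHom dvd_rfl κ c)) * (X - C (ZMod.castHom dvd_rfl κ d))) ^ ((p - 1) / 2)
        * q) ≠ 0 := by
  have hp : 0 < p := (Fact.out : p.Prime).pos
  intro h
  rw [cop_eq_zero_iff hp] at h
  set F : κ[X] := ((X - C (ZMod.castHom dvd_rfl κ a)) * (X - C (ZMod.castHom dvd_rfl κ b)) *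
      (X - C (ZMod.castHom dvd_rfl κ c)) * (X - C (ZMod.castHom dvd_rfl κ d))) ^ ((p - 1) / 2)
    with hF
  have hm : F.Monic := ((((monic_X_sub_C _).mul (monic_X_sub_C _)).mul (monic_X_sub_C _)).mul
    (monic_X_sub_C _)).pow _
  have hd : F.natDegree = 2 * (p - 1) := by
    rw [hF, natDegree_pow, natDegree_mul (by simp [X_sub_C_ne_zero]) (X_sub_C_ne_zero _),
      natDegree_mul (by simp [X_sub_C_ne_zero]) (X_sub_C_ne_zero _),
      natDegree_mul (X_sub_C_ne_zero _) (X_sub_C_ne_zero _), natDegree_X_sub_C,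
        natDegree_X_sub_C, natDegree_X_sub_C, natDegree_X_sub_C]
    omega
  -- first show `natDegree q = 0`
  have hq0 : q.natDegree = 0 := by
    by_contra hcon
    have hq1 : q.natDegree = 1 := by omega
    have h1 := h 1
    have h2 : p * (1 + 1) - 1 = F.natDegree + q.natDegree := by
      rw [hd, hq1]
      omega
    rw [h2, coeff_mul_degree_add_degree, hm.leadingCoeff, one_mul, leadingCoeff_eq_zero] at h1
    exact hq h1
  have h0 := h 0
  rw [eq_C_of_natDegree_eq_zero hq0, mul_comm, coeff_C_mul] at h0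
  rcases mul_eq_zero.1 h0 with h1 | h1
  · apply hq
    rw [eq_C_of_natDegree_eq_zero hq0, h1, C_0]
  · have h2 := coeff_quartic_ne_zero hp4 hab hac had hbc hbd hcd
    apply h2
    apply (ZMod.castHom dvd_rfl κ).injective
    rw [map_zero, ← coeff_map]
    rw [zero_add, mul_one] at h1
    rw [← h1, hF]
    simp only [Polynomial.map_pow, Polynomial.map_mul, Polynomial.map_sub, map_X, map_C]

/-- The polynomial with a given multiset of roots. -/
def mpoly (M : Multiset κ) : κ[X] := (M.map (fun c => X - C c)).prod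

theorem eval_mpoly_ne_zero {M : Multiset κ} {c : κ} (h : c ∉ M) : (mpoly M).eval c ≠ 0 := by
  unfold mpoly
  rw [eval_multiset_prod, Multiset.map_map]
  intro h0
  rw [Multiset.prod_eq_zero_iff, Multiset.mem_map] at h0
  obtain ⟨d, hd, hd2⟩ := h0
  simp only [Function.comp, eval_sub, eval_X, eval_C] at hd2
  rw [sub_eq_zero] at hd2
  rw [hd2] at h
  exact h hd

theorem piece [DecidableEq κ] (hp4 : p % 4 = 1) : ∀ (N : ℕ) (M : Multiset κ), M.card = N →
    (∀ c ∈ M, ∃ z : ZMod p, ZMod.castHom dvd_rfl κ z = c) →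
    (∀ s : Finset κ, (∀ c ∈ s, c ∈ M) → s.card ≤ 4) → ∀ (q : κ[X]), q ≠ 0 →
    (∀ c, M.count c ≤ 2 * q.rootMultiplicity c + 2) → 2 * q.natDegree + 2 ≤ M.card →
    cop p ((mpoly M) ^ ((p - 1) / 2) * q) ≠ 0 := by
  have hp2 : p ≠ 2 := by
    rintro rfl
    norm_num at hp4
  have hp : 0 < p := (Fact.out : p.Prime).pos
  intro N
  induction N using Nat.strong_induction_on with
  | _ N ih =>
  intro M hN hM h4 q hq hroot hdeg hcop
  by_cases hnd : M.Nodup
  · have hcard : M.card ≤ 4 := by
      rw [← Multiset.toFinset_card_of_nodup hnd]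
      exact h4 _ (fun c hc => Multiset.mem_toFinset.1 hc)
    have h2 : M.card = 2 ∨ M.card = 3 ∨ M.card = 4 := by omega
    rcases h2 with h2 | h3 | h4'
    · obtain ⟨a, b, rfl⟩ := Multiset.card_eq_two.1 h2
      apply piece_two hp2 a b q hq (by omega)
      simpa [mpoly] using hcop
    · obtain ⟨a, b, c, rfl⟩ := Multiset.card_eq_three.1 h3
      obtain ⟨a, rfl⟩ := hM a (by simp)
      obtain ⟨b, rfl⟩ := hM b (by simp)
      obtain ⟨c, rfl⟩ := hM c (by simp)
      simp only [Multiset.insert_eq_cons, Multiset.nodup_cons, Multiset.mem_cons,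
        Multiset.mem_singleton, not_or, Multiset.nodup_singleton, and_true] at hnd
      obtain ⟨⟨hab, hac⟩, hbc⟩ := hnd
      have hab' : a ≠ b := fun h => hab (by rw [h])
      have hac' : a ≠ c := fun h => hac (by rw [h])
      have hbc' : b ≠ c := fun h => hbc (by rw [h])
      apply piece_three (κ := κ) hp4 hab' hac' hbc' q hq (by omega)
      simpa [mpoly, mul_assoc] using hcop
    · obtain ⟨a, ha⟩ := Multiset.card_pos_iff_exists_mem.1 (by omega : 0 < M.card)
      obtain ⟨M', rfl⟩ := Multiset.exists_cons_of_mem ha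
      have hM' : M'.card = 3 := by
        rw [Multiset.card_cons] at h4'
        omega
      obtain ⟨b, c, d, rfl⟩ := Multiset.card_eq_three.1 hM'
      obtain ⟨a, rfl⟩ := hM a (by simp)
      obtain ⟨b, rfl⟩ := hM b (by simp)
      obtain ⟨c, rfl⟩ := hM c (by simp)
      obtain ⟨d, rfl⟩ := hM d (by simp)
      simp only [Multiset.insert_eq_cons, Multiset.nodup_cons, Multiset.mem_cons,
        Multiset.mem_singleton, not_or, Multiset.nodup_singleton, and_true] at hnd
      obtain ⟨⟨hab, hac, had⟩, ⟨hbc, hbd⟩, hcd⟩ := hnd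
      have hab' : a ≠ b := fun h => hab (by rw [h])
      have hac' : a ≠ c := fun h => hac (by rw [h])
      have had' : a ≠ d := fun h => had (by rw [h])
      have hbc' : b ≠ c := fun h => hbc (by rw [h])
      have hbd' : b ≠ d := fun h => hbd (by rw [h])
      have hcd' : c ≠ d := fun h => hcd (by rw [h])
      apply piece_four (κ := κ) hp4 hab' hac' had' hbc' hbd' hcd' q hq (by omega)
      simpa [mpoly, mul_assoc] using hcop
  · rw [Multiset.nodup_iff_ne_cons_cons] at hnd
    push Not at hnd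
    obtain ⟨c, M', hMM'⟩ := hnd
    subst hMM'
    have hodd : p % 2 = 1 := by omega
    have he : 2 * ((p - 1) / 2) = p - 1 := by omega
    have hprod : (mpoly (c ::ₘ c ::ₘ M')) ^ ((p - 1) / 2) * q =
        (X - C c) ^ (p - 1) * ((mpoly M') ^ ((p - 1) / 2) * q) := by
      unfold mpoly
      rw [Multiset.map_cons, Multiset.map_cons, Multiset.prod_cons, Multiset.prod_cons,
        ← mul_assoc, ← pow_two, mul_pow, ← pow_mul, he, mul_assoc]
    rw [hprod] at hcop
    have hqc : q.eval c = 0 := by
      by_cases hc : c ∈ M'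
      · have h1 := hroot c
        rw [Multiset.count_cons_self, Multiset.count_cons_self] at h1
        have h2 : 0 < M'.count c := Multiset.count_pos.2 hc
        have h3 : 0 < q.rootMultiplicity c := by omega
        exact (rootMultiplicity_pos hq).1 h3
      · have h1 := eval_eq_zero_of_cop hcop
        rw [eval_mul, eval_pow] at h1
        rcases mul_eq_zero.1 h1 with h2 | h2
        · exact absurd h2 (pow_ne_zero _ (eval_mpoly_ne_zero hc))
        · exact h2
    obtain ⟨q', rfl⟩ := dvd_iff_isRoot.2 hqc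
    have hq' : q' ≠ 0 := right_ne_zero_of_mul hq
    have hcop' : cop p ((mpoly M') ^ ((p - 1) / 2) * q') = 0 := by
      apply cop_of_mul_pow (α := c)
      rw [← hcop]
      congr 1
      have : (X - C c) ^ p = (X - C c) ^ (p - 1) * (X - C c) := by
        rw [← pow_succ]
        congr 1
        omega
      rw [this]
      ring
    have hdq : ((X - C c) * q').natDegree = q'.natDegree + 1 := by
      rw [natDegree_mul (X_sub_C_ne_zero _) hq', natDegree_X_sub_C, add_comm]
    refine ih M'.card ?_ M' rfl ?_ ?_ q' hq' ?_ ?_ hcop'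
    · rw [← hN]
      simp only [Multiset.card_cons]
      omega
    · intro d hd
      exact hM d (Multiset.mem_cons_of_mem (Multiset.mem_cons_of_mem hd))
    · intro s hs
      exact h4 s (fun d hd => Multiset.mem_cons_of_mem (Multiset.mem_cons_of_mem (hs d hd)))
    · intro d
      have h1 := hroot d
      rw [rootMultiplicity_mul hq] at h1
      by_cases hdc : d = c
      · subst hdc
        rw [Multiset.count_cons_self, Multiset.count_cons_self, rootMultiplicity_X_sub_C_self]
          at h1
        omega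
      · rw [Multiset.count_cons_of_ne hdc, Multiset.count_cons_of_ne hdc,
          rootMultiplicity_X_sub_C, if_neg hdc] at h1
        omega
    · rw [hdq] at hdeg
      simp only [Multiset.card_cons] at hdeg
      omega

end

end MPadc574
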