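import Mathlib
import Pool.Agent.Lib.MP_adc574_ag.Piece

/-! # The theorem over a valued field of characteristic `p` -/

namespace MPadc574

open Polynomial IsLocalRing

noncomputable section

variable {K : Type*} [Field K] (W : ValuationSubring K)

/-- Gauss norm of a polynomial. -/
def gn (q : K[X]) : W.ValueGroup := q.support.sup (fun m => W.valuation (q.coeff m))

theorem le_gn (q : K[X]) (m : ℕ) : W.valuation (q.coeff m) ≤ gn W q := by
  by_cases h : q.coeff m = 0
  · rw [h, map_zero]
    exact zero_le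
  · exact Finset.le_sup (f := fun m => W.valuation (q.coeff m)) (mem_support_iff.2 h)

theorem exists_gn {q : K[X]} (hq : q ≠ 0) :
    ∃ m, q.coeff m ≠ 0 ∧ W.valuation (q.coeff m) = gn W q := by
  obtain ⟨m, hm, h⟩ := Finset.exists_mem_eq_sup q.support (support_nonempty.2 hq)
    (fun m => W.valuation (q.coeff m))
  exact ⟨m, mem_support_iff.1 hm, h.symm⟩

theorem exists_primitive {q : K[X]} (hq : q ≠ 0) :
    ∃ b : K, b ≠ 0 ∧ W.valuation b = gn W q ∧
      ∃ Q : W[X], q = C b * Q.map W.subtype ∧ Q.map (residue W) ≠ 0 := by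
  obtain ⟨m, hm0, hm⟩ := exists_gn W hq
  refine ⟨q.coeff m, hm0, hm, ?_⟩
  have h1 : C (q.coeff m)⁻¹ * q ∈ lifts W.subtype := by
    rw [lifts_iff_coeff_lifts]
    intro n
    rw [coeff_C_mul]
    have h2 : (q.coeff m)⁻¹ * q.coeff n ∈ W := by
      rw [← W.valuation_le_one_iff, map_mul, map_inv₀, hm, ← hm,
        inv_mul_le_one₀ (by rw [zero_lt_iff]; exact (W.valuation.ne_zero_iff).2 hm0), hm]
      exact le_gn W q n
    exact ⟨⟨_, h2⟩, rfl⟩
  obtain ⟨Q, hQ⟩ := (mem_lifts _).1 h1
  refine ⟨Q, ?_, ?_⟩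
  · rw [hQ, ← mul_assoc, ← C_mul, mul_inv_cancel₀ hm0, C_1, one_mul]
  · intro h0
    have h3 : (Q.map (residue W)).coeff m = 0 := by rw [h0, coeff_zero]
    rw [coeff_map] at h3
    have h4 : Q.coeff m = 1 := by
      apply W.subtype_injective
      rw [map_one, ← coeff_map, hQ, coeff_C_mul, inv_mul_cancel₀ hm0]
    rw [h4, map_one] at h3
    exact one_ne_zero h3

theorem valuation_eq_one_of_residue {x : W} (h : residue W x ≠ 0) : W.valuation x = 1 := by
  rw [← W.valuation_eq_one_iff]
  rw [ne_eq, residue_eq_zero_iff] at h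
  exact notMem_maximalIdeal.1 h

theorem valuation_lt_one_of_residue {x : W} (h : residue W x = 0) : W.valuation x < 1 := by
  rw [← W.valuation_lt_one_iff]
  exact (residue_eq_zero_iff _).1 h

/-- Some Taylor coefficient of order at most the root multiplicity does not vanish. -/
theorem exists_taylor_coeff {κ : Type*} [Field κ] {q : κ[X]} (hq : q ≠ 0) (c : κ) :
    (taylor c q).coeff (q.rootMultiplicity c) ≠ 0 := by
  obtain ⟨h, hqh, hne⟩ := exists_eq_pow_rootMultiplicity_mul_and_not_dvd q hq c
  have h1 : taylor c q = X ^ (q.rootMultiplicity c) * taylor c h := by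
    conv_lhs => rw [hqh]
    rw [taylor_mul, taylor_pow]
    congr 2
    simp
  rw [h1, coeff_X_pow_mul', if_pos le_rfl, Nat.sub_self, taylor_coeff_zero]
  intro h0
  exact hne (dvd_iff_isRoot.2 h0)

/-- lower bound of the Gauss norm after an affine change of variables (child disc). -/
theorem child_bound {b : K} {Q : W[X]} (hQ : Q.map (residue W) ≠ 0) (γ : W) (τ : K)
    (c : ResidueField W) (hc : residue W γ = c) :
    W.valuation b * W.valuation τ ^ ((Q.map (residue W)).rootMultiplicity c) ≤
      gn W ((C b * Q.map W.subtype).comp (C (γ : K) + C τ * X)) := by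
  set m := (Q.map (residue W)).rootMultiplicity c with hm
  have h1 := exists_taylor_coeff hQ c
  rw [← hm] at h1
  have h2 : (taylor c (Q.map (residue W))) = (taylor γ Q).map (residue W) := by
    rw [← hc, taylor_apply, taylor_apply, Polynomial.map_comp]
    simp
  rw [h2, coeff_map] at h1
  have h3 := valuation_eq_one_of_residue W h1
  have h4 : ((C b * Q.map W.subtype).comp (C (γ : K) + C τ * X)).coeff m =
      b * ((taylor γ Q).coeff m : K) * τ ^ m := by
    have h5 : (C b * Q.map W.subtype).comp (C (γ : K) + C τ * X) =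
        (C b * (taylor γ Q).map W.subtype).comp (C τ * X) := by
      rw [taylor_apply, Polynomial.map_comp, mul_comp, mul_comp, comp_assoc]
      congr 1
      · simp
      · congr 1
        simp [add_comm]
    rw [h5, comp_C_mul_X_coeff, coeff_C_mul, coeff_map]
    rfl
  have h6 := le_gn W ((C b * Q.map W.subtype).comp (C (γ : K) + C τ * X)) m
  rw [h4, map_mul, map_mul, h3, mul_one, map_pow] at h6
  exact h6

/-- lower bound of the Gauss norm after a dilation (parent disc). -/
theorem parent_bound {b : K} {Q : W[X]} (hQ : Q.map (residue W) ≠ 0) (τ : K) :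
    W.valuation b * W.valuation τ ^ ((Q.map (residue W)).natDegree) ≤
      gn W ((C b * Q.map W.subtype).comp (C τ * X)) := by
  set m := (Q.map (residue W)).natDegree with hm
  have h1 : (Q.map (residue W)).coeff m ≠ 0 := by
    rw [hm, coeff_natDegree, leadingCoeff_ne_zero]
    exact hQ
  rw [coeff_map] at h1
  have h3 := valuation_eq_one_of_residue W h1
  have h4 : ((C b * Q.map W.subtype).comp (C τ * X)).coeff m = b * (Q.coeff m : K) * τ ^ m := by
    rw [comp_C_mul_X_coeff, coeff_C_mul, coeff_map]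
    rfl
  have h6 := le_gn W ((C b * Q.map W.subtype).comp (C τ * X)) m
  rw [h4, map_mul, map_mul, h3, mul_one, map_pow] at h6
  exact h6

/-- The arithmetic of both comparisons. -/
theorem arith_aux {Γ : Type*} [LinearOrderedCommGroupWithZero Γ] {B t r R G : Γ} {m n : ℕ}
    (hB : 0 < B) (ht : 0 < t) (hr : 0 < r) (hR : 0 < R)
    (hG : B * t ^ m ≤ G)
    (h : (G * (t * r)) ^ 2 / ((t * r) ^ n * R) ≤ (B * r) ^ 2 / (r ^ n * R)) :
    t ^ (2 * m + 2) ≤ t ^ n := by
  have hB0 := hB.ne'
  have ht0 := ht.ne'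
  have hr0 := hr.ne'
  have hR0 := hR.ne'
  have h5 : (0 : Γ) < (t * r) ^ n * R :=
    zero_lt_iff.2 (mul_ne_zero (pow_ne_zero _ (mul_ne_zero ht0 hr0)) hR0)
  have h6 : (0 : Γ) < r ^ n * R := zero_lt_iff.2 (mul_ne_zero (pow_ne_zero _ hr0) hR0)
  have h7 : (0 : Γ) < (B * r) ^ 2 * (r ^ n * R) :=
    zero_lt_iff.2 (mul_ne_zero (pow_ne_zero _ (mul_ne_zero hB0 hr0)) h6.ne')
  rw [div_le_div_iff₀ h5 h6] at h
  have h2 : (B * t ^ m * (t * r)) ^ 2 * (r ^ n * R) ≤ (B * r) ^ 2 * ((t * r) ^ n * R) := by
    refine le_trans ?_ h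
    gcongr
  have e1 : (B * t ^ m * (t * r)) ^ 2 * (r ^ n * R) = (B * r) ^ 2 * (r ^ n * R) * t ^ (2 * m + 2) := by
    rw [pow_add, pow_mul', mul_pow, mul_pow, mul_pow, mul_pow]
    generalize (t ^ m) ^ 2 = x
    generalize t ^ 2 = y
    generalize r ^ 2 = z
    generalize r ^ n = w
    generalize B ^ 2 = u
    ac_rfl
  have e2 : (B * r) ^ 2 * ((t * r) ^ n * R) = (B * r) ^ 2 * (r ^ n * R) * t ^ n := by
    rw [mul_pow t r n]
    ac_rfl
  rw [e1, e2] at h2
  exact (mul_le_mul_iff_right₀ h7).1 h2

/-- The arithmetic of the child comparison. -/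
theorem child_arith {Γ : Type*} [LinearOrderedCommGroupWithZero Γ] {B t r R G : Γ} {m n : ℕ}
    (hB : 0 < B) (ht : 0 < t) (ht1 : t < 1) (hr : 0 < r) (hR : 0 < R)
    (hG : B * t ^ m ≤ G)
    (h : (G * (t * r)) ^ 2 / ((t * r) ^ n * R) ≤ (B * r) ^ 2 / (r ^ n * R)) : n ≤ 2 * m + 2 := by
  by_contra hcon
  push Not at hcon
  exact absurd (arith_aux hB ht hr hR hG h) (not_le.2 (pow_lt_pow_right_of_lt_one₀ ht ht1 hcon))

theorem parent_arith {Γ : Type*} [LinearOrderedCommGroupWithZero Γ] {B t r R G : Γ} {m n : ℕ}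
    (hB : 0 < B) (ht1 : 1 < t) (hr : 0 < r) (hR : 0 < R)
    (hG : B * t ^ m ≤ G)
    (h : (G * (t * r)) ^ 2 / ((t * r) ^ n * R) ≤ (B * r) ^ 2 / (r ^ n * R)) : 2 * m + 2 ≤ n := by
  by_contra hcon
  push Not at hcon
  have ht : 0 < t := lt_trans zero_lt_one ht1
  exact absurd (arith_aux hB ht hr hR hG h) (not_le.2 (pow_lt_pow_right₀ ht1 hcon))

theorem charP_residue {p : ℕ} [Fact p.Prime] [CharP K p] : CharP (ResidueField W) p := by
  have h0 : ((p : ℕ) : W) = 0 := Subtype.ext (by push_cast; exact CharP.cast_eq_zero K p)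
  obtain ⟨r, hr⟩ := CharP.exists (ResidueField W)
  have h1 : ((p : ℕ) : ResidueField W) = 0 := by rw [← map_natCast (residue W) p, h0, map_zero]
  have h2 := (CharP.cast_eq_zero_iff (ResidueField W) r p).1 h1
  rcases (Nat.dvd_prime Fact.out).1 h2 with h | h
  · subst h
    exact absurd rfl (CharP.char_ne_one (ResidueField W) 1)
  · subst h
    exact hr

theorem valued {p : ℕ} [Fact p.Prime] [CharP K p] (hp4 : p % 4 = 1) {ι : Type*} (a : ι → K)
    (I : Finset ι) (hinj : ∀ i ∈ I, ∀ j ∈ I, a i = a j → i = j)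
    (hR : ∀ i ∈ I, ∀ j ∈ I, ∀ k ∈ I, i ≠ j → ∀ h : (a k - a i) / (a j - a i) ∈ W,
      ∃ n : ℕ, residue W ⟨_, h⟩ = (n : ResidueField W))
    (hE : ∀ (s : Finset ι) (γ : W.ValueGroup), s ⊆ I →
      (∀ i ∈ s, ∀ j ∈ s, i ≠ j → W.valuation (a i - a j) = γ) → s.card ≤ 4)
    (q : K[X]) (hq : q ≠ 0) (hdeg : 2 * q.natDegree + 2 ≤ I.card) :
    cop p ((∏ i ∈ I, (X - C (a i))) ^ ((p - 1) / 2) * q) ≠ 0 := by
  classical
  have hp : 0 < p := (Fact.out : p.Prime).pos
  intro hcop
  set v := W.valuation with hv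
  -- a maximal pair
  obtain ⟨⟨i, j⟩, hij, hmax⟩ := Finset.exists_max_image I.offDiag (fun x : ι × ι =>
    (gn W (q.comp (C (a x.1) + C (a x.2 - a x.1) * X)) * v (a x.2 - a x.1)) ^ 2 /
      ∏ k ∈ I, max (v (a x.2 - a x.1)) (v (a k - a x.1))) (by
      obtain ⟨x, hx, y, hy, hxy⟩ := Finset.one_lt_card.1 (by omega : 1 < I.card)
      exact ⟨(x, y), Finset.mem_offDiag.2 ⟨hx, hy, hxy⟩⟩)
  rw [Finset.mem_offDiag] at hij
  obtain ⟨hi, hj, hne⟩ := hij
  simp only at hmax hi hj hne
  set ρ := a j - a i with hρ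
  have hρ0 : ρ ≠ 0 := by
    intro h
    exact hne (hinj i hi j hj (sub_eq_zero.1 h).symm)
  have hvρ : 0 < v ρ := zero_lt_iff.2 ((v.ne_zero_iff).2 hρ0)
  -- the transformed polynomial
  have hqc : q.comp (C (a i) + C ρ * X) ≠ 0 := by
    intro h
    rcases comp_eq_zero_iff.1 h with h1 | h1
    · exact hq h1
    · have h2 := congrArg (fun P => coeff P 1) h1.2
      simp at h2
      exact hρ0 h2
  obtain ⟨b, hb0, hb, Q, hQ, hQ0⟩ := exists_primitive W hqc
  have hvb : 0 < v b := zero_lt_iff.2 ((v.ne_zero_iff).2 hb0)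
  have hmemv : ∀ k, (a k - a i) / ρ ∈ W ↔ v (a k - a i) ≤ v ρ := by
    intro k
    rw [← W.valuation_le_one_iff, map_div₀, div_le_one₀ hvρ]
  have hdec : ∀ k, ∃ (l : K) (t : W[X]), C (a i - a k) + C ρ * X = C l * t.map W.subtype ∧
      l ≠ 0 ∧ (∀ h : (a k - a i) / ρ ∈ W, t.map (residue W) = X - C (residue W ⟨_, h⟩)) ∧
      ((a k - a i) / ρ ∉ W → t.map (residue W) = 1) := by
    intro k
    by_cases h : (a k - a i) / ρ ∈ W
    · refine ⟨ρ, X - C ⟨_, h⟩, ?_, hρ0, ?_, ?_⟩
      · rw [Polynomial.map_sub, map_X, map_C, mul_sub, ← C_mul]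
        have : ρ * W.subtype ⟨_, h⟩ = a k - a i := by
          rw [W.subtype_apply]
          exact mul_div_cancel₀ _ hρ0
        rw [this]
        simp only [C_sub]
        ring
      · intro h'
        simp
      · intro h'
        exact absurd h h'
    · have h1 : v ρ < v (a k - a i) := by
        rw [hmemv] at h
        exact not_le.1 h
      have hk0 : a k - a i ≠ 0 := by
        intro h0
        rw [h0, map_zero] at h1
        exact not_lt_zero h1
      have hk0' : a i - a k ≠ 0 := by
        intro h0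
        apply hk0
        linear_combination -h0
      have h2 : v (ρ / (a i - a k)) < 1 := by
        rw [map_div₀, ← v.map_neg (a i - a k), neg_sub, div_lt_one₀ (lt_trans hvρ h1)]
        exact h1
      have h3 : ρ / (a i - a k) ∈ W := (W.valuation_le_one_iff _).1 h2.le
      refine ⟨a i - a k, 1 + C ⟨_, h3⟩ * X, ?_, hk0', ?_, ?_⟩
      · rw [Polynomial.map_add, Polynomial.map_one, Polynomial.map_mul, map_X, map_C, mul_add,
          mul_one, ← mul_assoc, ← C_mul]
        have : (a i - a k) * W.subtype ⟨_, h3⟩ = ρ := by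
          rw [W.subtype_apply]
          exact mul_div_cancel₀ _ hk0'
        rw [this]
      · intro h'
        exact absurd h' h
      · intro _
        have h4 : residue W ⟨_, h3⟩ = 0 := by
          rw [residue_eq_zero_iff, W.valuation_lt_one_iff]
          exact h2
        rw [Polynomial.map_add, Polynomial.map_one, Polynomial.map_mul, map_X, map_C, h4]
        simp
  choose l t hlt hl0 ht1 ht2 using hdec
  set D := I.filter (fun k => (a k - a i) / ρ ∈ W) with hD
  set c : ι → ResidueField W := fun k =>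
    if h : (a k - a i) / ρ ∈ W then residue W ⟨_, h⟩ else 0 with hc
  have : CharP (ResidueField W) p := charP_residue W
  -- reduction
  have hred : cop p ((∏ k ∈ D, (X - C (c k))) ^ ((p - 1) / 2) * Q.map (residue W)) = 0 := by
    have h1 := cop_comp_eq_zero hcop (a i) ρ hρ0
    have h2 : ((∏ k ∈ I, (X - C (a k))) ^ ((p - 1) / 2) * q).comp (C (a i) + C ρ * X) =
        C ((∏ k ∈ I, l k) ^ ((p - 1) / 2) * b) *
          ((∏ k ∈ I, t k) ^ ((p - 1) / 2) * Q).map W.subtype := by
      rw [mul_comp, pow_comp, hQ, prod_comp, Polynomial.map_mul, Polynomial.map_pow,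
        Polynomial.map_prod, C_mul, C_pow, map_prod]
      have h3 : ∏ k ∈ I, (X - C (a k)).comp (C (a i) + C ρ * X) =
          (∏ k ∈ I, C (l k)) * ∏ k ∈ I, (t k).map W.subtype := by
        rw [← Finset.prod_mul_distrib]
        apply Finset.prod_congr rfl
        intro k _
        rw [← hlt, sub_comp, X_comp, C_comp]
        simp only [C_sub]
        ring
      rw [h3]
      ring
    rw [h2, cop_C_mul hp, mul_eq_zero] at h1
    rcases h1 with h1 | h1
    · exfalso
      rw [C_eq_zero, mul_eq_zero] at h1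
      rcases h1 with h1 | h1
      · exact pow_ne_zero _ (Finset.prod_ne_zero_iff.2 (fun k _ => hl0 k)) h1
      · exact hb0 h1
    · rw [cop_map hp, Polynomial.map_eq_zero_iff W.subtype_injective] at h1
      have h4 : cop p (((∏ k ∈ I, t k) ^ ((p - 1) / 2) * Q).map (residue W)) = 0 := by
        rw [cop_map hp, h1, Polynomial.map_zero]
      rw [Polynomial.map_mul, Polynomial.map_pow, Polynomial.map_prod] at h4
      have h5 : ∏ k ∈ I, (t k).map (residue W) = ∏ k ∈ D, (X - C (c k)) := by
        rw [hD, Finset.prod_filter]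
        apply Finset.prod_congr rfl
        intro k _
        split_ifs with h
        · rw [ht1 k h, hc]
          simp only [dif_pos h]
        · rw [ht2 k h]
      rw [h5] at h4
      exact h4
  -- metric facts
  have hDmem : ∀ k, k ∈ D ↔ k ∈ I ∧ v (a k - a i) ≤ v ρ := by
    intro k
    rw [hD, Finset.mem_filter, hmemv]
  have hckm : ∀ k ∈ D, ∀ m ∈ D, ∃ x : W, (x : K) = (a k - a m) / ρ ∧ residue W x = c k - c m := by
    intro k hk m hm
    have hk' := (Finset.mem_filter.1 hk).2
    have hm' := (Finset.mem_filter.1 hm).2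
    refine ⟨⟨_, hk'⟩ - ⟨_, hm'⟩, ?_, ?_⟩
    · push_cast
      rw [← sub_div]
      congr 1
      ring
    · rw [map_sub, hc]
      simp only [dif_pos hk', dif_pos hm']
  have hne_c : ∀ k ∈ D, ∀ m ∈ D, c k ≠ c m → v (a k - a m) = v ρ := by
    intro k hk m hm hkm
    obtain ⟨x, hx, hx2⟩ := hckm k hk m hm
    have h1 := valuation_eq_one_of_residue W (x := x) (by rw [hx2]; exact sub_ne_zero.2 hkm)
    rw [hx, map_div₀] at h1
    exact (div_eq_one_iff_eq hvρ.ne').1 h1
  have heq_c : ∀ k ∈ D, ∀ m ∈ D, c k = c m → v (a k - a m) < v ρ := by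
    intro k hk m hm hkm
    obtain ⟨x, hx, hx2⟩ := hckm k hk m hm
    have h1 := valuation_lt_one_of_residue W (x := x) (by rw [hx2]; exact sub_eq_zero.2 hkm)
    rw [hx, map_div₀] at h1
    exact (div_lt_one₀ hvρ).1 h1
  have hmp : mpoly (D.val.map c) = ∏ k ∈ D, (X - C (c k)) := by
    unfold mpoly
    rw [Multiset.map_map]
    rfl
  refine piece hp4 (D.val.map c).card (D.val.map c) rfl ?_ ?_ (Q.map (residue W)) hQ0 ?_ ?_
    (by rw [hmp]; exact hred)
  · intro d hd
    rw [Multiset.mem_map] at hd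
    obtain ⟨k, hk, rfl⟩ := hd
    have hk' := (Finset.mem_filter.1 (show k ∈ D from hk))
    obtain ⟨n, hn⟩ := hR i hi j hj k hk'.1 hne hk'.2
    refine ⟨(n : ZMod p), ?_⟩
    rw [map_natCast, ← hn, hc]
    simp only [dif_pos hk'.2]
    rfl
  · intro s hs
    have h1 : ∀ d ∈ s, ∃ k ∈ D, c k = d := by
      intro d hd
      have := hs d hd
      rw [Multiset.mem_map] at this
      exact this
    have : Nonempty ι := ⟨i⟩
    choose! g hg using h1
    have hginj : Set.InjOn g s := by
      intro x hx y hy hxy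
      rw [← (hg x hx).2, ← (hg y hy).2, hxy]
    rw [← Finset.card_image_of_injOn hginj]
    apply hE (s.image g) (v ρ)
    · intro k hk
      obtain ⟨d, hd, rfl⟩ := Finset.mem_image.1 hk
      exact (Finset.mem_filter.1 (hg d hd).1).1
    · intro k hk m hm hkm
      obtain ⟨d, hd, rfl⟩ := Finset.mem_image.1 hk
      obtain ⟨e, he, rfl⟩ := Finset.mem_image.1 hm
      apply hne_c _ (hg d hd).1 _ (hg e he).1
      rw [(hg d hd).2, (hg e he).2]
      rintro rfl
      exact hkm rfl
  · -- multiplicities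
    intro d
    by_contra hcon
    push Not at hcon
    set E := D.filter (fun k => c k = d) with hEdef
    have hcount : (D.val.map c).count d = E.card := by
      rw [Multiset.count_map, hEdef, Finset.card_def, Finset.filter_val]
      congr 1
      apply Multiset.filter_congr
      intro x _
      exact eq_comm
    rw [hcount] at hcon
    obtain ⟨⟨k, l'⟩, hkl, hklmax⟩ := Finset.exists_max_image E.offDiag
      (fun x : ι × ι => v (a x.2 - a x.1)) (by
      obtain ⟨x, hx, y, hy, hxy⟩ := Finset.one_lt_card.1 (by omega : 1 < E.card)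
      exact ⟨(x, y), Finset.mem_offDiag.2 ⟨hx, hy, hxy⟩⟩)
    rw [Finset.mem_offDiag] at hkl
    obtain ⟨hk, hl', hkl⟩ := hkl
    simp only at hk hl' hkl hklmax
    have hkD := (Finset.mem_filter.1 hk).1
    have hlD := (Finset.mem_filter.1 hl').1
    have hkI := ((hDmem k).1 hkD).1
    have hlI := ((hDmem l').1 hlD).1
    set σ := a l' - a k with hσ
    have hσ0 : σ ≠ 0 := by
      intro h
      exact hkl (hinj k hkI l' hlI (sub_eq_zero.1 h).symm)
    have hvσ : 0 < v σ := zero_lt_iff.2 ((v.ne_zero_iff).2 hσ0)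
    have hσρ : v σ < v ρ := by
      apply heq_c l' hlD k hkD
      rw [(Finset.mem_filter.1 hl').2, (Finset.mem_filter.1 hk).2]
    have hmx := hmax (k, l') (Finset.mem_offDiag.2 ⟨hkI, hlI, hkl⟩)
    simp only at hmx
    rw [← hσ] at hmx
    have hEI : E ⊆ I := (Finset.filter_subset _ _).trans (Finset.filter_subset _ _)
    have hP1 : ∏ m ∈ I, max (v ρ) (v (a m - a i)) =
        v ρ ^ E.card * ∏ m ∈ I \ E, max (v ρ) (v (a m - a i)) := by
      rw [← Finset.prod_sdiff hEI, mul_comm, ← Finset.prod_const]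
      congr 1
      apply Finset.prod_congr rfl
      intro m hm
      exact max_eq_left ((hDmem m).1 (Finset.mem_filter.1 hm).1).2
    have hP2 : ∏ m ∈ I, max (v σ) (v (a m - a k)) =
        v σ ^ E.card * ∏ m ∈ I \ E, max (v ρ) (v (a m - a i)) := by
      rw [← Finset.prod_sdiff hEI, mul_comm, ← Finset.prod_const]
      congr 1
      · apply Finset.prod_congr rfl
        intro m hm
        apply max_eq_left
        by_cases hmk : k = m
        · rw [← hmk, sub_self, map_zero]
          exact zero_le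
        · exact hklmax (k, m) (Finset.mem_offDiag.2 ⟨hk, hm, hmk⟩)
      · apply Finset.prod_congr rfl
        intro m hm
        rw [Finset.mem_sdiff] at hm
        by_cases hmD : m ∈ D
        · have hcm : c m ≠ c k := by
            intro h
            apply hm.2
            rw [hEdef, Finset.mem_filter]
            exact ⟨hmD, by rw [h]; exact (Finset.mem_filter.1 hk).2⟩
          rw [hne_c m hmD k hkD hcm, max_eq_right hσρ.le,
            max_eq_left ((hDmem m).1 hmD).2]
        · have h1 : v ρ < v (a m - a i) := by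
            by_contra h
            exact hmD ((hDmem m).2 ⟨hm.1, not_lt.1 h⟩)
          have h2 : v (a k - a i) < v (a m - a i) := lt_of_le_of_lt ((hDmem k).1 hkD).2 h1
          have h3 : v (a m - a k) = v (a m - a i) := by
            have : a m - a k = (a m - a i) - (a k - a i) := by ring
            rw [this]
            rw [Valuation.map_sub_swap]
            exact Valuation.map_sub_eq_of_lt_right v h2
          rw [h3, max_eq_right h1.le, max_eq_right (hσρ.trans h1).le]
    have hRpos : 0 < ∏ m ∈ I \ E, max (v ρ) (v (a m - a i)) := by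
      rw [zero_lt_iff, Finset.prod_ne_zero_iff]
      intro m _
      exact (lt_of_lt_of_le hvρ (le_max_left _ _)).ne'
    rw [hP1, hP2, ← hb] at hmx
    have hkmem := (Finset.mem_filter.1 hkD).2
    have hck : residue W ⟨_, hkmem⟩ = d := by
      have h1 := (Finset.mem_filter.1 hk).2
      rw [← h1, hc]
      simp only [dif_pos hkmem]
    have hchild := child_bound W (b := b) hQ0 ⟨_, hkmem⟩ (σ / ρ) d hck
    have hcomp : (C b * Q.map W.subtype).comp
        (C (((⟨_, hkmem⟩ : W) : K)) + C (σ / ρ) * X) = q.comp (C (a k) + C σ * X) := by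
      rw [← hQ, comp_assoc]
      congr 1
      simp only [add_comp, C_comp, mul_comp, X_comp, mul_add, ← mul_assoc, ← C_mul]
      rw [mul_div_cancel₀ _ hρ0, mul_div_cancel₀ _ hρ0, ← add_assoc, ← C_add]
      congr 3
      ring
    rw [hcomp] at hchild
    have hts : v σ = v (σ / ρ) * v ρ := by
      rw [← map_mul, div_mul_cancel₀ _ hρ0]
    have ht01 : v (σ / ρ) < 1 := by
      rw [map_div₀]
      exact (div_lt_one₀ hvρ).2 hσρ
    have ht0 : 0 < v (σ / ρ) := zero_lt_iff.2 ((v.ne_zero_iff).2 (div_ne_zero hσ0 hρ0))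
    rw [hts] at hmx
    have := child_arith hvb ht0 ht01 hvρ hRpos hchild hmx
    omega
  · -- degree
    rw [Multiset.card_map]
    change _ ≤ D.card
    by_contra hcon
    push Not at hcon
    have hdegle : (Q.map (residue W)).natDegree ≤ q.natDegree := by
      have h1 : (q.comp (C (a i) + C ρ * X)).natDegree ≤ q.natDegree := by
        refine natDegree_comp_le.trans ?_
        have h2 : (C (a i) + C ρ * X).natDegree ≤ 1 := by compute_degree
        calc q.natDegree * (C (a i) + C ρ * X).natDegree ≤ q.natDegree * 1 :=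
              Nat.mul_le_mul_left _ h2
          _ = q.natDegree := mul_one _
      rw [hQ, natDegree_C_mul hb0, natDegree_map_eq_of_injective W.subtype_injective] at h1
      exact natDegree_map_le.trans h1
    have hDI : D ≠ I := by
      intro h
      rw [h] at hcon
      omega
    have hDsub : D ⊆ I := Finset.filter_subset _ _
    obtain ⟨l', hl', hlmin⟩ := Finset.exists_min_image (I \ D) (fun m => v (a m - a i)) (by
      rw [Finset.sdiff_nonempty]
      intro h
      exact hDI (Finset.Subset.antisymm hDsub h))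
    rw [Finset.mem_sdiff] at hl'
    have hout : ∀ m, m ∈ I → m ∉ D → v ρ < v (a m - a i) := by
      intro m hmI hmD
      by_contra h
      exact hmD ((hDmem m).2 ⟨hmI, not_lt.1 h⟩)
    set σ := a l' - a i with hσ
    have hρσ : v ρ < v σ := hout l' hl'.1 hl'.2
    have hvσ : 0 < v σ := lt_trans hvρ hρσ
    have hil : i ≠ l' := by
      rintro rfl
      rw [hσ, sub_self, map_zero] at hvσ
      exact lt_irrefl _ hvσ
    have hmx := hmax (i, l') (Finset.mem_offDiag.2 ⟨hi, hl'.1, hil⟩)
    simp only at hmx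
    rw [← hσ] at hmx
    have hP1 : ∏ m ∈ I, max (v ρ) (v (a m - a i)) =
        v ρ ^ D.card * ∏ m ∈ I \ D, max (v ρ) (v (a m - a i)) := by
      rw [← Finset.prod_sdiff hDsub, mul_comm, ← Finset.prod_const]
      congr 1
      apply Finset.prod_congr rfl
      intro m hm
      exact max_eq_left ((hDmem m).1 hm).2
    have hP2 : ∏ m ∈ I, max (v σ) (v (a m - a i)) =
        v σ ^ D.card * ∏ m ∈ I \ D, max (v ρ) (v (a m - a i)) := by
      rw [← Finset.prod_sdiff hDsub, mul_comm, ← Finset.prod_const]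
      congr 1
      · apply Finset.prod_congr rfl
        intro m hm
        exact max_eq_left (((hDmem m).1 hm).2.trans hρσ.le)
      · apply Finset.prod_congr rfl
        intro m hm
        rw [max_eq_right (hlmin m hm)]
        rw [Finset.mem_sdiff] at hm
        rw [max_eq_right (hout m hm.1 hm.2).le]
    have hRpos : 0 < ∏ m ∈ I \ D, max (v ρ) (v (a m - a i)) := by
      rw [zero_lt_iff, Finset.prod_ne_zero_iff]
      intro m _
      exact (lt_of_lt_of_le hvρ (le_max_left _ _)).ne'
    rw [hP1, hP2, ← hb] at hmx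
    have hpar := parent_bound W (b := b) hQ0 (σ / ρ)
    have hcomp : (C b * Q.map W.subtype).comp (C (σ / ρ) * X) = q.comp (C (a i) + C σ * X) := by
      rw [← hQ, comp_assoc]
      congr 1
      simp only [add_comp, C_comp, mul_comp, X_comp, ← mul_assoc, ← C_mul]
      rw [mul_div_cancel₀ _ hρ0]
    rw [hcomp] at hpar
    have hts : v σ = v (σ / ρ) * v ρ := by
      rw [← map_mul, div_mul_cancel₀ _ hρ0]
    have ht1 : 1 < v (σ / ρ) := by
      rw [map_div₀]
      exact (one_lt_div₀ hvρ).2 hρσ
    rw [hts] at hmx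
    have := parent_arith hvb ht1 hvρ hRpos hpar hmx
    omega

end

end MPadc574
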