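import Mathlib
import Pool.Agent.Lib.MP_adc574_ag.Valued
import Pool.Agent.Lib.MP_adc574_ag.Ultra
import Pool.Agent.Lib.MP_adc574_ag.ValExist
import Pool.Agent.Lib.MP_adc574_ag.Primes
import Pool.Agent.Lib.MP_adc574_ag.Krull

/-! # Specialisation to characteristic `p` -/

namespace MPadc574

open Polynomial IsLocalRing

noncomputable section

theorem finiteType_closure {K : Type*} [Field K] (T : Finset K) :
    Algebra.FiniteType ℤ (Subring.closure (T : Set K)) := by
  have h := Subalgebra.fg_adjoin_finset (R := ℤ) T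
  rw [Algebra.adjoin_int] at h
  exact (Subalgebra.fg_iff_finiteType _).1 h

theorem charZero_residue {K : Type*} [Field K] [CharZero K] (V : ValuationSubring K)
    (hV : ∀ q : ℚ, (q : K) ∈ V) : CharZero (ResidueField V) := by
  apply charZero_of_inj_zero
  intro n hn
  by_contra h0
  have h1 : residue V ((n : ℕ) : V) = 0 := by rw [map_natCast, hn]
  have h2 := valuation_lt_one_of_residue V h1
  have h3 : V.valuation ((((n : ℚ)⁻¹ : ℚ) : K)) ≤ 1 := (V.valuation_le_one_iff _).2 (hV _)
  have hnK : (n : K) ≠ 0 := by exact_mod_cast h0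
  have h4 : ((((n : ℕ) : V) : K)) * ((((n : ℚ)⁻¹ : ℚ) : K)) = 1 := by
    push_cast
    exact mul_inv_cancel₀ hnK
  have h5 := congrArg V.valuation h4
  rw [map_mul, map_one] at h5
  have h6 : V.valuation ((((n : ℕ) : V) : K)) * V.valuation ((((n : ℚ)⁻¹ : ℚ) : K)) < 1 :=
    mul_lt_one_of_lt_of_le h2 h3
  rw [h5] at h6
  exact lt_irrefl _ h6

theorem exists_denom {A K : Type*} [CommRing A] [Field K] [Algebra A K] (s : Finset A)
    (hs : Algebra.adjoin ℤ (s : Set A) = ⊤) (B : Subring K)
    (h : ∀ y ∈ s, algebraMap A K y ∈ B ∨ (algebraMap A K y)⁻¹ ∈ B) :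
    ∃ β0 ∈ B, β0 ≠ 0 ∧ ∀ y : A, ∃ m : ℕ, β0 ^ m * algebraMap A K y ∈ B := by
  classical
  let δ : A → K := fun y => if algebraMap A K y ∈ B then 1 else (algebraMap A K y)⁻¹
  have hδB : ∀ y ∈ s, δ y ∈ B := by
    intro y hy
    simp only [δ]
    split_ifs with h1
    · exact B.one_mem
    · exact (h y hy).resolve_left h1
  have hδ0 : ∀ y, δ y ≠ 0 := by
    intro y
    simp only [δ]
    split_ifs with h1
    · exact one_ne_zero
    · intro h2
      rw [inv_eq_zero] at h2
      rw [h2] at h1
      exact h1 B.zero_mem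
  have hδy : ∀ y, δ y * algebraMap A K y ∈ B := by
    intro y
    simp only [δ]
    split_ifs with h1
    · rwa [one_mul]
    · by_cases h2 : algebraMap A K y = 0
      · rw [h2, mul_zero]
        exact B.zero_mem
      · rw [inv_mul_cancel₀ h2]
        exact B.one_mem
  have hprodB : ∏ y ∈ s, δ y ∈ B := B.prod_mem hδB
  refine ⟨∏ y ∈ s, δ y, hprodB, Finset.prod_ne_zero_iff.2 (fun y _ => hδ0 y), ?_⟩
  intro y
  have hy : y ∈ Algebra.adjoin ℤ (s : Set A) := by rw [hs]; trivial
  induction hy using Algebra.adjoin_induction with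
  | mem x hx =>
    refine ⟨1, ?_⟩
    rw [pow_one, ← Finset.prod_erase_mul s δ hx, mul_assoc]
    exact B.mul_mem (B.prod_mem (fun z hz => hδB z (Finset.mem_of_mem_erase hz))) (hδy x)
  | algebraMap n =>
    refine ⟨0, ?_⟩
    rw [eq_intCast, map_intCast, pow_zero, one_mul]
    exact intCast_mem B n
  | add x y _ _ hx hy =>
    obtain ⟨m1, h1⟩ := hx
    obtain ⟨m2, h2⟩ := hy
    refine ⟨m1 + m2, ?_⟩
    rw [map_add, pow_add]
    have : (∏ y ∈ s, δ y) ^ m1 * (∏ y ∈ s, δ y) ^ m2 * (algebraMap A K x + algebraMap A K y) =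
        (∏ y ∈ s, δ y) ^ m2 * ((∏ y ∈ s, δ y) ^ m1 * algebraMap A K x) +
        (∏ y ∈ s, δ y) ^ m1 * ((∏ y ∈ s, δ y) ^ m2 * algebraMap A K y) := by ring
    rw [this]
    exact B.add_mem (B.mul_mem (B.pow_mem hprodB _) h1) (B.mul_mem (B.pow_mem hprodB _) h2)
  | mul x y _ _ hx hy =>
    obtain ⟨m1, h1⟩ := hx
    obtain ⟨m2, h2⟩ := hy
    refine ⟨m1 + m2, ?_⟩
    rw [map_mul, pow_add]
    have : (∏ y ∈ s, δ y) ^ m1 * (∏ y ∈ s, δ y) ^ m2 * (algebraMap A K x * algebraMap A K y) =
        ((∏ y ∈ s, δ y) ^ m1 * algebraMap A K x) * ((∏ y ∈ s, δ y) ^ m2 * algebraMap A K y) := by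
      ring
    rw [this]
    exact B.mul_mem h1 h2

theorem charP_of_cast_eq_zero {k : Type*} [Field k] {p : ℕ} (hp : p.Prime) (h : (p : k) = 0) :
    CharP k p := by
  obtain ⟨r, hr⟩ := CharP.exists k
  have h2 := (CharP.cast_eq_zero_iff k r p).1 h
  rcases (Nat.dvd_prime hp).1 h2 with h | h
  · subst h
    exact absurd rfl (CharP.char_ne_one k 1)
  · subst h
    exact hr

universe u v

theorem core {A : Type v} {K : Type u} [CommRing A] [IsDomain A] [Algebra.FiniteType ℤ A]
    [Field K] [Algebra A K] [CharZero K] (hAK : Function.Injective (algebraMap A K)) {n : ℕ}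
    (a : Fin n → A) (ha : Function.Injective a) {r : ℕ} (hr : n ≤ r + 4) (x : Fin r → K)
    (hxind : AlgebraicIndependent ℚ x)
    (hx : ∀ t, ∃ i j k l, i ≠ j ∧ x t =
      (algebraMap A K (a k) - algebraMap A K (a l)) / (algebraMap A K (a i) - algebraMap A K (a j)))
    (c : A) (hc : c ≠ 0) (N : ℕ) :
    ∃ p : ℕ, p.Prime ∧ N < p ∧ p % 4 = 1 ∧ ∃ (k : Type u) (_ : Field k) (_ : CharP k p) (φ : A →+* k),
      φ c ≠ 0 ∧ ∀ I : Finset (Fin n), (∀ i ∈ I, ∀ j ∈ I, φ (a i) = φ (a j) → i = j) →
        ∀ q : k[X], q ≠ 0 → 2 * q.natDegree + 2 ≤ I.card →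
          cop p ((∏ i ∈ I, (X - C (φ (a i)))) ^ ((p - 1) / 2) * q) ≠ 0 := by
  classical
  obtain ⟨V, hVQ, hVx⟩ := exists_valuation x hxind
  set α : Fin n → K := fun i => algebraMap A K (a i) with hα
  have hαinj : Function.Injective α := fun i j h => ha (hAK h)
  obtain ⟨s, hs⟩ := (inferInstance : Algebra.FiniteType ℤ A).out
  let rt : Fin n × Fin n × Fin n × Fin n → K := fun z => (α z.2.2.1 - α z.2.2.2) / (α z.1 - α z.2.1)
  let gen : A → K := fun y => if algebraMap A K y ∈ V then algebraMap A K y else (algebraMap A K y)⁻¹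
  set T : Finset K := ((Finset.univ.image rt).filter (fun y => y ∈ V)) ∪ s.image gen with hT
  have hTV : ∀ y ∈ T, y ∈ V := by
    intro y hy
    rw [hT, Finset.mem_union] at hy
    rcases hy with hy | hy
    · exact (Finset.mem_filter.1 hy).2
    · obtain ⟨z, hz, rfl⟩ := Finset.mem_image.1 hy
      simp only [gen]
      split_ifs with h
      · exact h
      · exact (V.mem_or_inv_mem _).resolve_left h
  set B : Subring K := Subring.closure (T : Set K) with hB
  have hBV : B ≤ V.toSubring := by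
    rw [hB, Subring.closure_le]
    intro y hy
    exact hTV y hy
  have : Algebra.FiniteType ℤ B := finiteType_closure T
  have : IsNoetherianRing B := Algebra.FiniteType.isNoetherianRing ℤ B
  have hratio : ∀ i j k l, (α k - α l) / (α i - α j) ∈ V → (α k - α l) / (α i - α j) ∈ B := by
    intro i j k l h
    apply Subring.subset_closure
    rw [Finset.mem_coe, hT, Finset.mem_union]
    left
    rw [Finset.mem_filter]
    exact ⟨Finset.mem_image.2 ⟨(i, j, k, l), Finset.mem_univ _, rfl⟩, h⟩
  have hgen : ∀ y ∈ s, algebraMap A K y ∈ B ∨ (algebraMap A K y)⁻¹ ∈ B := by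
    intro y hy
    have h1 : gen y ∈ B := by
      apply Subring.subset_closure
      rw [Finset.mem_coe, hT, Finset.mem_union]
      right
      exact Finset.mem_image_of_mem _ hy
    simp only [gen] at h1
    split_ifs at h1 with h2
    · exact Or.inl h1
    · exact Or.inr h1
  obtain ⟨β0, hβ0B, hβ0, hden⟩ := exists_denom s hs B hgen
  obtain ⟨m, hm⟩ := hden c
  have hcK : algebraMap A K c ≠ 0 := by
    intro h
    exact hc (hAK (by rw [h, map_zero]))
  set u : B := ⟨β0 ^ m * algebraMap A K c, hm⟩ with hu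
  have hu0 : u ≠ 0 := by
    intro h
    have := congrArg Subtype.val h
    exact mul_ne_zero (pow_ne_zero _ hβ0) hcK this
  have hβ0' : (⟨β0, hβ0B⟩ : B) ≠ 0 := by
    intro h
    exact hβ0 (congrArg Subtype.val h)
  obtain ⟨N1, hN1⟩ := exists_prime_avoiding ((⟨β0, hβ0B⟩ : B) * u) (mul_ne_zero hβ0' hu0)
  -- the residue ring of `B`
  let ψ : B →+* ResidueField V := (residue V).comp (Subring.inclusion hBV : B →+* V.toSubring)
  have := charZero_residue V hVQ
  have : CharZero ψ.range := by
    apply charZero_of_inj_zero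
    intro n hn
    have h1 := congrArg Subtype.val hn
    have h2 : ((n : ℕ) : ResidueField V) = 0 := by
      simpa using h1
    exact_mod_cast h2
  have : Algebra.FiniteType ℤ ψ.range :=
    Algebra.FiniteType.of_surjective (ψ.rangeRestrict.toIntAlgHom) ψ.rangeRestrict_surjective
  obtain ⟨p, hp, hpN, hp4, ⟨g⟩⟩ := exists_hom ψ.range (max N N1)
  have hpf : Fact p.Prime := ⟨hp⟩
  refine ⟨p, hp, lt_of_le_of_lt (le_max_left _ _) hpN, hp4, ?_⟩
  let f' : B →+* ZMod p := g.comp ψ.rangeRestrict
  have hker' : (RingHom.ker f').IsPrime := RingHom.ker_isPrime f'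
  have hpker : (p : B) ∈ RingHom.ker f' := by
    rw [RingHom.mem_ker, map_natCast]
    exact CharP.cast_eq_zero (ZMod p) p
  obtain ⟨Q, hQ, hpQ, hβQ, hQQ'⟩ := hN1 p hp (lt_of_le_of_lt (le_max_right _ _) hpN)
    (RingHom.ker f') hker' hpker
  let kp := FractionRing (B ⧸ Q)
  let f : B →+* kp := (algebraMap (B ⧸ Q) kp).comp (Ideal.Quotient.mk Q)
  have hfker : ∀ z : B, f z = 0 ↔ z ∈ Q := by
    intro z
    rw [← Ideal.Quotient.eq_zero_iff_mem (I := Q)]
    constructor
    · intro h
      exact (IsFractionRing.injective (B ⧸ Q) kp) (by rw [map_zero]; exact h)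
    · intro h
      change algebraMap (B ⧸ Q) kp (Ideal.Quotient.mk Q z) = 0
      rw [h, map_zero]
  have hkp0 : ((p : ℕ) : kp) = 0 := by
    rw [← map_natCast f p]
    exact (hfker _).2 hpQ
  have hcharp : CharP kp p := charP_of_cast_eq_zero hp hkp0
  obtain ⟨T', F, hF, hT'⟩ := exists_extension B f
  have hfβ0 : f ⟨β0, hβ0B⟩ ≠ 0 := by
    intro h
    exact hβQ (Q.mul_mem_right _ ((hfker _).1 h))
  have hfu : f u ≠ 0 := by
    intro h
    exact hβQ (Q.mul_mem_left _ ((hfker _).1 h))
  have hAT : ∀ y : A, algebraMap A K y ∈ T' := by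
    intro y
    obtain ⟨m', hm'⟩ := hden y
    apply hT'
    refine ⟨⟨_, hm'⟩, (⟨β0, hβ0B⟩ : B) ^ m', ?_, ?_⟩
    · rw [map_pow]
      exact pow_ne_zero _ hfβ0
    · push_cast
      ring
  let φ : A →+* kp := F.comp ((algebraMap A K).codRestrict T' hAT)
  have hφ : ∀ y : A, φ y = F ⟨algebraMap A K y, hAT y⟩ := fun y => rfl
  refine ⟨kp, inferInstance, hcharp, φ, ?_, ?_⟩
  · intro h0
    apply hfu
    obtain ⟨h1, h2⟩ := hF _ u.2
    rw [← h2]
    obtain ⟨h3, h4⟩ := hF _ (B.pow_mem hβ0B m)
    have h5 : (⟨(u : K), h1⟩ : T') = ⟨β0 ^ m, h3⟩ * ⟨algebraMap A K c, hAT c⟩ := rfl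
    rw [h5, map_mul, ← hφ c, h0, mul_zero]
  · intro I hinj q hq hdeg
    -- a valuation ring of `kp` above `Q' / Q`
    set I1 : Ideal f.range := (RingHom.ker f').map f.rangeRestrict with hI1
    have hfr : ∀ z : B, z ∈ Q ↔ f.rangeRestrict z = 0 := by
      intro z
      rw [← hfker]
      constructor
      · intro h
        exact Subtype.ext h
      · intro h
        exact congrArg Subtype.val h
    have hI1ne : I1 ≠ ⊤ := by
      intro h
      have h1 := Ideal.comap_map_of_surjective f.rangeRestrict f.rangeRestrict_surjective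
        (RingHom.ker f')
      rw [← hI1, h, Ideal.comap_top] at h1
      have h2 : RingHom.ker f' ⊔ Ideal.comap f.rangeRestrict ⊥ ≤ RingHom.ker f' := by
        rw [sup_le_iff]
        refine ⟨le_rfl, ?_⟩
        intro z hz
        rw [Ideal.mem_comap, Ideal.mem_bot] at hz
        exact hQQ' ((hfr z).2 hz)
      rw [← h1] at h2
      exact hker'.ne_top (top_le_iff.1 h2)
    obtain ⟨W, hW1, hW2⟩ := Ideal.image_subset_nonunits_valuationSubring I1 hI1ne
    have hfW : ∀ z : B, f z ∈ W := fun z => hW1 ⟨z, rfl⟩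
    have hfW2 : ∀ z : B, f' z = 0 → W.valuation (f z) < 1 := by
      intro z hz
      apply (ValuationSubring.mem_nonunits_iff W).1
      apply hW2
      refine ⟨f.rangeRestrict z, ?_, rfl⟩
      exact Ideal.mem_map_of_mem _ ((RingHom.mem_ker).2 hz)
    -- `F` extends `f`
    have hFf : ∀ (z : B) (h : (z : K) ∈ T'), F ⟨z, h⟩ = f z := by
      intro z h
      obtain ⟨h1, h2⟩ := hF _ z.2
      exact h2
    have key0 : ∀ (z : B) (y y' : A), (z : K) * algebraMap A K y = algebraMap A K y' →
        f z * φ y = φ y' := by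
      intro z y y' h
      obtain ⟨h1, h2⟩ := hF _ z.2
      have h3 : (⟨(z : K), h1⟩ : T') * ⟨algebraMap A K y, hAT y⟩ = ⟨algebraMap A K y', hAT y'⟩ :=
        Subtype.ext h
      rw [hφ y, hφ y', ← h3, map_mul, h2]
    have hαsub : ∀ i j, α i - α j = algebraMap A K (a i - a j) := fun i j => (map_sub _ _ _).symm
    have hαne : ∀ i j, i ≠ j → α i - α j ≠ 0 := fun i j h => sub_ne_zero.2 (fun h' => h (hαinj h'))
    have key1 : ∀ i j k l, i ≠ j → ∀ h : (α k - α l) / (α i - α j) ∈ V,
        f ⟨_, hratio i j k l h⟩ * (φ (a i) - φ (a j)) = φ (a k) - φ (a l) := by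
      intro i j k l hij h
      have h1 := key0 ⟨_, hratio i j k l h⟩ (a i - a j) (a k - a l) (by
        change (α k - α l) / (α i - α j) * _ = _
        rw [← hαsub, ← hαsub]
        exact div_mul_cancel₀ _ (hαne i j hij))
      rw [map_sub φ, map_sub φ] at h1
      exact h1
    have key2 : ∀ i j k l, i ≠ j → φ (a i) ≠ φ (a j) → (α k - α l) / (α i - α j) ∉ V →
        W.valuation (φ (a i) - φ (a j)) < W.valuation (φ (a k) - φ (a l)) := by
      intro i j k l hij hφij h
      have hkl : k ≠ l := by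
        rintro rfl
        rw [sub_self, zero_div] at h
        exact h V.zero_mem
      have h1 : (α i - α j) / (α k - α l) ∈ V := by
        have := (V.mem_or_inv_mem _).resolve_left h
        rwa [inv_div] at this
      have h2 : V.valuation ((α i - α j) / (α k - α l)) < 1 := by
        rw [← V.valuation_le_one_iff, not_le, ← inv_div, map_inv₀] at h
        have h3 : V.valuation ((α i - α j) / (α k - α l)) ≠ 0 :=
          (V.valuation.ne_zero_iff).2 (div_ne_zero (hαne i j hij) (hαne k l hkl))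
        exact (one_lt_inv₀ (zero_lt_iff.2 h3)).1 h
      have h3 : f' ⟨_, hratio k l i j h1⟩ = 0 := by
        have h4 : ψ ⟨_, hratio k l i j h1⟩ = 0 := by
          change residue V ⟨(α i - α j) / (α k - α l), h1⟩ = 0
          rw [residue_eq_zero_iff, V.valuation_lt_one_iff]
          exact h2
        have h5 : ψ.rangeRestrict ⟨_, hratio k l i j h1⟩ = 0 := Subtype.ext h4
        change g _ = 0
        rw [h5, map_zero]
      have h4 := hfW2 _ h3
      have h5 := key1 k l i j hkl h1
      have h6 := congrArg W.valuation h5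
      rw [map_mul] at h6
      have h7 : W.valuation (φ (a k) - φ (a l)) ≠ 0 := by
        intro h8
        rw [h8, mul_zero] at h6
        exact (W.valuation.ne_zero_iff).2 (sub_ne_zero.2 hφij) h6.symm
      rw [← h6]
      exact mul_lt_of_lt_one_left (zero_lt_iff.2 h7) h4
    refine valued W hp4 (fun i => φ (a i)) I hinj ?_ ?_ q hq hdeg
    · intro i hi j hj k hk hij hmem
      have hφij : φ (a j) ≠ φ (a i) := fun h => hij (hinj i hi j hj h.symm)
      have hφ0 : φ (a j) - φ (a i) ≠ 0 := sub_ne_zero.2 hφij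
      have hV : (α k - α i) / (α j - α i) ∈ V := by
        by_contra hcon
        have h1 := key2 j i k i hij.symm hφij hcon
        have h2 := (W.valuation_le_one_iff _).2 hmem
        rw [map_div₀] at h2
        have h3 : 0 < W.valuation (φ (a j) - φ (a i)) := zero_lt_iff.2 ((W.valuation.ne_zero_iff).2 hφ0)
        exact absurd ((div_le_one₀ h3).1 h2) (not_le.2 h1)
      have h1 := key1 j i k i hij.symm hV
      set z : B := ⟨_, hratio j i k i hV⟩ with hz
      have hfz : f z = (φ (a k) - φ (a i)) / (φ (a j) - φ (a i)) := by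
        rw [eq_div_iff hφ0]
        exact h1
      refine ⟨(f' z).val, ?_⟩
      have h2 : f' (z - (((f' z).val : ℕ) : B)) = 0 := by
        rw [map_sub, map_natCast, ZMod.natCast_zmod_val, sub_self]
      have h3 := hfW2 _ h2
      rw [map_sub, map_natCast, hfz] at h3
      have h4 : residue W (⟨(φ (a k) - φ (a i)) / (φ (a j) - φ (a i)), hmem⟩ -
          (((f' z).val : ℕ) : W)) = 0 := by
        rw [residue_eq_zero_iff, W.valuation_lt_one_iff]
        exact h3
      rw [map_sub, map_natCast, sub_eq_zero] at h4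
      exact h4
    · intro S γ hSI hS
      by_contra hcard
      push Not at hcard
      obtain ⟨i0, hi0, j0, hj0, hij0⟩ := Finset.one_lt_card.1 (by omega : 1 < S.card)
      have hle : ∀ i ∈ S, ∀ j ∈ S, ∀ k ∈ S, ∀ l ∈ S, i ≠ j → k ≠ l →
          V.valuation (α k - α l) ≤ V.valuation (α i - α j) := by
        intro i hi j hj k hk l hl hij hkl
        have hφij : φ (a i) ≠ φ (a j) := fun h => hij (hinj i (hSI hi) j (hSI hj) h)
        have hV : (α k - α l) / (α i - α j) ∈ V := by
          by_contra hcon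
          have h1 := key2 i j k l hij hφij hcon
          rw [hS i hi j hj hij, hS k hk l hl hkl] at h1
          exact lt_irrefl _ h1
        have h1 := (V.valuation_le_one_iff _).2 hV
        rw [map_div₀] at h1
        have h3 : 0 < V.valuation (α i - α j) :=
          zero_lt_iff.2 ((V.valuation.ne_zero_iff).2 (hαne i j hij))
        exact (div_le_one₀ h3).1 h1
      obtain ⟨c', hc', hc'1⟩ := rank_lemma V.valuation α hαinj S (by omega)
        (V.valuation (α i0 - α j0)) (fun i hi j hj hij =>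
          le_antisymm (hle i0 hi0 j0 hj0 i hi j hj hij0 hij) (hle i hi j hj i0 hi0 j0 hj0 hij hij0))
        hr x (by
          intro t
          obtain ⟨i, j, k, l, hij, hxt⟩ := hx t
          refine ⟨i, j, k, l, hij, ?_, hxt⟩
          rintro rfl
          apply hxind.ne_zero t
          rw [hxt, sub_self, zero_div])
      exact hVx c' hc' hc'1

end

end MPadc574
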