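import Mathlib

/-! # Extracting algebraically independent elements from a generating set -/

namespace MPadc574

open Cardinal

theorem exists_independent_aux {F k : Type*} [Field F] [Field k] [Algebra F k] (S : Set k)
    (hS : S.Finite) (n : ℕ)
    (h : (n : Cardinal) ≤ Algebra.trdeg F (IntermediateField.adjoin F S) + 4) :
    ∃ r, n ≤ r + 4 ∧ ∃ x : Fin r → k, AlgebraicIndependent F x ∧ ∀ t, x t ∈ S := by
  classical
  set E := IntermediateField.adjoin F S with hE
  set S' : Set E := (fun e : E => (e : k)) ⁻¹' S with hS'
  have htop : IntermediateField.adjoin F S' = ⊤ := by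
    apply IntermediateField.map_injective (IntermediateField.val E)
    rw [IntermediateField.adjoin_map]
    have : (E.val : E → k) '' S' = S := by
      ext y
      constructor
      · rintro ⟨z, hz, rfl⟩
        exact hz
      · intro hy
        exact ⟨⟨y, IntermediateField.subset_adjoin F S hy⟩, hy, rfl⟩
    rw [this, ← AlgHom.fieldRange_eq_map, IntermediateField.fieldRange_val]
  have h1 : Algebra.IsAlgebraic (IntermediateField.adjoin F S') E := by
    rw [htop]
    constructor
    intro y
    exact isAlgebraic_algebraMap (⟨y, trivial⟩ : (⊤ : IntermediateField F E))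
  have h2 : Algebra.IsAlgebraic (Algebra.adjoin F S') E :=
    IntermediateField.isAlgebraic_adjoin_iff_top.1 h1
  obtain ⟨u, huS, hu⟩ := exists_isTranscendenceBasis_subset (R := F) S'
  have hS'fin : S'.Finite := hS.preimage (Subtype.val_injective.injOn)
  have hufin : u.Finite := hS'fin.subset huS
  have := hufin.fintype
  have hcard := hu.cardinalMk_eq_trdeg
  rw [← hcard, Cardinal.mk_fintype] at h
  have h3 : n ≤ Fintype.card u + 4 := by exact_mod_cast h
  refine ⟨Fintype.card u, h3, fun t => ((Fintype.equivFin u).symm t : E), ?_, ?_⟩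
  · have h4 : AlgebraicIndependent F (fun z : u => ((z : E) : k)) :=
      hu.1.map' (f := E.val) E.val.injective
    exact h4.comp _ (Fintype.equivFin u).symm.injective
  · intro t
    exact huS ((Fintype.equivFin u).symm t).2

theorem exists_independent {k : Type*} [Field k] [CharZero k] (S : Set k) (hS : S.Finite) (n : ℕ)
    (h : (n : Cardinal) ≤ Algebra.trdeg ℚ (IntermediateField.adjoin ℚ S) + 4) :
    ∃ r, n ≤ r + 4 ∧ ∃ x : Fin r → k, AlgebraicIndependent ℚ x ∧ ∀ t, x t ∈ S := by
  apply exists_independent_aux S hS n
  convert h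
  · rfl
  · exact Subsingleton.elim _ _

theorem isJacobsonRing_int : IsJacobsonRing ℤ := by
  rw [isJacobsonRing_iff_prime_eq]
  intro P hP
  by_cases h : P = ⊥
  · subst h
    rw [eq_bot_iff]
    intro x hx
    rw [Ideal.mem_bot]
    by_contra hx0
    obtain ⟨p, hpx, hp⟩ := Nat.exists_infinite_primes (x.natAbs + 1)
    have hmax : (Ideal.span {(p : ℤ)}).IsMaximal := by
      apply PrincipalIdealRing.isMaximal_of_irreducible
      exact (Nat.prime_iff_prime_int.1 hp).irreducible
    rw [Ideal.jacobson, Ideal.mem_sInf] at hx
    have h1 := hx ⟨bot_le, hmax⟩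
    rw [Ideal.mem_span_singleton] at h1
    have h2 := Nat.le_of_dvd (Int.natAbs_pos.2 hx0) (Int.natCast_dvd.1 h1)
    omega
  · have hmax : P.IsMaximal := hP.isMaximal h
    exact Ideal.jacobson_eq_self_of_isMaximal

end MPadc574
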